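import Mathlib

/-!
# Flatness of planar sets: definitions
-/

namespace Pool.Agent.MP099f24

open Filter Topology Set Metric
open scoped ComplexConjugate

/-- `K` is bilaterally `ε r`-close to the line through `x` with direction `e` in `B_r(x)`. -/
def FlatDir (K : Set ℂ) (x : ℂ) (r ε : ℝ) (e : ℂ) : Prop :=
  ‖e‖ = 1 ∧ (∀ y ∈ K, ‖y - x‖ ≤ r → |((y - x) * conj e).im| ≤ ε * r) ∧
    ∀ t : ℝ, |t| ≤ r → ∃ y ∈ K, ‖y - (x + t * e)‖ ≤ ε * r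

/-- `K` is bilaterally `ε r`-close to a line through `x` in `B_r(x)`. -/
def FlatAt (K : Set ℂ) (x : ℂ) (r ε : ℝ) : Prop := ∃ e : ℂ, FlatDir K x r ε e

/-- `K` is bilaterally `ε r`-close to the half line starting at `p` with direction `e` in
`B_r(p)`. -/
def RayDir (K : Set ℂ) (p : ℂ) (r ε : ℝ) (e : ℂ) : Prop :=
  ‖e‖ = 1 ∧ (∀ y ∈ K, ‖y - p‖ ≤ r → ∃ t : ℝ, 0 ≤ t ∧ ‖y - (p + t * e)‖ ≤ ε * r) ∧
    ∀ t : ℝ, 0 ≤ t → t ≤ r → ∃ y ∈ K, ‖y - (p + t * e)‖ ≤ ε * r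

/-- the primitive third root of unity -/
noncomputable def om3 : ℂ := Complex.exp (2 * Real.pi / 3 * Complex.I)

/-- `K` is bilaterally `ε r`-close to the tripod with centre `p` and directions
`e, om3 * e, om3 ^ 2 * e` in `B_r(p)`. -/
def TripodDir (K : Set ℂ) (p : ℂ) (r ε : ℝ) (e : ℂ) : Prop :=
  ‖e‖ = 1 ∧ (∀ y ∈ K, ‖y - p‖ ≤ r → ∃ (i : Fin 3) (t : ℝ), 0 ≤ t ∧
      ‖y - (p + t * (om3 ^ (i : ℕ) * e))‖ ≤ ε * r) ∧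
    ∀ (i : Fin 3) (t : ℝ), 0 ≤ t → t ≤ r → ∃ y ∈ K, ‖y - (p + t * (om3 ^ (i : ℕ) * e))‖ ≤ ε * r

end Pool.Agent.MP099f24
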