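import Mathlib

/-!
# A Campanato type criterion for `C¹` regularity on an interval
-/

namespace Pool.Agent.MP099f24

open Filter Topology Set Metric

/-- dyadic scale of a positive number -/
private theorem camp_scale {R d : ℝ} (hR : 0 < R) (hd : 0 < d) (hdR : d ≤ R) :
    ∃ k : ℕ, R / 2 ^ (k + 1) < d ∧ d ≤ R / 2 ^ k := by
  classical
  have h1 : ∃ n : ℕ, R / 2 ^ n < d := by
    have := exists_pow_lt_of_lt_one (x := d / R) (y := (1/2 : ℝ)) (by positivity) (by norm_num)
    obtain ⟨n, hn⟩ := this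
    refine ⟨n, ?_⟩
    rw [lt_div_iff₀ hR] at hn
    have : R / 2 ^ n = (1/2 : ℝ) ^ n * R := by
      rw [one_div, inv_pow]; field_simp
    rw [this]; exact hn
  have hk := Nat.find_spec h1
  have hne : Nat.find h1 ≠ 0 := by
    intro h0
    rw [h0] at hk
    simp at hk
    linarith
  obtain ⟨m, hm⟩ := Nat.exists_eq_succ_of_ne_zero hne
  refine ⟨m, ?_, ?_⟩
  · rw [hm] at hk; exact hk
  · have := Nat.find_min h1 (m := m) (by rw [hm]; exact Nat.lt_succ_self m)
    exact not_lt.mp this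

/-- the dyadic scale tends to infinity -/
private theorem camp_scale_large {R : ℝ} (hR : 0 < R) (N : ℕ) {d : ℝ} (hd : d ≤ R / 2 ^ (N + 1))
    {k : ℕ} (hk : R / 2 ^ (k + 1) < d) : N < k + 1 := by
  by_contra hcon
  push Not at hcon
  have h2 : (2:ℝ) ^ (k + 1) ≤ 2 ^ N := pow_le_pow_right₀ (by norm_num) hcon
  have h3 : R / 2 ^ N ≤ R / 2 ^ (k + 1) := by
    apply div_le_div_of_nonneg_left hR.le (by positivity) h2
  have h4 : R / 2 ^ (N + 1) ≤ R / 2 ^ N := by
    apply div_le_div_of_nonneg_left hR.le (by positivity)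
    exact pow_le_pow_right₀ (by norm_num) (Nat.le_succ N)
  linarith

theorem lf_scale {R d : ℝ} (hR : 0 < R) (hd : 0 < d) (hdR : d ≤ R) :
    ∃ k : ℕ, R / 2 ^ (k + 1) < d ∧ d ≤ R / 2 ^ k := camp_scale hR hd hdR

/-- **Campanato criterion.**  If near every point of the open interval `f` is, at the dyadic
scales `R / 2 ^ k`, within `C q ^ k R / 2 ^ k` of an affine function, then `f` is `C¹`. -/
theorem lf_camp {f : ℝ → ℝ} {a b C R q : ℝ} (hR : 0 < R) (hC : 0 ≤ C) (hq0 : 0 < q) (hq1 : q < 1)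
    (h : ∀ t ∈ Ioo a b, ∀ k : ℕ, ∃ m : ℝ, ∀ s ∈ Ioo a b, |s - t| ≤ R / 2 ^ k →
      |f s - f t - m * (s - t)| ≤ C * q ^ k * (R / 2 ^ k)) :
    ContDiffOn ℝ 1 f (Ioo a b) := by
  classical
  rcases le_or_gt b a with hab | hab
  · rw [Ioo_eq_empty (not_lt.mpr hab)]; exact contDiffOn_empty
  -- choose slopes
  choose! m hm using h
  -- `k0`: scales below which one of the two sides is available
  obtain ⟨k0, hk0⟩ : ∃ k0 : ℕ, R / 2 ^ k0 ≤ (b - a) / 2 := by
    have := exists_pow_lt_of_lt_one (x := (b - a) / 2 / R) (y := (1/2 : ℝ))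
      (by have : 0 < b - a := by linarith
          positivity) (by norm_num)
    obtain ⟨n, hn⟩ := this
    refine ⟨n, ?_⟩
    rw [lt_div_iff₀ hR] at hn
    have : R / 2 ^ n = (1/2 : ℝ) ^ n * R := by
      rw [one_div, inv_pow]; field_simp
    rw [this]; exact hn.le
  have hside : ∀ t ∈ Ioo a b, ∀ k : ℕ, k0 ≤ k → ∃ s ∈ Ioo a b, |s - t| = R / 2 ^ (k + 1) := by
    intro t ht k hk
    have h1 : R / 2 ^ (k + 1) ≤ (b - a) / 4 := by
      have h2 : R / 2 ^ k ≤ R / 2 ^ k0 := by
        apply div_le_div_of_nonneg_left hR.le (by positivity)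
        exact pow_le_pow_right₀ (by norm_num) hk
      have h3 : R / 2 ^ (k + 1) = R / 2 ^ k / 2 := by rw [pow_succ]; field_simp
      rw [h3]; linarith
    have h0 : 0 < R / 2 ^ (k + 1) := by positivity
    rcases le_or_gt t ((a + b) / 2) with h2 | h2
    · refine ⟨t + R / 2 ^ (k + 1), ⟨by linarith [ht.1], by linarith [ht.1]⟩, ?_⟩
      rw [add_sub_cancel_left, abs_of_pos h0]
    · refine ⟨t - R / 2 ^ (k + 1), ⟨by linarith [ht.2], by linarith [ht.2]⟩, ?_⟩
      rw [show t - R / 2 ^ (k + 1) - t = -(R / 2 ^ (k + 1)) by ring, abs_neg, abs_of_pos h0]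
  have hstep : ∀ t ∈ Ioo a b, ∀ k : ℕ, k0 ≤ k → |m t k - m t (k + 1)| ≤ 3 * C * q ^ k := by
    intro t ht k hk
    obtain ⟨s, hs, hst⟩ := hside t ht k hk
    have h0 : 0 < R / 2 ^ (k + 1) := by positivity
    have hhalf : R / 2 ^ k = 2 * (R / 2 ^ (k + 1)) := by rw [pow_succ]; field_simp
    have e1 := hm t ht k s hs (by rw [hst, hhalf]; linarith)
    have e2 := hm t ht (k + 1) s hs (by rw [hst])
    have e3 : |(m t k - m t (k + 1)) * (s - t)| ≤
        C * q ^ k * (R / 2 ^ k) + C * q ^ (k + 1) * (R / 2 ^ (k + 1)) := by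
      have : (m t k - m t (k + 1)) * (s - t) =
          (f s - f t - m t (k + 1) * (s - t)) - (f s - f t - m t k * (s - t)) := by ring
      rw [this]
      refine (abs_sub _ _).trans ?_
      linarith
    rw [abs_mul, hst, hhalf] at e3
    have hq : q ^ (k + 1) ≤ q ^ k := pow_le_pow_of_le_one hq0.le hq1.le (Nat.le_succ k)
    have e4 : |m t k - m t (k + 1)| * (R / 2 ^ (k + 1)) ≤ (3 * C * q ^ k) * (R / 2 ^ (k + 1)) := by
      refine e3.trans ?_
      have : C * q ^ (k + 1) * (R / 2 ^ (k + 1)) ≤ C * q ^ k * (R / 2 ^ (k + 1)) := by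
        gcongr
      linarith
    exact le_of_mul_le_mul_right e4 h0
  -- the limit slope
  have hcau : ∀ t ∈ Ioo a b, ∃ L : ℝ, ∀ k : ℕ, k0 ≤ k → |m t k - L| ≤ 3 * C / (1 - q) * q ^ k := by
    intro t ht
    have hc : CauchySeq fun n => m t (k0 + n) := by
      apply cauchySeq_of_le_geometric q (3 * C * q ^ k0) hq1
      intro n
      rw [Real.dist_eq]
      refine (hstep t ht (k0 + n) (by omega)).trans (le_of_eq ?_)
      rw [pow_add]; ring
    obtain ⟨L, hL⟩ := cauchySeq_tendsto_of_complete hc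
    refine ⟨L, ?_⟩
    intro k hk
    have := dist_le_of_le_geometric_of_tendsto q (3 * C * q ^ k0) hq1 (f := fun n => m t (k0 + n))
      (fun n => by
        rw [Real.dist_eq]
        refine (hstep t ht (k0 + n) (by omega)).trans (le_of_eq ?_)
        rw [pow_add]; ring) hL (k - k0)
    rw [Real.dist_eq] at this
    have hkk : k0 + (k - k0) = k := by omega
    simp only [hkk] at this
    refine this.trans (le_of_eq ?_)
    have : q ^ k = q ^ k0 * q ^ (k - k0) := by rw [← pow_add, hkk]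
    rw [this]; ring
  choose! L hL using hcau
  set C' : ℝ := 2 * C + 3 * C / (1 - q) with hC'
  have h1q : 0 < 1 - q := by linarith
  have hC'0 : 0 ≤ C' := by positivity
  -- main estimate
  have hmain : ∀ t ∈ Ioo a b, ∀ s ∈ Ioo a b, ∀ k : ℕ, k0 ≤ k → R / 2 ^ (k + 1) < |s - t| →
      |s - t| ≤ R / 2 ^ k → |f s - f t - L t * (s - t)| ≤ C' * q ^ k * |s - t| := by
    intro t ht s hs k hk h1 h2
    have e1 := hm t ht k s hs h2
    have e2 := hL t ht k hk
    have hhalf : R / 2 ^ k = 2 * (R / 2 ^ (k + 1)) := by rw [pow_succ]; field_simp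
    have : f s - f t - L t * (s - t) = (f s - f t - m t k * (s - t)) + (m t k - L t) * (s - t) := by
      ring
    rw [this]
    refine (abs_add_le _ _).trans ?_
    rw [abs_mul]
    have e3 : C * q ^ k * (R / 2 ^ k) ≤ 2 * C * q ^ k * |s - t| := by
      rw [hhalf]
      have : C * q ^ k * (2 * (R / 2 ^ (k + 1))) = 2 * C * q ^ k * (R / 2 ^ (k + 1)) := by ring
      rw [this]
      have : 0 ≤ 2 * C * q ^ k := by positivity
      exact mul_le_mul_of_nonneg_left h1.le this
    have e4 : |m t k - L t| * |s - t| ≤ 3 * C / (1 - q) * q ^ k * |s - t| :=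
      mul_le_mul_of_nonneg_right e2 (abs_nonneg _)
    calc _ ≤ C * q ^ k * (R / 2 ^ k) + |m t k - L t| * |s - t| := by linarith
      _ ≤ 2 * C * q ^ k * |s - t| + 3 * C / (1 - q) * q ^ k * |s - t| := by linarith
      _ = C' * q ^ k * |s - t| := by rw [hC']; ring
  -- uniform smallness
  have hsmall : ∀ ε : ℝ, 0 < ε → ∃ d : ℝ, 0 < d ∧ ∀ t ∈ Ioo a b, ∀ s ∈ Ioo a b, |s - t| < d →
      |f s - f t - L t * (s - t)| ≤ ε * |s - t| := by
    intro ε hε
    obtain ⟨N, hN⟩ : ∃ N : ℕ, C' * q ^ N ≤ ε := by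
      have := exists_pow_lt_of_lt_one (x := ε / (C' + 1)) (y := q) (by positivity) hq1
      obtain ⟨n, hn⟩ := this
      refine ⟨n, ?_⟩
      rw [lt_div_iff₀ (by positivity)] at hn
      have : 0 < q ^ n := by positivity
      nlinarith
    refine ⟨R / 2 ^ (max N k0 + 1), by positivity, ?_⟩
    intro t ht s hs hst
    rcases eq_or_ne s t with h0 | h0
    · rw [h0]; simp
    have hpos : 0 < |s - t| := abs_pos.mpr (sub_ne_zero.mpr h0)
    have hle : |s - t| ≤ R := by
      refine hst.le.trans ?_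
      apply div_le_self hR.le
      exact one_le_pow₀ (by norm_num)
    obtain ⟨k, hk1, hk2⟩ := camp_scale hR hpos hle
    have hk3 : max N k0 < k + 1 := camp_scale_large hR _ hst.le hk1
    have hk4 : k0 ≤ k := by
      have := le_max_right N k0
      omega
    have hk5 : N ≤ k := by
      have := le_max_left N k0
      omega
    refine (hmain t ht s hs k hk4 hk1 hk2).trans ?_
    have : C' * q ^ k ≤ C' * q ^ N :=
      mul_le_mul_of_nonneg_left (pow_le_pow_of_le_one hq0.le hq1.le hk5) hC'0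
    exact mul_le_mul_of_nonneg_right (this.trans hN) (abs_nonneg _)
  have hderiv : ∀ t ∈ Ioo a b, HasDerivAt f (L t) t := by
    intro t ht
    rw [hasDerivAt_iff_isLittleO]
    rw [Asymptotics.isLittleO_iff]
    intro ε hε
    obtain ⟨d, hd, hdd⟩ := hsmall ε hε
    have hmem : Ioo a b ∈ 𝓝 t := Ioo_mem_nhds ht.1 ht.2
    filter_upwards [hmem, Metric.ball_mem_nhds t hd] with s hs1 hs2
    rw [Metric.mem_ball, Real.dist_eq] at hs2
    have := hdd t ht s hs1 hs2
    rw [Real.norm_eq_abs, Real.norm_eq_abs, smul_eq_mul]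
    rw [show f s - f t - (s - t) * L t = f s - f t - L t * (s - t) by ring]
    exact this
  have hcont : ContinuousOn L (Ioo a b) := by
    rw [Metric.continuousOn_iff]
    intro t ht ε hε
    obtain ⟨d, hd, hdd⟩ := hsmall (ε / 4) (by positivity)
    refine ⟨d, hd, ?_⟩
    intro s hs hst
    rw [Real.dist_eq] at hst ⊢
    rcases eq_or_ne s t with h0 | h0
    · rw [h0]; simpa using hε
    have hpos : 0 < |s - t| := abs_pos.mpr (sub_ne_zero.mpr h0)
    have e1 := hdd t ht s hs hst
    have e2 := hdd s hs t ht (by rw [abs_sub_comm]; exact hst)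
    have e3 : |(L s - L t) * (s - t)| ≤ ε / 4 * |s - t| + ε / 4 * |s - t| := by
      have : (L s - L t) * (s - t) =
          (f s - f t - L t * (s - t)) + (f t - f s - L s * (t - s)) := by ring
      rw [this]
      refine (abs_add_le _ _).trans ?_
      rw [abs_sub_comm t s] at e2
      linarith
    rw [abs_mul] at e3
    have e4 : |L s - L t| * |s - t| ≤ (ε / 2) * |s - t| := by linarith
    have := le_of_mul_le_mul_right e4 hpos
    linarith
  have hone : (1 : WithTop ℕ∞) = 0 + 1 := by norm_num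
  rw [hone, contDiffOn_succ_iff_deriv_of_isOpen isOpen_Ioo]
  refine ⟨fun t ht => (hderiv t ht).differentiableAt.differentiableWithinAt, by simp, ?_⟩
  rw [contDiffOn_zero]
  exact hcont.congr fun t ht => (hderiv t ht).deriv

end Pool.Agent.MP099f24
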