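import Mathlib
import Pool.Agent.Lib.MP_099f24_an.LF.Defs
import Pool.Agent.Lib.MP_099f24_an.LF.Camp

/-!
# Flat sets with geometrically decaying flatness are `C¹` graphs
-/

namespace Pool.Agent.MP099f24

open Filter Topology Set Metric
open scoped ComplexConjugate

private theorem graph_im_mul (a b : ℂ) : |(a * b).im| ≤ ‖a‖ * |b.im| + |a.im| * ‖b‖ := by
  rw [Complex.mul_im]
  refine (abs_add_le _ _).trans ?_
  rw [abs_mul, abs_mul]
  have h1 := Complex.abs_re_le_norm a
  have h2 := Complex.abs_re_le_norm b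
  gcongr

/-- comparison of the directions at two scales -/
theorem lf_compare {K : Set ℂ} {x : ℂ} {r r' ε ε' : ℝ} (hr' : 0 < r') (hrr : r' ≤ r)
    {e e' : ℂ} (hε' : ε' ≤ 1 / 2)
    (h1 : ∀ y ∈ K, ‖y - x‖ ≤ r → |((y - x) * conj e).im| ≤ ε * r) (he : ‖e‖ = 1)
    (h2 : FlatDir K x r' ε' e') : |(e' * conj e).im| * r' ≤ 2 * (ε * r + ε' * r') := by
  obtain ⟨y, hy, hyd⟩ := h2.2.2 (r' / 2) (by rw [abs_of_pos (by positivity)]; linarith)
  have hn : ‖y - x‖ ≤ r' := by
    have : y - x = (y - (x + ((r' / 2 : ℝ) : ℂ) * e')) + ((r' / 2 : ℝ) : ℂ) * e' := by ring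
    rw [this]
    refine (norm_add_le _ _).trans ?_
    rw [norm_mul, Complex.norm_real, h2.1, Real.norm_eq_abs, abs_of_pos (by positivity : 0 < r' / 2)]
    nlinarith
  have h3 := h1 y hy (hn.trans hrr)
  have h4 : (((r' / 2 : ℝ) : ℂ) * (e' * conj e)).im =
      ((y - x) * conj e).im - ((y - (x + ((r' / 2 : ℝ) : ℂ) * e')) * conj e).im := by
    rw [← Complex.sub_im]; congr 1; ring
  have h5 : |((y - (x + ((r' / 2 : ℝ) : ℂ) * e')) * conj e).im| ≤ ε' * r' := by
    refine (Complex.abs_im_le_norm _).trans ?_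
    rw [norm_mul, RCLike.norm_conj, he, mul_one]; exact hyd
  have h6 : |(((r' / 2 : ℝ) : ℂ) * (e' * conj e)).im| ≤ ε * r + ε' * r' := by
    rw [h4]
    refine (abs_sub _ _).trans ?_
    linarith
  rw [Complex.im_ofReal_mul, abs_mul, abs_of_pos (by positivity : 0 < r' / 2)] at h6
  linarith

/-- `C¹` graph theorem at the origin with horizontal axis -/
private theorem graph_core {K : Set ℂ} {R δ q : ℝ} (hR : 0 < R)
    (hK : IsClosed (K ∩ closedBall 0 R)) (h0 : (0 : ℂ) ∈ K) (hq0 : 0 < q) (hq1 : q < 1)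
    (hδ0 : 0 ≤ δ) (hδ : 200 * δ ≤ 1 - q)
    (he0 : ∀ y ∈ K, ‖y‖ ≤ R → |y.im| ≤ R / 200)
    (hflat : ∀ x ∈ K, ‖x‖ ≤ R → ∀ k : ℕ, FlatAt K x (R / 2 ^ k) (δ * q ^ k)) :
    ∃ f : ℝ → ℝ, f 0 = 0 ∧ ContDiffOn ℝ 1 f (Ioo (-(R / 16)) (R / 16)) ∧
      (∀ s ∈ Ioo (-(R / 16)) (R / 16), ∀ t ∈ Ioo (-(R / 16)) (R / 16),
        |f s - f t| ≤ |s - t| / 8) ∧
      ∀ s t : ℝ, |s| < R / 16 → |t| < R / 16 → (((s : ℂ) + t * Complex.I) ∈ K ↔ t = f s) := by
  classical
  have hδs : δ ≤ 1 / 200 := by linarith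
  choose! e he using hflat
  have hqk : ∀ k : ℕ, q ^ k ≤ 1 := fun k => pow_le_one₀ hq0.le hq1.le
  have hqk0 : ∀ k : ℕ, 0 < q ^ k := fun k => by positivity
  have hRk : ∀ k : ℕ, R / 2 ^ k = 2 * (R / 2 ^ (k + 1)) := fun k => by rw [pow_succ]; field_simp
  have hRk0 : ∀ k : ℕ, 0 < R / 2 ^ k := fun k => by positivity
  -- initial direction
  have hinit : ∀ x ∈ K, ‖x‖ ≤ R / 2 → |(e x 0).im| ≤ 3 / 50 := by
    intro x hx hxR
    have h1 := he x hx (by linarith) 0
    simp only [pow_zero, div_one, mul_one] at h1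
    obtain ⟨y, hy, hyd⟩ := h1.2.2 (R / 4) (by rw [abs_of_pos (by positivity)]; linarith)
    have hyR : ‖y‖ ≤ R := by
      have : y = (y - (x + ((R / 4 : ℝ) : ℂ) * e x 0)) + x + ((R / 4 : ℝ) : ℂ) * e x 0 := by ring
      rw [this]
      refine (norm_add_le _ _).trans ?_
      have := norm_add_le (y - (x + ((R / 4 : ℝ) : ℂ) * e x 0)) x
      rw [norm_mul, Complex.norm_real, h1.1, Real.norm_eq_abs,
        abs_of_pos (by positivity : 0 < R / 4)]
      nlinarith
    have h2 := he0 y hy hyR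
    have h3 := he0 x hx (by linarith)
    have h4 : (((R / 4 : ℝ) : ℂ) * e x 0).im = y.im - x.im -
        (y - (x + ((R / 4 : ℝ) : ℂ) * e x 0)).im := by
      simp only [Complex.sub_im, Complex.add_im]; ring
    have h5 := (Complex.abs_im_le_norm (y - (x + ((R / 4 : ℝ) : ℂ) * e x 0))).trans hyd
    rw [Complex.im_ofReal_mul] at h4
    have h6 : |R / 4 * (e x 0).im| ≤ R / 200 + R / 200 + δ * R := by
      rw [h4]
      refine (abs_sub _ _).trans ?_
      have := abs_sub y.im x.im
      linarith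
    rw [abs_mul, abs_of_pos (by positivity : 0 < R / 4)] at h6
    have h7 : |(e x 0).im| * (R / 4) ≤ (3 / 50) * (R / 4) := by nlinarith
    exact le_of_mul_le_mul_right h7 (by positivity)
  -- consecutive directions
  have hcons : ∀ x ∈ K, ‖x‖ ≤ R / 2 → ∀ k : ℕ,
      |(e x (k + 1) * conj (e x k)).im| ≤ 6 * δ * q ^ k := by
    intro x hx hxR k
    have h1 := he x hx (by linarith) k
    have h2 := he x hx (by linarith) (k + 1)
    have hq2 : q ^ (k + 1) ≤ q ^ k := pow_le_pow_of_le_one hq0.le hq1.le (Nat.le_succ k)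
    have h3 := lf_compare (hRk0 (k + 1)) (by rw [hRk k]; linarith [hRk0 (k + 1)]) (ε := δ * q ^ k)
      (ε' := δ * q ^ (k + 1)) (by nlinarith [hqk (k + 1), hqk0 (k + 1)]) h1.2.1 h1.1 h2
    have h4 : |(e x (k + 1) * conj (e x k)).im| * (R / 2 ^ (k + 1)) ≤
        (6 * δ * q ^ k) * (R / 2 ^ (k + 1)) := by
      refine h3.trans ?_
      rw [hRk k]
      have : δ * q ^ (k + 1) * (R / 2 ^ (k + 1)) ≤ δ * q ^ k * (R / 2 ^ (k + 1)) := by
        have := hRk0 (k + 1)
        gcongr
      nlinarith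
    exact le_of_mul_le_mul_right h4 (hRk0 (k + 1))
  -- all directions are almost horizontal
  have hdir' : ∀ x ∈ K, ‖x‖ ≤ R / 2 → ∀ k : ℕ,
      |(e x k).im| * (1 - q) ≤ 3 / 50 * (1 - q) + 6 * δ * (1 - q ^ k) := by
    intro x hx hxR k
    induction k with
    | zero => simp only [pow_zero, sub_self, mul_zero, add_zero]
              exact mul_le_mul_of_nonneg_right (hinit x hx hxR) (by linarith)
    | succ k ih =>
      have h1 := hcons x hx hxR k
      have hek := (he x hx (by linarith) k).1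
      have hek1 := (he x hx (by linarith) (k + 1)).1
      have h2 : e x (k + 1) = (e x (k + 1) * conj (e x k)) * e x k := by
        rw [mul_assoc, mul_comm (conj (e x k)), Complex.mul_conj]
        rw [Complex.normSq_eq_norm_sq, hek]; simp
      have h3 : |(e x (k + 1)).im| ≤ |(e x k).im| + 6 * δ * q ^ k := by
        rw [h2]
        refine (graph_im_mul _ _).trans ?_
        rw [norm_mul, RCLike.norm_conj, hek, hek1]
        linarith
      rw [pow_succ]
      nlinarith
  have hdir : ∀ x ∈ K, ‖x‖ ≤ R / 2 → ∀ k : ℕ, |(e x k).im| ≤ 9 / 100 := by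
    intro x hx hxR k
    have h1 := hdir' x hx hxR k
    have h2 : 6 * δ * (1 - q ^ k) ≤ 3 / 100 * (1 - q) := by
      have := hqk0 k
      nlinarith
    have h3 : |(e x k).im| * (1 - q) ≤ 9 / 100 * (1 - q) := by linarith
    exact le_of_mul_le_mul_right h3 (by linarith)
  have hre : ∀ x ∈ K, ‖x‖ ≤ R / 2 → ∀ k : ℕ, 9 / 10 ≤ |(e x k).re| := by
    intro x hx hxR k
    have h1 := hdir x hx hxR k
    have h2 := (he x hx (by linarith) k).1
    have h3 : (e x k).re ^ 2 + (e x k).im ^ 2 = 1 := by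
      have := Complex.sq_norm (e x k)
      rw [h2, Complex.normSq_apply] at this
      nlinarith
    have h4 : (e x k).im ^ 2 ≤ (9 / 100) ^ 2 := by
      rw [← sq_abs]; exact pow_le_pow_left₀ (abs_nonneg _) h1 2
    apply abs_le_of_sq_le_sq' _ _ |>.2 <;> [skip; positivity]
    rw [sq_abs]; nlinarith
  -- cone condition
  have hcone : ∀ x ∈ K, ∀ y ∈ K, ‖x‖ ≤ R / 2 → ‖y‖ ≤ R / 2 →
      |(y - x).im| ≤ |(y - x).re| / 9 := by
    intro x hx y hy hxR hyR
    rcases eq_or_ne x y with hxy | hxy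
    · rw [hxy]; simp
    have hpos : 0 < ‖y - x‖ := norm_pos_iff.mpr (sub_ne_zero.mpr hxy.symm)
    have hle : ‖y - x‖ ≤ R := (norm_sub_le _ _).trans (by linarith)
    obtain ⟨k, hk1, hk2⟩ := lf_scale hR hpos hle
    have h1 := (he x hx (by linarith) k).2.1 y hy hk2
    have hek := (he x hx (by linarith) k).1
    have h2 : y - x = ((y - x) * conj (e x k)) * e x k := by
      rw [mul_assoc, mul_comm (conj (e x k)), Complex.mul_conj]
      rw [Complex.normSq_eq_norm_sq, hek]; simp
    have h3 : δ * q ^ k * (R / 2 ^ k) ≤ 1 / 100 * ‖y - x‖ := by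
      have h4 : δ * q ^ k ≤ 1 / 200 := by
        have := hqk k
        have := hqk0 k
        nlinarith
      rw [hRk k]
      have := hRk0 (k + 1)
      have h5 : δ * q ^ k * (2 * (R / 2 ^ (k + 1))) ≤ 1 / 200 * (2 * ‖y - x‖) := by
        apply mul_le_mul h4 (by linarith) (by positivity) (by norm_num)
      linarith
    have h6 : |(y - x).im| ≤ 1 / 10 * ‖y - x‖ := by
      have h7 := graph_im_mul ((y - x) * conj (e x k)) (e x k)
      rw [← h2, norm_mul, RCLike.norm_conj, hek, mul_one, mul_one] at h7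
      have h8 := hdir x hx hxR k
      nlinarith
    have h9 := Complex.norm_le_abs_re_add_abs_im (y - x)
    linarith [abs_nonneg (y - x).re, abs_nonneg (y - x).im]
  -- the projection covers the interval
  set K0 : Set ℂ := K ∩ closedBall 0 (R / 2) with hK0
  have hK0c : IsCompact K0 := by
    have : K0 = (K ∩ closedBall 0 R) ∩ closedBall 0 (R / 2) := by
      ext z
      simp only [hK0, mem_inter_iff, mem_closedBall, dist_zero_right]
      constructor
      · rintro ⟨a, b⟩; exact ⟨⟨a, by linarith⟩, b⟩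
      · rintro ⟨⟨a, _⟩, b⟩; exact ⟨a, b⟩
    rw [this]
    exact (isCompact_closedBall 0 (R / 2)).inter_left hK
  have hcov : ∀ s : ℝ, |s| < R / 16 → ∃ y ∈ K, ‖y‖ ≤ R / 2 ∧ y.re = s := by
    intro s hs
    obtain ⟨y, hyK0, hymin⟩ := hK0c.exists_isMinOn (f := fun z : ℂ => |z.re - s|)
      ⟨0, h0, by simp; positivity⟩ (by fun_prop)
    have hyK : y ∈ K := hyK0.1
    have hyR : ‖y‖ ≤ R / 2 := by simpa using hyK0.2
    refine ⟨y, hyK, hyR, ?_⟩
    by_contra hne
    have hm0 : 0 < |y.re - s| := abs_pos.mpr (sub_ne_zero.mpr hne)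
    have hms : |y.re - s| ≤ |s| := by
      have : |y.re - s| ≤ |(0:ℂ).re - s| := hymin (⟨h0, by simp; positivity⟩ : (0 : ℂ) ∈ K0)
      simp only [Complex.zero_re, zero_sub, abs_neg] at this
      exact this
    have hyre : |y.re| ≤ R / 8 := by
      have : y.re = (y.re - s) + s := by ring
      rw [this]
      refine (abs_add_le _ _).trans ?_
      linarith
    have hyim : |y.im| ≤ R / 72 := by
      have := hcone 0 h0 y hyK (by simp; positivity) hyR
      simp only [sub_zero] at this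
      linarith
    have hyn : ‖y‖ ≤ R / 7 := by
      have := Complex.norm_le_abs_re_add_abs_im y
      linarith
    obtain ⟨k, hk1, hk2⟩ := lf_scale hR hm0 (by linarith)
    have hflk := he y hyK (by linarith) k
    have hrek := hre y hyK hyR k
    have hek := hflk.1
    set a := (e y k).re with ha
    have ha1 : |a| ≤ 1 := by
      have := Complex.abs_re_le_norm (e y k)
      rw [hek] at this; exact this
    -- the step
    obtain ⟨t, ht1, ht2⟩ : ∃ t : ℝ, |t| = |y.re - s| ∧ t * a = (s - y.re) * |a| := by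
      rcases le_or_gt 0 a with h | h
      · exact ⟨s - y.re, abs_sub_comm _ _, by rw [abs_of_nonneg h]⟩
      · exact ⟨y.re - s, rfl, by rw [abs_of_neg h]; ring⟩
    obtain ⟨y', hy', hyd'⟩ := hflk.2.2 t (by rw [ht1]; exact hk2)
    have hsm : δ * q ^ k * (R / 2 ^ k) ≤ 1 / 100 * |y.re - s| := by
      have h4 : δ * q ^ k ≤ 1 / 200 := by
        have := hqk k
        have := hqk0 k
        nlinarith
      rw [hRk k]
      have := hRk0 (k + 1)
      have h5 : δ * q ^ k * (2 * (R / 2 ^ (k + 1))) ≤ 1 / 200 * (2 * |y.re - s|) := by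
        apply mul_le_mul h4 (by linarith) (by positivity) (by norm_num)
      linarith
    have hy'n : ‖y'‖ ≤ R / 2 := by
      have : y' = (y' - (y + (t : ℂ) * e y k)) + y + (t : ℂ) * e y k := by ring
      rw [this]
      refine (norm_add_le _ _).trans ?_
      have := norm_add_le (y' - (y + (t : ℂ) * e y k)) y
      rw [norm_mul, Complex.norm_real, hek, Real.norm_eq_abs, ht1]
      linarith
    have hmin := hymin (⟨hy', by simpa using hy'n⟩ : y' ∈ K0)
    replace hmin : |y.re - s| ≤ |y'.re - s| := hmin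
    have h5 := (Complex.abs_re_le_norm (y' - (y + (t : ℂ) * e y k))).trans hyd'
    have h6 : y'.re - s = (y' - (y + (t : ℂ) * e y k)).re + (y.re - s) * (1 - |a|) := by
      simp only [Complex.sub_re, Complex.add_re, Complex.re_ofReal_mul, ← ha]
      rw [ht2]; ring
    have h7 : |y'.re - s| ≤ δ * q ^ k * (R / 2 ^ k) + |y.re - s| * (1 - |a|) := by
      rw [h6]
      refine (abs_add_le _ _).trans ?_
      rw [abs_mul, abs_of_nonneg (by linarith : 0 ≤ 1 - |a|)]
      linarith
    nlinarith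
  choose! Y hYK hYR hYre using hcov
  have habs : ∀ s : ℝ, s ∈ Ioo (-(R / 16)) (R / 16) → |s| < R / 16 := fun s hs => abs_lt.mpr hs
  have hYlip : ∀ s t : ℝ, |s| < R / 16 → |t| < R / 16 →
      |(Y s).im - (Y t).im| ≤ |s - t| / 9 := by
    intro s t hs ht
    have := hcone (Y t) (hYK t ht) (Y s) (hYK s hs) (hYR t ht) (hYR s hs)
    rw [Complex.sub_im, Complex.sub_re, hYre s hs, hYre t ht] at this
    exact this
  have hY0 : (Y 0).im = 0 := by
    have h00 : |(0:ℝ)| < R / 16 := by simp; positivity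
    have := hcone 0 h0 (Y 0) (hYK 0 h00) (by simp; positivity) (hYR 0 h00)
    rw [sub_zero, hYre 0 h00] at this
    simpa using this
  refine ⟨fun s => (Y s).im, hY0, ?_, ?_, ?_⟩
  · apply lf_camp (C := 4 * δ) (R := R / 2) (q := q) (by positivity) (by positivity) hq0 hq1
    intro t ht k
    have ht' := habs t ht
    have hflk := he (Y t) (hYK t ht') (by linarith [hYR t ht']) k
    have hrek := hre (Y t) (hYK t ht') (hYR t ht') k
    set c := e (Y t) k with hc
    refine ⟨c.im / c.re, ?_⟩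
    intro s hs hst
    have hs' := habs s hs
    have hRR : R / 2 / 2 ^ k = R / 2 ^ (k + 1) := by rw [pow_succ]; field_simp
    rw [hRR] at hst ⊢
    have hre1 : (Y s - Y t).re = s - t := by rw [Complex.sub_re, hYre s hs', hYre t ht']
    have him1 : (Y s - Y t).im = (Y s).im - (Y t).im := Complex.sub_im _ _
    have hlip := hYlip s t hs' ht'
    have hn : ‖Y s - Y t‖ ≤ R / 2 ^ k := by
      have := Complex.norm_le_abs_re_add_abs_im (Y s - Y t)
      rw [hre1, him1] at this
      rw [hRk k]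
      linarith [hRk0 (k + 1)]
    have h1 := hflk.2.1 (Y s) (hYK s hs') hn
    have h2 : ((Y s - Y t) * conj c).im = c.re * ((Y s).im - (Y t).im) - c.im * (s - t) := by
      rw [Complex.mul_im, Complex.conj_re, Complex.conj_im, hre1, him1]; ring
    rw [h2] at h1
    have hc0 : c.re ≠ 0 := by
      intro h; rw [h] at hrek; norm_num at hrek
    have h3 : (Y s).im - (Y t).im - c.im / c.re * (s - t) =
        (c.re * ((Y s).im - (Y t).im) - c.im * (s - t)) / c.re := by field_simp
    rw [h3, abs_div]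
    rw [div_le_iff₀ (abs_pos.mpr hc0)]
    refine h1.trans ?_
    rw [hRk k]
    have hA : 0 ≤ δ * q ^ k * (R / 2 ^ (k + 1)) := by
      have := hRk0 (k + 1); have := hqk0 k; positivity
    nlinarith
  · intro s hs t ht
    have := hYlip s t (habs s hs) (habs t ht)
    have h2 := abs_nonneg (s - t)
    simp only
    linarith
  · intro s t hs ht
    constructor
    · intro hmem
      have hn : ‖((s : ℂ) + t * Complex.I)‖ ≤ R / 2 := by
        have := Complex.norm_le_abs_re_add_abs_im ((s : ℂ) + t * Complex.I)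
        simp at this
        linarith
      have := hcone (Y s) (hYK s hs) _ hmem (hYR s hs) hn
      rw [Complex.sub_re, Complex.sub_im, hYre s hs] at this
      simp at this
      linarith
    · intro h
      have : (s : ℂ) + t * Complex.I = Y s := by
        apply Complex.ext
        · simp [hYre s hs]
        · simp [h]
      rw [this]; exact hYK s hs

/-- **`C¹` graph theorem.**  If `K` is bilaterally flat at all points of `K` near `x₀` and all
dyadic scales `R / 2 ^ k`, with geometrically decaying flatness `δ q ^ k` (`200 δ ≤ 1 - q`), then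
`K` is near `x₀` the graph of a `C¹` function over the line with direction `e`, for every unit
vector `e` such that `K ∩ B_R(x₀)` lies within `R / 200` of this line. -/
theorem lf_graph {K : Set ℂ} {x₀ e : ℂ} {R δ q : ℝ} (hR : 0 < R)
    (hK : IsClosed (K ∩ closedBall x₀ R)) (h0 : x₀ ∈ K) (hq0 : 0 < q) (hq1 : q < 1)
    (hδ0 : 0 ≤ δ) (hδ : 200 * δ ≤ 1 - q) (he : ‖e‖ = 1)
    (he0 : ∀ y ∈ K, ‖y - x₀‖ ≤ R → |((y - x₀) * conj e).im| ≤ R / 200)
    (hflat : ∀ x ∈ K, ‖x - x₀‖ ≤ R → ∀ k : ℕ, FlatAt K x (R / 2 ^ k) (δ * q ^ k)) :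
    ∃ f : ℝ → ℝ, f 0 = 0 ∧ ContDiffOn ℝ 1 f (Ioo (-(R / 16)) (R / 16)) ∧
      (∀ s ∈ Ioo (-(R / 16)) (R / 16), ∀ t ∈ Ioo (-(R / 16)) (R / 16),
        |f s - f t| ≤ |s - t| / 8) ∧
      ∀ s t : ℝ, |s| < R / 16 → |t| < R / 16 →
        (x₀ + ((s : ℂ) + t * Complex.I) * e ∈ K ↔ t = f s) := by
  have hee : e * conj e = 1 := by
    rw [Complex.mul_conj, Complex.normSq_eq_norm_sq, he]; simp
  have hee' : conj e * e = 1 := by rw [mul_comm]; exact hee
  have hce : ‖conj e‖ = 1 := by rw [RCLike.norm_conj, he]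
  set K' : Set ℂ := (fun z => x₀ + z * e) ⁻¹' K with hK'
  have hmemK' : ∀ z, z ∈ K' ↔ x₀ + z * e ∈ K := fun z => Iff.rfl
  have hback : ∀ y : ℂ, x₀ + ((y - x₀) * conj e) * e = y := by
    intro y; rw [mul_assoc, hee']; ring
  have hn1 : ∀ z : ℂ, ‖(x₀ + z * e) - x₀‖ = ‖z‖ := by
    intro z; rw [add_sub_cancel_left, norm_mul, he, mul_one]
  have hclosed : IsClosed (K' ∩ closedBall 0 R) := by
    have : K' ∩ closedBall 0 R = (fun z => x₀ + z * e) ⁻¹' (K ∩ closedBall x₀ R) := by
      ext z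
      simp only [mem_inter_iff, mem_preimage, mem_closedBall, hmemK', dist_eq_norm, hn1, sub_zero]
    rw [this]
    exact hK.preimage (by fun_prop)
  have hfl : ∀ x ∈ K', ‖x‖ ≤ R → ∀ k : ℕ, FlatAt K' x (R / 2 ^ k) (δ * q ^ k) := by
    intro x hx hxR k
    obtain ⟨e', he'1, he'2, he'3⟩ := hflat (x₀ + x * e) hx (by rw [hn1]; exact hxR) k
    refine ⟨e' * conj e, by rw [norm_mul, he'1, hce, mul_one], ?_, ?_⟩
    · intro y hy hyx
      have h1 : (x₀ + y * e) - (x₀ + x * e) = (y - x) * e := by ring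
      have h2 := he'2 (x₀ + y * e) hy (by rw [h1, norm_mul, he, mul_one]; exact hyx)
      rw [h1] at h2
      have : (y - x) * conj (e' * conj e) = (y - x) * e * conj e' := by
        rw [map_mul, Complex.conj_conj]; ring
      rw [this]; exact h2
    · intro t ht
      obtain ⟨y, hy, hyd⟩ := he'3 t ht
      refine ⟨(y - x₀) * conj e, by rw [hmemK', hback]; exact hy, ?_⟩
      have : (y - x₀) * conj e - (x + (t : ℂ) * (e' * conj e)) =
          (y - (x₀ + x * e + (t : ℂ) * e')) * conj e := by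
        have : x = x * e * conj e := by rw [mul_assoc, hee, mul_one]
        linear_combination this * (-1)
      rw [this, norm_mul, hce, mul_one]; exact hyd
  have hone : ∀ y ∈ K', ‖y‖ ≤ R → |y.im| ≤ R / 200 := by
    intro y hy hyR
    have := he0 (x₀ + y * e) hy (by rw [hn1]; exact hyR)
    rw [add_sub_cancel_left, mul_assoc, hee, mul_one] at this
    exact this
  obtain ⟨f, hf0, hf1, hf2, hf3⟩ := graph_core hR hclosed (by rw [hmemK']; simpa using h0)
    hq0 hq1 hδ0 hδ hone hfl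
  exact ⟨f, hf0, hf1, hf2, hf3⟩

end Pool.Agent.MP099f24
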