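import Mathlib
import Pool.Agent.Lib.MP_099f24_an.LF.Graph

/-!
# Polar parametrisation of a nearly radial `C¹` curve
-/

namespace Pool.Agent.MP099f24

open Filter Topology Set Metric
open scoped ComplexConjugate

theorem lf_FlatDir_mono {K : Set ℂ} {x : ℂ} {r r' ε : ℝ} {e : ℂ} (hr' : 0 < r') (hrr : r' ≤ r)
    (h : FlatDir K x r ε e) : FlatDir K x r' (ε * r / r') e := by
  refine ⟨h.1, ?_, ?_⟩
  · intro y hy hyr
    rw [div_mul_cancel₀ _ hr'.ne']
    exact h.2.1 y hy (hyr.trans hrr)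
  · intro t ht
    rw [div_mul_cancel₀ _ hr'.ne']
    exact h.2.2 t (ht.trans hrr)

theorem lf_FlatDir_weaken {K : Set ℂ} {x : ℂ} {r ε ε' : ℝ} {e : ℂ} (hr : 0 ≤ r) (hε : ε ≤ ε')
    (h : FlatDir K x r ε e) : FlatDir K x r ε' e :=
  ⟨h.1, fun y hy hyr => (h.2.1 y hy hyr).trans (mul_le_mul_of_nonneg_right hε hr),
    fun t ht => by
      obtain ⟨y, hy, hyd⟩ := h.2.2 t ht
      exact ⟨y, hy, hyd.trans (mul_le_mul_of_nonneg_right hε hr)⟩⟩

theorem lf_FlatAt_mono {K : Set ℂ} {x : ℂ} {r r' ε ε' : ℝ} (hr' : 0 < r') (hrr : r' ≤ r)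
    (hε : ε * r ≤ ε' * r') (h : FlatAt K x r ε) : FlatAt K x r' ε' := by
  obtain ⟨e, he⟩ := h
  refine ⟨e, lf_FlatDir_weaken hr'.le ?_ (lf_FlatDir_mono hr' hrr he)⟩
  rw [div_le_iff₀ hr']; exact hε

/-- The branch of `K` through `x`, parametrised by the distance from `p`. -/
theorem lf_branch {K : Set ℂ} {p x e : ℂ} {d R δ q : ℝ} (hd : 0 < d) (hR : 0 < R) (hRd : R ≤ d / 2)
    (hxe : x - p = d * e) (he : ‖e‖ = 1)
    (hK : IsClosed (K ∩ closedBall x R)) (hx : x ∈ K) (hq0 : 0 < q) (hq1 : q < 1)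
    (hδ0 : 0 ≤ δ) (hδ : 200 * δ ≤ 1 - q)
    (he0 : ∀ y ∈ K, ‖y - x‖ ≤ R → |((y - x) * conj e).im| ≤ R / 200)
    (hflat : ∀ y ∈ K, ‖y - x‖ ≤ R → ∀ k : ℕ, FlatAt K y (R / 2 ^ k) (δ * q ^ k)) :
    ∃ β : ℝ → ℂ, β d = x ∧ ContDiffAt ℝ 1 β d ∧
      (∀ d' : ℝ, |d' - d| ≤ R / 32 → β d' ∈ K ∧ ‖β d' - p‖ = d' ∧ ‖β d' - x‖ ≤ R / 12) ∧
      ∀ y ∈ K, ‖y - x‖ < R / 32 → y = β ‖y - p‖ := by
  classical
  obtain ⟨f, hf0, hf1, hf2, hf3⟩ := lf_graph hR hK hx hq0 hq1 hδ0 hδ he he0 hflat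
  have hee : e * conj e = 1 := by
    rw [Complex.mul_conj, Complex.normSq_eq_norm_sq, he]; simp
  have hee' : conj e * e = 1 := by rw [mul_comm]; exact hee
  -- the curve
  set z : ℝ → ℂ := fun s => x + ((s : ℂ) + (f s : ℂ) * Complex.I) * e with hz
  have h0mem : (0 : ℝ) ∈ Ioo (-(R / 16)) (R / 16) := ⟨by linarith, by linarith⟩
  have hzK : ∀ s : ℝ, |s| < R / 16 → z s ∈ K := by
    intro s hs
    have hs' : s ∈ Ioo (-(R / 16)) (R / 16) := abs_lt.mp hs
    have h1 := hf2 s hs' 0 h0mem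
    rw [hf0, sub_zero, sub_zero] at h1
    have h2 : |f s| < R / 16 := by
      have := abs_nonneg s
      linarith
    exact (hf3 s (f s) hs h2).mpr rfl
  have hfs : ∀ s : ℝ, |s| < R / 16 → |f s| ≤ |s| / 8 := by
    intro s hs
    have h1 := hf2 s (abs_lt.mp hs) 0 h0mem
    rwa [hf0, sub_zero, sub_zero] at h1
  have hzp : ∀ s : ℝ, z s - p = (((d + s : ℝ) : ℂ) + (f s : ℂ) * Complex.I) * e := by
    intro s
    have : z s - p = (x - p) + ((s : ℂ) + (f s : ℂ) * Complex.I) * e := by rw [hz]; ring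
    rw [this, hxe]; push_cast; ring
  have hnz : ∀ s : ℝ, ‖z s - p‖ ^ 2 = (d + s) ^ 2 + f s ^ 2 := by
    intro s
    rw [hzp, norm_mul, he, mul_one, Complex.sq_norm, Complex.normSq_apply]
    simp
    ring
  set φ : ℝ → ℝ := fun s => (d + s) ^ 2 + f s ^ 2 with hφ
  -- strict monotonicity of `φ`
  have hmono : ∀ s t : ℝ, |s| < R / 16 → |t| < R / 16 → s < t → φ s < φ t := by
    intro s t hs ht hst
    have h1 := hf2 t (abs_lt.mp ht) s (abs_lt.mp hs)
    rw [abs_of_pos (by linarith : 0 < t - s)] at h1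
    have h2 := hfs s hs
    have h3 := hfs t ht
    rw [abs_le] at h1
    have hs' := abs_lt.mp hs
    have ht' := abs_lt.mp ht
    have h4 : |f t + f s| ≤ R / 64 := by
      refine (abs_add_le _ _).trans ?_
      linarith
    have h5 : (f t + f s) * (f t - f s) ≥ -(R / 64 * ((t - s) / 8)) := by
      have h6 : |(f t + f s) * (f t - f s)| ≤ R / 64 * ((t - s) / 8) := by
        rw [abs_mul]
        apply mul_le_mul h4 (abs_le.mpr h1) (abs_nonneg _) (by positivity)
      linarith [(abs_le.mp h6).1]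
    have h7 : (d + t) ^ 2 - (d + s) ^ 2 = (t - s) * (2 * d + s + t) := by ring
    have h8 : d ≤ 2 * d + s + t := by linarith [hs'.1, ht'.1]
    have h9 : (t - s) * d ≤ (t - s) * (2 * d + s + t) :=
      mul_le_mul_of_nonneg_left h8 (by linarith)
    have h10 : (f t) ^ 2 - (f s) ^ 2 = (f t + f s) * (f t - f s) := by ring
    have h11 : R / 64 * ((t - s) / 8) < (t - s) * d := by
      have : R / 64 / 8 < d := by linarith
      have h12 : R / 64 * ((t - s) / 8) = (t - s) * (R / 64 / 8) := by ring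
      rw [h12]
      exact mul_lt_mul_of_pos_left this (by linarith)
    simp only [hφ]
    linarith
  have hinj : ∀ s t : ℝ, |s| < R / 16 → |t| < R / 16 → φ s = φ t → s = t := by
    intro s t hs ht h
    rcases lt_trichotomy s t with h1 | h1 | h1
    · exact absurd h (hmono s t hs ht h1).ne
    · exact h1
    · exact absurd h (hmono t s ht hs h1).ne'
  -- existence of `s`
  have hfc : ContinuousOn f (Ioo (-(R / 16)) (R / 16)) := hf1.continuousOn
  have hex : ∀ d' : ℝ, |d' - d| ≤ R / 32 → ∃ s : ℝ, |s| ≤ R / 20 ∧ φ s = d' ^ 2 := by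
    intro d' hd'
    rw [abs_le] at hd'
    have hcont : ContinuousOn φ (Icc (-(R / 20)) (R / 20)) := by
      have hsub : Icc (-(R / 20)) (R / 20) ⊆ Ioo (-(R / 16)) (R / 16) := by
        intro s hs; exact ⟨by linarith [hs.1], by linarith [hs.2]⟩
      have := hfc.mono hsub
      simp only [hφ]
      fun_prop
    have h1 : φ (-(R / 20)) ≤ d' ^ 2 := by
      have h2 := hfs (-(R / 20)) (by rw [abs_neg, abs_of_pos (by positivity)]; linarith)
      rw [abs_neg, abs_of_pos (by positivity : 0 < R / 20)] at h2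
      have h3 : (f (-(R / 20))) ^ 2 ≤ (R / 20 / 8) ^ 2 := by
        rw [← sq_abs]; exact pow_le_pow_left₀ (abs_nonneg _) h2 2
      simp only [hφ]
      nlinarith [hd'.1]
    have h2 : d' ^ 2 ≤ φ (R / 20) := by
      simp only [hφ]
      have : 0 ≤ f (R / 20) ^ 2 := sq_nonneg _
      nlinarith [hd'.1, hd'.2]
    obtain ⟨s, hs, hsd⟩ := intermediate_value_Icc (by linarith) hcont ⟨h1, h2⟩
    exact ⟨s, abs_le.mpr ⟨hs.1, hs.2⟩, hsd⟩
  choose! S hS1 hS2 using hex
  have hd00 : |d - d| ≤ R / 32 := by simp; positivity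
  have hS0 : S d = 0 := by
    apply hinj _ _ (lt_of_le_of_lt (hS1 d hd00) (by linarith)) (by simp; positivity)
    rw [hS2 d hd00]
    simp only [hφ, hf0]; ring
  refine ⟨fun d' => z (S d'), ?_, ?_, ?_, ?_⟩
  · simp only [hS0, hz, hf0]; simp
  · -- smoothness
    have hmem : Ioo (-(R / 16)) (R / 16) ∈ 𝓝 (0 : ℝ) := Ioo_mem_nhds h0mem.1 h0mem.2
    have hf1' : ContDiffAt ℝ 1 f 0 := hf1.contDiffAt hmem
    have hφ1 : ContDiffAt ℝ 1 φ 0 := by
      simp only [hφ]
      exact ((contDiffAt_const.add contDiffAt_id).pow 2).add (hf1'.pow 2)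
    have hφd : HasDerivAt φ (2 * d) 0 := by
      have h1 : HasDerivAt f (deriv f 0) 0 := (hf1'.differentiableAt (by simp)).hasDerivAt
      have h2 : HasDerivAt (fun s : ℝ => d + s) 1 0 := by
        exact (hasDerivAt_id (0 : ℝ)).const_add d
      have h3 := (h2.mul h2).add (h1.mul h1)
      have h5 : φ = (fun s : ℝ => d + s) * (fun s : ℝ => d + s) + f * f := by
        funext s
        simp only [hφ, Pi.add_apply, Pi.mul_apply]; ring
      rw [h5]
      have h6 : 1 * (d + 0) + (d + 0) * 1 + (deriv f 0 * f 0 + f 0 * deriv f 0) = 2 * d := by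
        rw [hf0]; ring
      rw [← h6]
      exact h3
    have h2d : (2 * d) ≠ 0 := by positivity
    have hφf : HasFDerivAt φ ((ContinuousLinearEquiv.unitsEquivAut ℝ
        (Units.mk0 (2 * d) h2d) : ℝ ≃L[ℝ] ℝ) : ℝ →L[ℝ] ℝ) 0 := by
      have h1 := hφd.hasFDerivAt
      have h2 : ((ContinuousLinearEquiv.unitsEquivAut ℝ
          (Units.mk0 (2 * d) h2d) : ℝ ≃L[ℝ] ℝ) : ℝ →L[ℝ] ℝ) =
          ContinuousLinearMap.toSpanSingleton ℝ (2 * d) := by
        ext
        simp
      rw [h2]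
      exact h1
    set ψ := hφ1.localInverse hφf (by simp) with hψ
    have hψ1 : ContDiffAt ℝ 1 ψ (φ 0) := hφ1.to_localInverse hφf (by simp)
    have hψ0 : ψ (φ 0) = 0 := by
      exact hφ1.localInverse_apply_image hφf (by simp)
    have hright : ∀ᶠ y in 𝓝 (φ 0), φ (ψ y) = y := by
      have hstrict := hφ1.hasStrictFDerivAt' hφf (by simp)
      have := hstrict.eventually_right_inverse
      exact this
    have hφ0 : φ 0 = d ^ 2 := by simp only [hφ, hf0]; ring
    have hsq : Tendsto (fun d' : ℝ => d' ^ 2) (𝓝 d) (𝓝 (φ 0)) := by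
      rw [hφ0]; exact (continuous_pow 2).tendsto d
    have hev1 : ∀ᶠ d' in 𝓝 d, φ (ψ (d' ^ 2)) = d' ^ 2 := hsq.eventually hright
    have hψc : Tendsto (fun d' : ℝ => ψ (d' ^ 2)) (𝓝 d) (𝓝 0) := by
      have := hψ1.continuousAt.tendsto
      rw [hψ0] at this
      exact this.comp hsq
    have hev2 : ∀ᶠ d' in 𝓝 d, |ψ (d' ^ 2)| < R / 16 := by
      have := hψc.eventually (Metric.ball_mem_nhds (0 : ℝ) (by positivity : 0 < R / 16))
      filter_upwards [this] with d' hd'
      have h5 : dist (ψ (d' ^ 2)) 0 < R / 16 := hd'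
      rwa [Real.dist_eq, sub_zero] at h5
    have hev3 : ∀ᶠ d' in 𝓝 d, |d' - d| ≤ R / 32 := by
      have := Metric.closedBall_mem_nhds d (by positivity : 0 < R / 32)
      filter_upwards [this] with d' hd'
      rwa [Metric.mem_closedBall, Real.dist_eq] at hd'
    have hevS : (fun d' => z (S d')) =ᶠ[𝓝 d] fun d' => z (ψ (d' ^ 2)) := by
      filter_upwards [hev1, hev2, hev3] with d' h1 h2 h3
      have : S d' = ψ (d' ^ 2) := by
        apply hinj _ _ (lt_of_le_of_lt (hS1 d' h3) (by linarith)) h2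
        rw [hS2 d' h3, h1]
      rw [this]
    refine ContDiffAt.congr_of_eventuallyEq ?_ hevS
    have hcomp : ContDiffAt ℝ 1 (fun d' : ℝ => ψ (d' ^ 2)) d := by
      have h1 : ContDiffAt ℝ 1 (fun d' : ℝ => d' ^ 2) d := contDiffAt_id.pow 2
      have h2 : ContDiffAt ℝ 1 ψ ((fun d' : ℝ => d' ^ 2) d) := by
        simp only; rw [← hφ0]; exact hψ1
      exact ContDiffAt.comp d h2 h1
    have hfcomp : ContDiffAt ℝ 1 (fun d' : ℝ => f (ψ (d' ^ 2))) d := by
      have h2 : ContDiffAt ℝ 1 f ((fun d' : ℝ => ψ (d' ^ 2)) d) := by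
        simp only; rw [← hφ0, hψ0]; exact hf1'
      exact ContDiffAt.comp d h2 hcomp
    simp only [hz]
    have hof : ∀ {g : ℝ → ℝ}, ContDiffAt ℝ 1 g d → ContDiffAt ℝ 1 (fun s => ((g s : ℝ) : ℂ)) d := by
      intro g hg
      exact (Complex.ofRealCLM.contDiff.contDiffAt).comp d hg
    exact contDiffAt_const.add (((hof hcomp).add ((hof hfcomp).mul contDiffAt_const)).mul
      contDiffAt_const)
  · intro d' hd'
    have hs := hS1 d' hd'
    have hs' : |S d'| < R / 16 := lt_of_le_of_lt hs (by linarith)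
    have hd'0 : 0 ≤ d' := by rw [abs_le] at hd'; linarith [hd'.1]
    refine ⟨hzK _ hs', ?_, ?_⟩
    · have h1 := hnz (S d')
      have h2 := hS2 d' hd'
      simp only [hφ] at h2
      rw [h2] at h1
      exact (pow_left_inj₀ (norm_nonneg _) hd'0 (by norm_num)).mp h1
    · have h1 : z (S d') - x = ((S d' : ℂ) + (f (S d') : ℂ) * Complex.I) * e := by rw [hz]; ring
      rw [h1, norm_mul, he, mul_one]
      have h2 := Complex.norm_le_abs_re_add_abs_im ((S d' : ℂ) + (f (S d') : ℂ) * Complex.I)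
      simp only [Complex.add_re, Complex.ofReal_re, Complex.mul_re, Complex.I_re, mul_zero,
        Complex.ofReal_im, Complex.I_im, mul_one, sub_self, add_zero, Complex.add_im,
        Complex.mul_im, zero_add] at h2
      have h3 := hfs _ hs'
      linarith
  · intro y hy hyx
    set w := (y - x) * conj e with hw
    have hwn : ‖w‖ = ‖y - x‖ := by rw [hw, norm_mul, RCLike.norm_conj, he, mul_one]
    have hwre : |w.re| < R / 32 := by
      have := Complex.abs_re_le_norm w; rw [hwn] at this; linarith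
    have hwim : |w.im| < R / 32 := by
      have := Complex.abs_im_le_norm w; rw [hwn] at this; linarith
    have hyw : x + ((w.re : ℂ) + (w.im : ℂ) * Complex.I) * e = y := by
      rw [Complex.re_add_im, hw, mul_assoc, hee', mul_one]; ring
    have h1 : w.im = f w.re := by
      apply (hf3 w.re w.im (by linarith) (by linarith)).mp
      rw [hyw]; exact hy
    have hyz : y = z w.re := by
      rw [hz]; simp only; rw [← h1, hyw]
    have hdy : |‖y - p‖ - d| ≤ R / 32 := by
      have h2 : ‖x - p‖ = d := by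
        rw [hxe, norm_mul, he, mul_one, Complex.norm_real, Real.norm_eq_abs, abs_of_pos hd]
      rw [← h2]
      refine (abs_norm_sub_norm_le _ _).trans ?_
      have : y - p - (x - p) = y - x := by ring
      rw [this]; exact hyx.le
    have h2 : w.re = S ‖y - p‖ := by
      apply hinj _ _ (by linarith) (lt_of_le_of_lt (hS1 _ hdy) (by linarith))
      rw [hS2 _ hdy]
      have h6 := hnz w.re
      rw [← hyz] at h6
      rw [h6]
    simp only
    rw [← h2]; exact hyz

end Pool.Agent.MP099f24
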