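import Mathlib
import Pool.Agent.Lib.MP_099f24_an.LF.Branch

/-!
# One arm: a flat set close to a half line at all scales is an arc, parametrised by the distance
from the endpoint
-/

namespace Pool.Agent.MP099f24

open Filter Topology Set Metric
open scoped ComplexConjugate

/-- points of `K` are near the point of the half line at the same distance -/
theorem lf_ray_near {K : Set ℂ} {p e x : ℂ} {r ε : ℝ} (h : RayDir K p r ε e) (hx : x ∈ K)
    (hxr : ‖x - p‖ ≤ r) : ‖x - (p + (‖x - p‖ : ℝ) * e)‖ ≤ 2 * (ε * r) := by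
  obtain ⟨t, ht, hxt⟩ := h.2.1 x hx hxr
  have h1 : |‖x - p‖ - t| ≤ ε * r := by
    have h2 : ‖(t : ℂ) * e‖ = t := by
      rw [norm_mul, h.1, mul_one, Complex.norm_real, Real.norm_eq_abs, abs_of_nonneg ht]
    have h3 := abs_norm_sub_norm_le (x - p) ((t : ℂ) * e)
    rw [h2] at h3
    refine h3.trans ?_
    have : x - p - (t : ℂ) * e = x - (p + (t : ℂ) * e) := by ring
    rw [this]; exact hxt
  have h2 : x - (p + (‖x - p‖ : ℝ) * e) = (x - (p + (t : ℂ) * e)) - ((‖x - p‖ - t : ℝ) : ℂ) * e := by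
    push_cast; ring
  rw [h2]
  refine (norm_sub_le _ _).trans ?_
  rw [norm_mul, h.1, mul_one, Complex.norm_real, Real.norm_eq_abs]
  linarith

/-- the local branch at a point of an arm -/
private theorem arm_local {K : Set ℂ} {p : ℂ} {r₀ c ε δ q : ℝ} (hc : 0 < c)
    (hc1 : c ≤ 1) (hq0 : 0 < q) (hq1 : q < 1) (hδ0 : 0 ≤ δ) (hδ : 600 * δ ≤ 1 - q) (hε0 : 0 ≤ ε)
    (hε : 4000 * ε ≤ c) (hK : IsClosed (K ∩ closedBall p r₀))
    (H1 : ∀ r : ℝ, 0 < r → r ≤ r₀ → ∃ e, RayDir K p r ε e)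
    (H2 : ∀ x ∈ K, x ≠ p → ‖x - p‖ ≤ r₀ → ∀ k : ℕ, FlatAt K x (c * ‖x - p‖ / 2 ^ k) (δ * q ^ k))
    {x : ℂ} (hx : x ∈ K) {d : ℝ} (hxd : ‖x - p‖ = d) (hd : 0 < d) (hdr : 5 * d ≤ 3 * r₀) :
    ∃ β : ℝ → ℂ, β d = x ∧ ContDiffAt ℝ 1 β d ∧
      (∀ d' : ℝ, |d' - d| ≤ c * d / 64 → β d' ∈ K ∧ ‖β d' - p‖ = d') := by
  have hd0 : (d : ℂ) ≠ 0 := by exact_mod_cast hd.ne'
  set ex : ℂ := (x - p) / d with hex
  have hexn : ‖ex‖ = 1 := by
    rw [hex, norm_div, hxd, Complex.norm_real, Real.norm_eq_abs, abs_of_pos hd, div_self hd.ne']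
  have hxe : x - p = d * ex := by rw [hex]; field_simp
  set R : ℝ := c * d / 2 with hR
  have hR0 : 0 < R := by positivity
  have hRd : R ≤ d / 2 := by rw [hR]; nlinarith
  have hyd : ∀ y : ℂ, ‖y - x‖ ≤ R → d / 2 ≤ ‖y - p‖ ∧ ‖y - p‖ ≤ 3 / 2 * d := by
    intro y hy
    have h1 : y - p = (y - x) + (x - p) := by ring
    have h2 : x - p = (y - p) - (y - x) := by ring
    constructor
    · have := norm_sub_le (y - p) (y - x)
      rw [← h2, hxd] at this
      linarith
    · rw [h1]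
      refine (norm_add_le _ _).trans ?_
      rw [hxd]; linarith
  have hclosed : IsClosed (K ∩ closedBall x R) := by
    have : K ∩ closedBall x R = (K ∩ closedBall p r₀) ∩ closedBall x R := by
      ext y
      simp only [mem_inter_iff, mem_closedBall, dist_eq_norm]
      constructor
      · rintro ⟨a, b⟩
        exact ⟨⟨a, by linarith [(hyd y b).2]⟩, b⟩
      · rintro ⟨⟨a, _⟩, b⟩; exact ⟨a, b⟩
    rw [this]
    exact hK.inter isClosed_closedBall
  -- strip condition
  obtain ⟨e, he⟩ := H1 (5 / 3 * d) (by positivity) (by linarith)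
  have hxnear := lf_ray_near he hx (by rw [hxd]; linarith)
  rw [hxd] at hxnear
  have hexe : ‖ex - e‖ ≤ 10 / 3 * ε := by
    have h1 : ex - e = (x - (p + (d : ℝ) * e)) / d := by
      rw [hex]; field_simp; ring
    rw [h1, norm_div, Complex.norm_real, Real.norm_eq_abs, abs_of_pos hd, div_le_iff₀ hd]
    linarith
  have hstrip : ∀ y ∈ K, ‖y - x‖ ≤ R → |((y - x) * conj ex).im| ≤ R / 200 := by
    intro y hy hyx
    have hyp := hyd y hyx
    obtain ⟨ty, hty, hty2⟩ := he.2.1 y hy (by linarith [hyp.2])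
    have h1 : ((y - x) * conj ex).im =
        (((y - (p + (ty : ℂ) * e)) - (x - (p + (d : ℝ) * e))) * conj e).im +
        ((y - x) * conj (ex - e)).im := by
      have h2 : (y - x) * conj ex = (y - x) * conj e + (y - x) * conj (ex - e) := by
        rw [map_sub]; ring
      have h3 : (y - x) * conj e = ((y - (p + (ty : ℂ) * e)) - (x - (p + (d : ℝ) * e))) * conj e +
          ((ty - d : ℝ) : ℂ) * (e * conj e) := by push_cast; ring
      have h4 : (((ty - d : ℝ) : ℂ) * (e * conj e)).im = 0 := by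
        rw [Complex.mul_conj, ← Complex.ofReal_mul, Complex.ofReal_im]
      rw [h2, h3, Complex.add_im, Complex.add_im, h4, add_zero]
    rw [h1]
    refine (abs_add_le _ _).trans ?_
    have h5 : |(((y - (p + (ty : ℂ) * e)) - (x - (p + (d : ℝ) * e))) * conj e).im| ≤
        ε * (5 / 3 * d) + 2 * (ε * (5 / 3 * d)) := by
      refine (Complex.abs_im_le_norm _).trans ?_
      rw [norm_mul, RCLike.norm_conj, he.1, mul_one]
      refine (norm_sub_le _ _).trans ?_
      linarith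
    have h6 : |((y - x) * conj (ex - e)).im| ≤ R * (10 / 3 * ε) := by
      refine (Complex.abs_im_le_norm _).trans ?_
      rw [norm_mul, RCLike.norm_conj]
      exact mul_le_mul hyx hexe (norm_nonneg _) hR0.le
    have h7 : ε * d ≤ c * d / 4000 := by
      have : ε ≤ c / 4000 := by linarith
      have := mul_le_mul_of_nonneg_right this hd.le
      linarith
    have h8 : R * (10 / 3 * ε) ≤ (5 / 3) * (ε * d) := by nlinarith
    rw [hR]
    linarith
  -- flatness
  have hflat : ∀ y ∈ K, ‖y - x‖ ≤ R → ∀ k : ℕ, FlatAt K y (R / 2 ^ k) ((3 * δ) * q ^ k) := by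
    intro y hy hyx k
    have hyp := hyd y hyx
    have hyne : y ≠ p := by
      intro h
      rw [h, sub_self, norm_zero] at hyp
      linarith [hyp.1]
    have h2k : (0 : ℝ) < 2 ^ k := by positivity
    refine lf_FlatAt_mono (by positivity) ?_ ?_ (H2 y hy hyne (by linarith [hyp.2]) k)
    · apply div_le_div_of_nonneg_right _ h2k.le
      rw [hR]; nlinarith [hyp.1]
    · have h1 : c * ‖y - p‖ ≤ 3 * R := by rw [hR]; nlinarith [hyp.2]
      have h2 : δ * q ^ k * (c * ‖y - p‖ / 2 ^ k) ≤ δ * q ^ k * (3 * R / 2 ^ k) := by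
        apply mul_le_mul_of_nonneg_left
        · exact div_le_div_of_nonneg_right h1 h2k.le
        · have : 0 < q ^ k := by positivity
          positivity
      refine h2.trans (le_of_eq ?_)
      ring
  obtain ⟨β, hβ1, hβ2, hβ3, _⟩ := lf_branch hd hR0 hRd hxe hexn hclosed hx hq0 hq1
    (by positivity : 0 ≤ 3 * δ) (by linarith) hstrip hflat
  refine ⟨β, hβ1, hβ2, ?_⟩
  intro d' hd'
  have := hβ3 d' (by rw [hR]; linarith)
  exact ⟨this.1, this.2.1⟩

/-- uniqueness on circles -/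
private theorem arm_unique {K : Set ℂ} {p : ℂ} {r₀ c ε δ q : ℝ} (hc : 0 < c)
    (hc1 : c ≤ 1) (hq0 : 0 < q) (hq1 : q < 1) (hδ0 : 0 ≤ δ) (hδ : 600 * δ ≤ 1 - q) (hε0 : 0 ≤ ε)
    (hε : 4000 * ε ≤ c)
    (H1 : ∀ r : ℝ, 0 < r → r ≤ r₀ → ∃ e, RayDir K p r ε e)
    (H2 : ∀ x ∈ K, x ≠ p → ‖x - p‖ ≤ r₀ → ∀ k : ℕ, FlatAt K x (c * ‖x - p‖ / 2 ^ k) (δ * q ^ k))
    {x x' : ℂ} (hx : x ∈ K) (hx' : x' ∈ K) {d : ℝ} (hxd : ‖x - p‖ = d) (hx'd : ‖x' - p‖ = d)
    (hd : 0 < d) (hdr : 5 * d ≤ 3 * r₀) : x = x' := by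
  by_contra hne
  obtain ⟨e, he⟩ := H1 (5 / 3 * d) (by positivity) (by linarith)
  have hn1 := lf_ray_near he hx (by rw [hxd]; linarith)
  have hn2 := lf_ray_near he hx' (by rw [hx'd]; linarith)
  rw [hxd] at hn1
  rw [hx'd] at hn2
  have hdist : ‖x' - x‖ ≤ 4 * (ε * (5 / 3 * d)) := by
    have : x' - x = (x' - (p + (d : ℝ) * e)) - (x - (p + (d : ℝ) * e)) := by ring
    rw [this]
    refine (norm_sub_le _ _).trans ?_
    linarith
  have hpos : 0 < ‖x' - x‖ := norm_pos_iff.mpr (sub_ne_zero.mpr (Ne.symm hne))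
  have hεd : ε * d ≤ c * d / 4000 := by
    have : ε ≤ c / 4000 := by linarith
    have := mul_le_mul_of_nonneg_right this hd.le
    linarith
  have hle : ‖x' - x‖ ≤ c * d := by nlinarith
  have hcd : 0 < c * d := by positivity
  -- direction of `x - p`
  have hexe : ‖(x - p) / d - e‖ ≤ 10 / 3 * ε := by
    have hd0 : (d : ℂ) ≠ 0 := by exact_mod_cast hd.ne'
    have h1 : (x - p) / d - e = (x - (p + (d : ℝ) * e)) / d := by
      field_simp; ring
    rw [h1, norm_div, Complex.norm_real, Real.norm_eq_abs, abs_of_pos hd, div_le_iff₀ hd]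
    linarith
  -- all directions at `x` are close to `e`
  have hxne : x ≠ p := by
    intro h; rw [h, sub_self, norm_zero] at hxd; linarith
  have hfl := H2 x hx hxne (by rw [hxd]; linarith)
  rw [hxd] at hfl
  choose D hD using hfl
  have h2k : ∀ k : ℕ, (0 : ℝ) < c * d / 2 ^ k := fun k => by positivity
  have hhalf : ∀ k : ℕ, c * d / 2 ^ k = 2 * (c * d / 2 ^ (k + 1)) := fun k => by
    rw [pow_succ]; field_simp
  have hqk : ∀ k : ℕ, q ^ k ≤ 1 := fun k => pow_le_one₀ hq0.le hq1.le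
  have hqk0 : ∀ k : ℕ, 0 < q ^ k := fun k => by positivity
  have hδ1 : δ ≤ 1 / 600 := by linarith
  -- scale 0
  have hD0 : |(D 0 * conj e).im| ≤ 1 / 50 := by
    have h1 := hD 0
    simp only [pow_zero, div_one, mul_one] at h1
    obtain ⟨y, hy, hyd⟩ := h1.2.2 (c * d / 2) (by rw [abs_of_pos (by positivity)]; linarith)
    have hyx : ‖y - x‖ ≤ c * d * (1 / 2 + 1 / 600) := by
      have : y - x = (y - (x + ((c * d / 2 : ℝ) : ℂ) * D 0)) + ((c * d / 2 : ℝ) : ℂ) * D 0 := by
        ring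
      rw [this]
      refine (norm_add_le _ _).trans ?_
      rw [norm_mul, Complex.norm_real, h1.1, Real.norm_eq_abs,
        abs_of_pos (by positivity : 0 < c * d / 2)]
      nlinarith
    have hcd1 : c * d ≤ d := by nlinarith
    have hyp : ‖y - p‖ ≤ 5 / 3 * d := by
      have : y - p = (y - x) + (x - p) := by ring
      rw [this]
      refine (norm_add_le _ _).trans ?_
      rw [hxd]; nlinarith
    obtain ⟨ty, hty, hty2⟩ := he.2.1 y hy hyp
    have h3 : (((c * d / 2 : ℝ) : ℂ) * (D 0 * conj e)).im =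
        (((y - (p + (ty : ℂ) * e)) - (x - (p + (d : ℝ) * e))) * conj e).im -
        ((y - (x + ((c * d / 2 : ℝ) : ℂ) * D 0)) * conj e).im := by
      have h4 : ((c * d / 2 : ℝ) : ℂ) * (D 0 * conj e) =
          ((y - (p + (ty : ℂ) * e)) - (x - (p + (d : ℝ) * e))) * conj e -
          (y - (x + ((c * d / 2 : ℝ) : ℂ) * D 0)) * conj e +
          ((ty - d : ℝ) : ℂ) * (e * conj e) := by push_cast; ring
      have h5 : (((ty - d : ℝ) : ℂ) * (e * conj e)).im = 0 := by
        rw [Complex.mul_conj, ← Complex.ofReal_mul, Complex.ofReal_im]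
      rw [h4, Complex.add_im, h5, add_zero, Complex.sub_im]
    rw [Complex.im_ofReal_mul] at h3
    have h6 : |c * d / 2 * (D 0 * conj e).im| ≤ 3 * (ε * (5 / 3 * d)) + δ * (c * d) := by
      rw [h3]
      refine (abs_sub _ _).trans ?_
      have h7 : |(((y - (p + (ty : ℂ) * e)) - (x - (p + (d : ℝ) * e))) * conj e).im| ≤
          3 * (ε * (5 / 3 * d)) := by
        refine (Complex.abs_im_le_norm _).trans ?_
        rw [norm_mul, RCLike.norm_conj, he.1, mul_one]
        refine (norm_sub_le _ _).trans ?_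
        linarith
      have h8 : |((y - (x + ((c * d / 2 : ℝ) : ℂ) * D 0)) * conj e).im| ≤ δ * (c * d) := by
        refine (Complex.abs_im_le_norm _).trans ?_
        rw [norm_mul, RCLike.norm_conj, he.1, mul_one]
        exact hyd
      linarith
    rw [abs_mul, abs_of_pos (by positivity : 0 < c * d / 2)] at h6
    have h9 : |(D 0 * conj e).im| * (c * d / 2) ≤ 1 / 50 * (c * d / 2) := by nlinarith
    exact le_of_mul_le_mul_right h9 (by positivity)
  -- consecutive scales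
  have hcons : ∀ k : ℕ, |(D (k + 1) * conj (D k)).im| ≤ 6 * δ * q ^ k := by
    intro k
    have h1 := hD k
    have h2 := hD (k + 1)
    have h3 := lf_compare (h2k (k + 1)) (by rw [hhalf k]; linarith [h2k (k + 1)]) (ε := δ * q ^ k)
      (ε' := δ * q ^ (k + 1)) (by nlinarith [hqk (k + 1), hqk0 (k + 1)]) h1.2.1 h1.1 h2
    have hq2 : q ^ (k + 1) ≤ q ^ k := pow_le_pow_of_le_one hq0.le hq1.le (Nat.le_succ k)
    have h4 : |(D (k + 1) * conj (D k)).im| * (c * d / 2 ^ (k + 1)) ≤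
        (6 * δ * q ^ k) * (c * d / 2 ^ (k + 1)) := by
      refine h3.trans ?_
      rw [hhalf k]
      have : δ * q ^ (k + 1) * (c * d / 2 ^ (k + 1)) ≤ δ * q ^ k * (c * d / 2 ^ (k + 1)) := by
        have := h2k (k + 1)
        gcongr
      nlinarith
    exact le_of_mul_le_mul_right h4 (h2k (k + 1))
  have him_mul : ∀ a b : ℂ, ‖a‖ = 1 → ‖b‖ = 1 → |(a * b).im| ≤ |a.im| + |b.im| := by
    intro a b ha hb
    rw [Complex.mul_im]
    refine (abs_add_le _ _).trans ?_
    rw [abs_mul, abs_mul]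
    have h1 := Complex.abs_re_le_norm a
    have h2 := Complex.abs_re_le_norm b
    rw [ha] at h1
    rw [hb] at h2
    nlinarith [abs_nonneg a.im, abs_nonneg b.im]
  have hdir' : ∀ k : ℕ, |(D k * conj e).im| * (1 - q) ≤
      1 / 50 * (1 - q) + 6 * δ * (1 - q ^ k) := by
    intro k
    induction k with
    | zero => simp only [pow_zero, sub_self, mul_zero, add_zero]
              exact mul_le_mul_of_nonneg_right hD0 (by linarith)
    | succ k ih =>
      have h1 := hcons k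
      have h2 : D (k + 1) * conj e = (D (k + 1) * conj (D k)) * (D k * conj e) := by
        have : D (k + 1) * conj (D k) * (D k * conj e) =
            D (k + 1) * (D k * conj (D k)) * conj e := by ring
        rw [this, Complex.mul_conj, Complex.normSq_eq_norm_sq, (hD k).1]; simp
      have h3 : |(D (k + 1) * conj e).im| ≤ |(D k * conj e).im| + 6 * δ * q ^ k := by
        rw [h2]
        refine (him_mul _ _ ?_ ?_).trans (by linarith)
        · rw [norm_mul, RCLike.norm_conj, (hD k).1, (hD (k + 1)).1, mul_one]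
        · rw [norm_mul, RCLike.norm_conj, (hD k).1, he.1, mul_one]
      rw [pow_succ]
      nlinarith
  have hdir : ∀ k : ℕ, |(D k * conj e).im| ≤ 3 / 100 := by
    intro k
    have h1 := hdir' k
    have h2 : 6 * δ * (1 - q ^ k) ≤ 1 / 100 * (1 - q) := by
      have := hqk0 k
      nlinarith
    have h3 : |(D k * conj e).im| * (1 - q) ≤ 3 / 100 * (1 - q) := by linarith
    exact le_of_mul_le_mul_right h3 (by linarith)
  -- the cone condition forces a radial direction, the circle a tangential one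
  obtain ⟨k, hk1, hk2⟩ := lf_scale hcd hpos hle
  have h1 := (hD k).2.1 x' hx' hk2
  have h2 : |((x' - x) * conj e).im| ≤ 1 / 20 * ‖x' - x‖ := by
    have h3 : (x' - x) * conj e = ((x' - x) * conj (D k)) * (D k * conj e) := by
      have : (x' - x) * conj (D k) * (D k * conj e) =
          (x' - x) * (D k * conj (D k)) * conj e := by ring
      rw [this, Complex.mul_conj, Complex.normSq_eq_norm_sq, (hD k).1]; simp
    have h4 : δ * q ^ k * (c * d / 2 ^ k) ≤ 1 / 300 * ‖x' - x‖ := by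
      have h5 : δ * q ^ k ≤ 1 / 600 := by nlinarith [hqk k, hqk0 k]
      rw [hhalf k]
      have h6 : δ * q ^ k * (2 * (c * d / 2 ^ (k + 1))) ≤ 1 / 600 * (2 * ‖x' - x‖) := by
        apply mul_le_mul h5 (by linarith) (by have := h2k (k + 1); positivity) (by norm_num)
      linarith
    rw [h3, Complex.mul_im]
    refine (abs_add_le _ _).trans ?_
    rw [abs_mul, abs_mul]
    have h7 : |((x' - x) * conj (D k)).re| ≤ ‖x' - x‖ := by
      refine (Complex.abs_re_le_norm _).trans ?_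
      rw [norm_mul, RCLike.norm_conj, (hD k).1, mul_one]
    have h8 : |(D k * conj e).re| ≤ 1 := by
      refine (Complex.abs_re_le_norm _).trans ?_
      rw [norm_mul, RCLike.norm_conj, (hD k).1, he.1, mul_one]
    have h9 := hdir k
    have h10 : |((x' - x) * conj (D k)).re| * |(D k * conj e).im| ≤ ‖x' - x‖ * (3 / 100) :=
      mul_le_mul h7 h9 (abs_nonneg _) (norm_nonneg _)
    have h11 : |((x' - x) * conj (D k)).im| * |(D k * conj e).re| ≤ (1 / 300 * ‖x' - x‖) * 1 :=
      mul_le_mul (h1.trans h4) h8 (abs_nonneg _) (by positivity)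
    linarith
  -- but `x' - x` is almost orthogonal to `e`
  have h3 : ((x' - x) * conj (x - p)).re = -(‖x' - x‖ ^ 2) / 2 := by
    have h4 : ‖x' - p‖ ^ 2 = ‖x - p‖ ^ 2 + 2 * ((x' - x) * conj (x - p)).re + ‖x' - x‖ ^ 2 := by
      have h5 : x' - p = (x - p) + (x' - x) := by ring
      rw [h5, Complex.sq_norm, Complex.normSq_add, ← Complex.sq_norm, ← Complex.sq_norm]
      have h6 : ((x - p) * conj (x' - x)).re = ((x' - x) * conj (x - p)).re := by
        simp [Complex.mul_re]; ring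
      rw [h6]; ring
    rw [hxd, hx'd] at h4
    linarith
  have h4 : |((x' - x) * conj e).re| ≤ 1 / 20 * ‖x' - x‖ := by
    have h5 : (x' - x) * conj e = ((1 / d : ℝ) : ℂ) * ((x' - x) * conj (x - p)) -
        (x' - x) * conj ((x - p) / d - e) := by
      have hd0 : (d : ℂ) ≠ 0 := by exact_mod_cast hd.ne'
      simp only [map_sub, map_div₀, Complex.conj_ofReal]
      push_cast
      field_simp
      ring
    rw [h5, Complex.sub_re, Complex.re_ofReal_mul, h3]
    refine (abs_sub _ _).trans ?_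
    have h6 : |((x' - x) * conj ((x - p) / d - e)).re| ≤ ‖x' - x‖ * (10 / 3 * ε) := by
      refine (Complex.abs_re_le_norm _).trans ?_
      rw [norm_mul, RCLike.norm_conj]
      exact mul_le_mul_of_nonneg_left hexe (norm_nonneg _)
    have h7 : |1 / d * (-(‖x' - x‖ ^ 2) / 2)| = ‖x' - x‖ * (‖x' - x‖ / (2 * d)) := by
      rw [abs_mul, abs_div, abs_div, abs_neg, abs_of_pos hd, abs_of_nonneg (sq_nonneg ‖x' - x‖)]
      simp only [abs_one, Nat.abs_ofNat]
      field_simp
    rw [h7]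
    have h8 : ‖x' - x‖ / (2 * d) ≤ 1 / 100 := by
      rw [div_le_iff₀ (by positivity)]
      nlinarith
    have h9 : ‖x' - x‖ * (‖x' - x‖ / (2 * d)) ≤ ‖x' - x‖ * (1 / 100) :=
      mul_le_mul_of_nonneg_left h8 (norm_nonneg _)
    have h10 : ‖x' - x‖ * (10 / 3 * ε) ≤ ‖x' - x‖ * (1 / 1000) := by
      apply mul_le_mul_of_nonneg_left _ (norm_nonneg _)
      linarith
    nlinarith
  have h5 : ‖x' - x‖ ≤ |((x' - x) * conj e).re| + |((x' - x) * conj e).im| := by
    have := Complex.norm_le_abs_re_add_abs_im ((x' - x) * conj e)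
    rwa [norm_mul, RCLike.norm_conj, he.1, mul_one] at this
  linarith

/-- **One arm.**  `K` is `ε r`-close to a half line issuing from `p` in every ball `B_r(p)`, and
bilaterally flat, with geometric decay, at every other point `x` at the scales
`c |x - p| / 2 ^ k`.  Then `K` is near `p` an arc ending at `p`, parametrised by the distance
from `p`, and `C¹` off `p`. -/
theorem lf_arm {K : Set ℂ} {p : ℂ} {r₀ c ε δ q : ℝ} (hr₀ : 0 < r₀) (hc : 0 < c)
    (hc1 : c ≤ 1) (hq0 : 0 < q) (hq1 : q < 1) (hδ0 : 0 ≤ δ) (hδ : 600 * δ ≤ 1 - q) (hε0 : 0 ≤ ε)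
    (hε : 4000 * ε ≤ c) (hK : IsClosed (K ∩ closedBall p r₀)) (hp : p ∈ K)
    (H1 : ∀ r : ℝ, 0 < r → r ≤ r₀ → ∃ e, RayDir K p r ε e)
    (H2 : ∀ x ∈ K, x ≠ p → ‖x - p‖ ≤ r₀ → ∀ k : ℕ, FlatAt K x (c * ‖x - p‖ / 2 ^ k) (δ * q ^ k)) :
    ∃ γ : ℝ → ℂ, γ 0 = p ∧ (∀ d : ℝ, 0 ≤ d → d ≤ r₀ / 2 → γ d ∈ K ∧ ‖γ d - p‖ = d) ∧
      (∀ x ∈ K, ‖x - p‖ ≤ r₀ / 2 → x = γ ‖x - p‖) ∧
      ∀ d : ℝ, 0 < d → d ≤ r₀ / 2 → ContDiffAt ℝ 1 γ d := by
  classical
  -- existence
  have hex : ∀ d : ℝ, 0 ≤ d → d ≤ 11 / 20 * r₀ → ∃ x ∈ K, ‖x - p‖ = d := by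
    intro d hd0 hdr
    rcases hd0.eq_or_lt with h0 | hd
    · exact ⟨p, hp, by rw [sub_self, norm_zero, h0]⟩
    obtain ⟨e, he⟩ := H1 (5 / 3 * d) (by positivity) (by linarith)
    obtain ⟨y, hy, hyd⟩ := he.2.2 d hd.le (by linarith)
    have hεd : ε * d ≤ c * d / 4000 := by
      have : ε ≤ c / 4000 := by linarith
      have := mul_le_mul_of_nonneg_right this hd.le
      linarith
    have hyn : |‖y - p‖ - d| ≤ 5 / 3 * (ε * d) := by
      have h2 : ‖(d : ℂ) * e‖ = d := by
        rw [norm_mul, he.1, mul_one, Complex.norm_real, Real.norm_eq_abs, abs_of_pos hd]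
      have h3 := abs_norm_sub_norm_le (y - p) ((d : ℂ) * e)
      rw [h2] at h3
      refine h3.trans ?_
      have : y - p - (d : ℂ) * e = y - (p + (d : ℂ) * e) := by ring
      rw [this]; linarith
    have hcd : c * d ≤ d := by nlinarith
    rw [abs_le] at hyn
    have hy1 : 0 < ‖y - p‖ := by nlinarith [hyn.1]
    have hy2 : 9 / 10 * d ≤ ‖y - p‖ := by nlinarith [hyn.1]
    obtain ⟨β, hβ1, hβ2, hβ3⟩ := arm_local hc hc1 hq0 hq1 hδ0 hδ hε0 hε hK H1 H2 hy rfl hy1
      (by nlinarith [hyn.2])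
    have h5 := hβ3 d (by
      rw [abs_sub_comm, abs_le]
      have : c * (9 / 10 * d) ≤ c * ‖y - p‖ := mul_le_mul_of_nonneg_left hy2 hc.le
      constructor <;> nlinarith [hyn.1, hyn.2])
    exact ⟨β d, h5.1, h5.2⟩
  choose! G hG1 hG2 using hex
  have hG0 : G 0 = p := by
    have := hG2 0 le_rfl (by positivity)
    rwa [norm_eq_zero, sub_eq_zero] at this
  have huniq : ∀ x ∈ K, ‖x - p‖ ≤ 11 / 20 * r₀ → x = G ‖x - p‖ := by
    intro x hx hxr
    rcases (norm_nonneg (x - p)).eq_or_lt with h0 | hpos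
    · rw [← h0, hG0]
      have := h0.symm
      rwa [norm_eq_zero, sub_eq_zero] at this
    · exact arm_unique hc hc1 hq0 hq1 hδ0 hδ hε0 hε H1 H2 hx (hG1 _ (norm_nonneg _) hxr) rfl
        (hG2 _ (norm_nonneg _) hxr) hpos (by linarith)
  refine ⟨G, hG0, fun d h0 h1 => ⟨hG1 d h0 (by linarith), hG2 d h0 (by linarith)⟩,
    fun x hx hxr => huniq x hx (by linarith), ?_⟩
  intro d hd hdr
  obtain ⟨β, hβ1, hβ2, hβ3⟩ := arm_local hc hc1 hq0 hq1 hδ0 hδ hε0 hε hK H1 H2
    (hG1 d hd.le (by linarith)) (hG2 d hd.le (by linarith)) hd (by linarith)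
  refine hβ2.congr_of_eventuallyEq ?_
  have h1 : ∀ᶠ d' in 𝓝 d, |d' - d| ≤ c * d / 64 := by
    have := Metric.closedBall_mem_nhds d (by positivity : 0 < c * d / 64)
    filter_upwards [this] with d' hd'
    rwa [Metric.mem_closedBall, Real.dist_eq] at hd'
  have h2 : ∀ᶠ d' in 𝓝 d, d' ≤ 11 / 20 * r₀ := by
    filter_upwards [Iio_mem_nhds (by linarith : d < 11 / 20 * r₀)] with d' hd'
    exact le_of_lt hd'
  filter_upwards [h1, h2] with d' h3 h4
  have h5 := hβ3 d' h3
  have h6 := huniq (β d') h5.1 (by rw [h5.2]; exact h4)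
  rw [h5.2] at h6
  exact h6.symm

end Pool.Agent.MP099f24
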