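import Mathlib
import Pool.Agent.Lib.MP_099f24_an.LF.Arm
import Pool.Agent.Lib.MP_099f24_an.GA.Defs

/-!
# Regular points and tips from flatness
-/

namespace Pool.Agent.MP099f24

open Filter Topology Set Metric
open scoped ComplexConjugate

/-- regular point from geometric decay of the flatness at dyadic scales -/
theorem lf_regPt_dyadic {K : Set ℂ} {x₀ : ℂ} {R δ q : ℝ} (hR : 0 < R)
    (hK : IsClosed (K ∩ closedBall x₀ R)) (h0 : x₀ ∈ K) (hq0 : 0 < q) (hq1 : q < 1)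
    (hδ0 : 0 ≤ δ) (hδ : 200 * δ ≤ 1 - q)
    (hflat : ∀ x ∈ K, ‖x - x₀‖ ≤ R → ∀ k : ℕ, FlatAt K x (R / 2 ^ k) (δ * q ^ k)) :
    IsRegPt K x₀ := by
  obtain ⟨e, he⟩ := hflat x₀ h0 (by rw [sub_self, norm_zero]; exact hR.le) 0
  simp only [pow_zero, div_one, mul_one] at he
  obtain ⟨f, hf0, hf1, _, hf3⟩ := lf_graph hR hK h0 hq0 hq1 hδ0 hδ he.1 (by
    intro y hy hyR
    refine (he.2.1 y hy hyR).trans ?_
    nlinarith) hflat
  refine ⟨e, R / 16, f, he.1, by positivity, hf1, hf0, ?_⟩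
  intro s t hs ht
  rw [← hf3 s t hs ht, mul_comm e]

/-- **Regular points.**  Flatness `C₀ r ^ α` at all points near `x₀` and all small scales. -/
theorem lf_regPt {K : Set ℂ} {x₀ : ℂ} {r₀ C₀ α : ℝ} (hr₀ : 0 < r₀) (hC₀ : 0 ≤ C₀) (hα : 0 < α)
    (hK : IsClosed (K ∩ closedBall x₀ r₀)) (h0 : x₀ ∈ K)
    (hflat : ∀ x ∈ K, ‖x - x₀‖ ≤ r₀ → ∀ r : ℝ, 0 < r → r ≤ r₀ → FlatAt K x r (C₀ * r ^ α)) :
    IsRegPt K x₀ := by
  -- the ratio
  set q : ℝ := (1 / 2 : ℝ) ^ α with hq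
  have hq0 : 0 < q := Real.rpow_pos_of_pos (by norm_num) _
  have hq1 : q < 1 := Real.rpow_lt_one (by norm_num) (by norm_num) hα
  -- a small scale
  have hlim : Tendsto (fun r : ℝ => C₀ * r ^ α) (𝓝[>] 0) (𝓝 0) := by
    have h1 : Tendsto (fun r : ℝ => r ^ α) (𝓝[>] 0) (𝓝 0) := by
      have := (Real.continuousAt_rpow_const 0 α (Or.inr hα.le)).tendsto
      rw [Real.zero_rpow hα.ne'] at this
      exact this.mono_left nhdsWithin_le_nhds
    simpa using h1.const_mul C₀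
  have hev : ∀ᶠ r in 𝓝[>] (0 : ℝ), C₀ * r ^ α < (1 - q) / 200 :=
    hlim.eventually (gt_mem_nhds (by linarith))
  have hev2 : ∀ᶠ r in 𝓝[>] (0 : ℝ), r ≤ r₀ := by
    have : Iic r₀ ∈ 𝓝 (0 : ℝ) := Iic_mem_nhds hr₀
    exact mem_nhdsWithin_of_mem_nhds this
  obtain ⟨R, hR1, hR2, hR3⟩ := (hev.and (hev2.and self_mem_nhdsWithin)).exists
  have hR0 : 0 < R := hR3
  apply lf_regPt_dyadic (R := R) (δ := C₀ * R ^ α) (q := q) hR0 ?_ h0 hq0 hq1
    (mul_nonneg hC₀ (Real.rpow_nonneg hR0.le _)) (by linarith)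
  · intro x hx hxR k
    have hRk : 0 < R / 2 ^ k := by positivity
    have hRk2 : R / 2 ^ k ≤ R := div_le_self hR0.le (one_le_pow₀ (by norm_num))
    have h1 := hflat x hx (by linarith) (R / 2 ^ k) hRk (by linarith)
    have h2 : C₀ * (R / 2 ^ k) ^ α = C₀ * R ^ α * q ^ k := by
      have h3 : R / 2 ^ k = R * (1 / 2 : ℝ) ^ k := by
        rw [one_div, inv_pow]; field_simp
      rw [h3, Real.mul_rpow hR0.le (by positivity), hq, ← Real.rpow_natCast ((1 / 2 : ℝ) ^ α) k,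
        ← Real.rpow_mul (by norm_num), ← Real.rpow_natCast (1 / 2 : ℝ) k,
        ← Real.rpow_mul (by norm_num), mul_comm (k : ℝ) α]
      ring
    rw [h2] at h1
    exact h1
  · have : K ∩ closedBall x₀ R = (K ∩ closedBall x₀ r₀) ∩ closedBall x₀ R := by
      ext y
      simp only [mem_inter_iff, mem_closedBall]
      constructor
      · rintro ⟨a, b⟩; exact ⟨⟨a, by linarith⟩, b⟩
      · rintro ⟨⟨a, _⟩, b⟩; exact ⟨a, b⟩
    rw [this]
    exact hK.inter isClosed_closedBall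

/-- points of an arm, different from the special point, are regular -/
theorem lf_regPt_near {K : Set ℂ} {p : ℂ} {r₀ c δ q : ℝ} (hc : 0 < c)
    (hc1 : c ≤ 1) (hq0 : 0 < q) (hq1 : q < 1) (hδ0 : 0 ≤ δ) (hδ : 600 * δ ≤ 1 - q)
    (hK : IsClosed (K ∩ closedBall p r₀))
    (H2 : ∀ x ∈ K, x ≠ p → ‖x - p‖ ≤ r₀ → ∀ k : ℕ, FlatAt K x (c * ‖x - p‖ / 2 ^ k) (δ * q ^ k))
    {x : ℂ} (hx : x ∈ K) (hxp : x ≠ p) (hxr : 3 / 2 * ‖x - p‖ ≤ r₀) : IsRegPt K x := by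
  set d := ‖x - p‖ with hd
  have hd0 : 0 < d := norm_pos_iff.mpr (sub_ne_zero.mpr hxp)
  set R : ℝ := c * d / 2 with hR
  have hR0 : 0 < R := by positivity
  have hRd : R ≤ d / 2 := by rw [hR]; nlinarith
  have hyd : ∀ y : ℂ, ‖y - x‖ ≤ R → d / 2 ≤ ‖y - p‖ ∧ ‖y - p‖ ≤ 3 / 2 * d := by
    intro y hy
    have h1 : y - p = (y - x) + (x - p) := by ring
    have h2 : x - p = (y - p) - (y - x) := by ring
    constructor
    · have := norm_sub_le (y - p) (y - x)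
      rw [← h2, ← hd] at this
      linarith
    · rw [h1]
      refine (norm_add_le _ _).trans ?_
      rw [← hd]; linarith
  apply lf_regPt_dyadic (R := R) (δ := 3 * δ) (q := q) hR0 ?_ hx hq0 hq1 (by positivity)
    (by linarith)
  · intro y hy hyx k
    have hyp := hyd y hyx
    have hyne : y ≠ p := by
      intro h
      rw [h, sub_self, norm_zero] at hyp
      linarith [hyp.1]
    have h2k : (0 : ℝ) < 2 ^ k := by positivity
    refine lf_FlatAt_mono (by positivity) ?_ ?_ (H2 y hy hyne (by linarith [hyp.2]) k)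
    · apply div_le_div_of_nonneg_right _ h2k.le
      rw [hR]; nlinarith [hyp.1]
    · have h1 : c * ‖y - p‖ ≤ 3 * R := by rw [hR]; nlinarith [hyp.2]
      have h2 : δ * q ^ k * (c * ‖y - p‖ / 2 ^ k) ≤ δ * q ^ k * (3 * R / 2 ^ k) := by
        apply mul_le_mul_of_nonneg_left
        · exact div_le_div_of_nonneg_right h1 h2k.le
        · have : 0 < q ^ k := by positivity
          positivity
      refine h2.trans (le_of_eq ?_)
      ring
  · have : K ∩ closedBall x R = (K ∩ closedBall p r₀) ∩ closedBall x R := by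
      ext y
      simp only [mem_inter_iff, mem_closedBall, dist_eq_norm]
      constructor
      · rintro ⟨a, b⟩
        exact ⟨⟨a, by linarith [(hyd y b).2]⟩, b⟩
      · rintro ⟨⟨a, _⟩, b⟩; exact ⟨a, b⟩
    rw [this]
    exact hK.inter isClosed_closedBall

/-- **Tips.** -/
theorem lf_tip {K : Set ℂ} {p : ℂ} {r₀ c ε δ q : ℝ} (hr₀ : 0 < r₀) (hc : 0 < c)
    (hc1 : c ≤ 1) (hq0 : 0 < q) (hq1 : q < 1) (hδ0 : 0 ≤ δ) (hδ : 600 * δ ≤ 1 - q) (hε0 : 0 ≤ ε)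
    (hε : 4000 * ε ≤ c) (hK : IsClosed (K ∩ closedBall p r₀)) (hp : p ∈ K)
    (H1 : ∀ r : ℝ, 0 < r → r ≤ r₀ → ∃ e, RayDir K p r ε e)
    (H2 : ∀ x ∈ K, x ≠ p → ‖x - p‖ ≤ r₀ → ∀ k : ℕ, FlatAt K x (c * ‖x - p‖ / 2 ^ k) (δ * q ^ k)) :
    IsTip K p := by
  obtain ⟨γ, _, hγ1, hγ2, hγ3⟩ := lf_arm hr₀ hc hc1 hq0 hq1 hδ0 hδ hε0 hε hK hp H1 H2
  refine ⟨r₀ / 2, fun _ => γ, ?_, ?_, ?_, ?_, ?_, ?_⟩
  · positivity
  · intro _ s hs
    exact (hγ3 s hs.1 hs.2.le).continuousAt.continuousWithinAt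
  · intro _ s hs
    exact (hγ1 s hs.1.le hs.2.le).2
  · intro k l _ _ _
    exact Subsingleton.elim k l
  · intro z hz1 hz2
    constructor
    · intro hz
      exact ⟨0, hγ2 z hz hz2.le⟩
    · rintro ⟨_, hk⟩
      have h1 := (hγ1 ‖z - p‖ hz1.le hz2.le).1
      rw [← hk] at h1
      exact h1
  · intro z hz hz1 hz2
    exact lf_regPt_near hc hc1 hq0 hq1 hδ0 hδ hK H2 hz
      (fun h => by rw [h, sub_self, norm_zero] at hz1; exact lt_irrefl _ hz1) (by linarith)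

end Pool.Agent.MP099f24
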