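import Mathlib
import Pool.Agent.Lib.MP_099f24_an.LF.Defs

/-!
# The third roots of unity and tripods
-/

namespace Pool.Agent.MP099f24

open Filter Topology Set Metric
open scoped ComplexConjugate

theorem om3_re : om3.re = -(1 / 2) := by
  have h : om3 = Complex.exp (((2 * Real.pi / 3 : ℝ) : ℂ) * Complex.I) := by
    rw [om3]; push_cast; rfl
  rw [h, Complex.exp_ofReal_mul_I_re]
  have : 2 * Real.pi / 3 = Real.pi - Real.pi / 3 := by ring
  rw [this, Real.cos_pi_sub, Real.cos_pi_div_three]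

theorem om3_im : om3.im = Real.sqrt 3 / 2 := by
  have h : om3 = Complex.exp (((2 * Real.pi / 3 : ℝ) : ℂ) * Complex.I) := by
    rw [om3]; push_cast; rfl
  rw [h, Complex.exp_ofReal_mul_I_im]
  have : 2 * Real.pi / 3 = Real.pi - Real.pi / 3 := by ring
  rw [this, Real.sin_pi_sub, Real.sin_pi_div_three]

theorem om3_norm : ‖om3‖ = 1 := by
  have h : om3 = Complex.exp (((2 * Real.pi / 3 : ℝ) : ℂ) * Complex.I) := by
    rw [om3]; push_cast; rfl
  rw [h, Complex.norm_exp_ofReal_mul_I]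

theorem om3_sq : om3 ^ 2 = conj om3 := by
  have h3 : Real.sqrt 3 * Real.sqrt 3 = 3 := Real.mul_self_sqrt (by norm_num)
  apply Complex.ext
  · rw [sq, Complex.mul_re, om3_re, om3_im, Complex.conj_re, om3_re]
    nlinarith
  · rw [sq, Complex.mul_im, om3_re, om3_im, Complex.conj_im, om3_im]
    ring

theorem om3_cube : om3 ^ 3 = 1 := by
  rw [pow_succ, om3_sq, mul_comm, Complex.mul_conj, Complex.normSq_eq_norm_sq, om3_norm]
  simp

theorem om3_pow_norm (i : ℕ) : ‖om3 ^ i‖ = 1 := by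
  rw [norm_pow, om3_norm, one_pow]

/-- two different arms form an angle of `2π/3` -/
theorem om3_arms {i j : Fin 3} (h : i ≠ j) :
    (om3 ^ (i : ℕ) * conj (om3 ^ (j : ℕ))).re = -(1 / 2) := by
  have h3 : Real.sqrt 3 * Real.sqrt 3 = 3 := Real.mul_self_sqrt (by norm_num)
  have h01 : (om3 ^ 0 * conj (om3 ^ 1)).re = -(1 / 2) := by simp [om3_re]
  have h10 : (om3 ^ 1 * conj (om3 ^ 0)).re = -(1 / 2) := by simp [om3_re]
  have h02 : (om3 ^ 0 * conj (om3 ^ 2)).re = -(1 / 2) := by rw [om3_sq]; simp [om3_re]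
  have h20 : (om3 ^ 2 * conj (om3 ^ 0)).re = -(1 / 2) := by rw [om3_sq]; simp [om3_re]
  have h12 : (om3 ^ 1 * conj (om3 ^ 2)).re = -(1 / 2) := by
    rw [om3_sq, Complex.conj_conj, pow_one, Complex.mul_re, om3_re, om3_im]; nlinarith
  have h21 : (om3 ^ 2 * conj (om3 ^ 1)).re = -(1 / 2) := by
    rw [om3_sq, pow_one, Complex.mul_re, Complex.conj_re, Complex.conj_im, om3_re, om3_im]
    nlinarith
  fin_cases i <;> fin_cases j <;> first | exact absurd rfl h | assumption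

/-- points on different arms are far apart -/
theorem om3_sep {i j : Fin 3} (h : i ≠ j) {e : ℂ} (he : ‖e‖ = 1) {s t : ℝ} (hs : 0 ≤ s)
    (ht : 0 ≤ t) : t ≤ ‖(s : ℂ) * (om3 ^ (i : ℕ) * e) - (t : ℂ) * (om3 ^ (j : ℕ) * e)‖ := by
  have h1 : ‖(s : ℂ) * (om3 ^ (i : ℕ) * e) - (t : ℂ) * (om3 ^ (j : ℕ) * e)‖ ^ 2 =
      s ^ 2 + t ^ 2 + s * t := by
    have h2 : (s : ℂ) * (om3 ^ (i : ℕ) * e) - (t : ℂ) * (om3 ^ (j : ℕ) * e) =
        ((s : ℂ) * om3 ^ (i : ℕ) - (t : ℂ) * om3 ^ (j : ℕ)) * e := by ring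
    rw [h2, norm_mul, he, mul_one, Complex.sq_norm, Complex.normSq_sub]
    rw [Complex.normSq_mul, Complex.normSq_mul, Complex.normSq_ofReal, Complex.normSq_ofReal,
      Complex.normSq_eq_norm_sq, Complex.normSq_eq_norm_sq, om3_pow_norm, om3_pow_norm]
    have h3 : ((s : ℂ) * om3 ^ (i : ℕ) * conj ((t : ℂ) * om3 ^ (j : ℕ))).re =
        s * t * (om3 ^ (i : ℕ) * conj (om3 ^ (j : ℕ))).re := by
      have h4 : (s : ℂ) * om3 ^ (i : ℕ) * conj ((t : ℂ) * om3 ^ (j : ℕ)) =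
          ((s * t : ℝ) : ℂ) * (om3 ^ (i : ℕ) * conj (om3 ^ (j : ℕ))) := by
        rw [map_mul, Complex.conj_ofReal]; push_cast; ring
      rw [h4, Complex.re_ofReal_mul]
    rw [h3, om3_arms h]
    ring
  have h2 : t ^ 2 ≤ ‖(s : ℂ) * (om3 ^ (i : ℕ) * e) - (t : ℂ) * (om3 ^ (j : ℕ) * e)‖ ^ 2 := by
    rw [h1]; nlinarith [mul_nonneg hs ht, sq_nonneg s]
  exact (pow_le_pow_iff_left₀ ht (norm_nonneg _) (by norm_num)).mp h2

/-- rotation invariance of the tripod condition -/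
theorem lf_tripod_rot {K : Set ℂ} {p : ℂ} {r ε : ℝ} {e : ℂ} (h : TripodDir K p r ε e) :
    TripodDir K p r ε (om3 * e) := by
  have hperm : ∀ i : Fin 3, ∃ j : Fin 3, om3 ^ (i : ℕ) * e = om3 ^ (j : ℕ) * (om3 * e) := by
    intro i
    fin_cases i
    · refine ⟨2, ?_⟩
      have : om3 ^ 2 * (om3 * e) = om3 ^ 3 * e := by ring
      simp [this, om3_cube]
    · refine ⟨0, ?_⟩
      simp
    · refine ⟨1, ?_⟩
      simp; ring
  have hperm' : ∀ j : Fin 3, ∃ i : Fin 3, om3 ^ (j : ℕ) * (om3 * e) = om3 ^ (i : ℕ) * e := by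
    intro j
    fin_cases j
    · refine ⟨1, ?_⟩
      simp
    · refine ⟨2, ?_⟩
      simp; ring
    · refine ⟨0, ?_⟩
      have : om3 ^ 2 * (om3 * e) = om3 ^ 3 * e := by ring
      simp [this, om3_cube]
  refine ⟨by rw [norm_mul, om3_norm, one_mul, h.1], ?_, ?_⟩
  · intro y hy hyr
    obtain ⟨i, t, ht, hyt⟩ := h.2.1 y hy hyr
    obtain ⟨j, hj⟩ := hperm i
    refine ⟨j, t, ht, ?_⟩
    rw [← hj]; exact hyt
  · intro j t ht htr
    obtain ⟨i, hi⟩ := hperm' j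
    rw [hi]
    exact h.2.2 i t ht htr

theorem lf_tripod_rot_pow {K : Set ℂ} {p : ℂ} {r ε : ℝ} {e : ℂ} (h : TripodDir K p r ε e) (n : ℕ) :
    TripodDir K p r ε (om3 ^ n * e) := by
  induction n with
  | zero => simpa using h
  | succ n ih =>
    have := lf_tripod_rot ih
    rw [pow_succ']
    rwa [← mul_assoc] at this

end Pool.Agent.MP099f24
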