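import Mathlib
import Pool.Agent.Lib.MP_099f24_an.LF.Om3
import Pool.Agent.Lib.MP_099f24_an.LF.Branch

/-!
# Directions along an arm: chains of points with summable turning
-/

namespace Pool.Agent.MP099f24

open Filter Topology Set Metric
open scoped ComplexConjugate

theorem lf_FlatDir_neg {K : Set ℂ} {x : ℂ} {r ε : ℝ} {e : ℂ} (h : FlatDir K x r ε e) :
    FlatDir K x r ε (-e) := by
  refine ⟨by rw [norm_neg, h.1], ?_, ?_⟩
  · intro y hy hyr
    have := h.2.1 y hy hyr
    rwa [map_neg, mul_neg, Complex.neg_im, abs_neg]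
  · intro t ht
    obtain ⟨y, hy, hyd⟩ := h.2.2 (-t) (by rwa [abs_neg])
    refine ⟨y, hy, ?_⟩
    have : x + (t : ℂ) * -e = x + ((-t : ℝ) : ℂ) * e := by push_cast; ring
    rw [this]; exact hyd

/-- two unit vectors forming a small angle -/
theorem lf_unit_close {a b : ℂ} (ha : ‖a‖ = 1) (hb : ‖b‖ = 1) {η : ℝ}
    (him : |(a * conj b).im| ≤ η) (hη : η ≤ 1) (hre : 0 ≤ (a * conj b).re) : ‖a - b‖ ≤ 2 * η := by
  have hbb : b * conj b = 1 := by
    rw [Complex.mul_conj, Complex.normSq_eq_norm_sq, hb]; simp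
  set z := a * conj b with hz
  have hzn : ‖z‖ = 1 := by rw [hz, norm_mul, RCLike.norm_conj, ha, hb, mul_one]
  have h1 : ‖a - b‖ = ‖z - 1‖ := by
    have : z - 1 = (a - b) * conj b := by rw [sub_mul, hbb]
    rw [this, norm_mul, RCLike.norm_conj, hb, mul_one]
  rw [h1]
  have h2 : z.re ^ 2 + z.im ^ 2 = 1 := by
    have := Complex.sq_norm z
    rw [hzn, Complex.normSq_apply] at this
    nlinarith
  have h3 : z.re ≤ 1 := by
    have := Complex.re_le_norm z
    rwa [hzn] at this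
  have h0 : 0 ≤ η := (abs_nonneg _).trans him
  have h4 : z.im ^ 2 ≤ η ^ 2 := by
    rw [← sq_abs]; exact pow_le_pow_left₀ (abs_nonneg _) him 2
  have h5 := Complex.norm_le_abs_re_add_abs_im (z - 1)
  simp only [Complex.sub_re, Complex.one_re, Complex.sub_im, Complex.one_im, sub_zero] at h5
  rw [abs_of_nonpos (by linarith : z.re - 1 ≤ 0)] at h5
  have h6 : 1 - z.re ≤ η := by nlinarith
  linarith

/-- points of `K` are near the point of some arm at the same distance -/
theorem lf_tripod_near {K : Set ℂ} {p e x : ℂ} {r ε : ℝ} (h : TripodDir K p r ε e) (hx : x ∈ K)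
    (hxr : ‖x - p‖ ≤ r) :
    ∃ i : Fin 3, ‖x - (p + (‖x - p‖ : ℝ) * (om3 ^ (i : ℕ) * e))‖ ≤ 2 * (ε * r) := by
  obtain ⟨i, t, ht, hxt⟩ := h.2.1 x hx hxr
  refine ⟨i, ?_⟩
  have hn : ‖om3 ^ (i : ℕ) * e‖ = 1 := by rw [norm_mul, om3_pow_norm, h.1, mul_one]
  set a := om3 ^ (i : ℕ) * e with ha
  have h1 : |‖x - p‖ - t| ≤ ε * r := by
    have h2 : ‖(t : ℂ) * a‖ = t := by
      rw [norm_mul, hn, mul_one, Complex.norm_real, Real.norm_eq_abs, abs_of_nonneg ht]
    have h3 := abs_norm_sub_norm_le (x - p) ((t : ℂ) * a)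
    rw [h2] at h3
    refine h3.trans ?_
    have : x - p - (t : ℂ) * a = x - (p + (t : ℂ) * a) := by ring
    rw [this]; exact hxt
  have h2 : x - (p + (‖x - p‖ : ℝ) * a) = (x - (p + (t : ℂ) * a)) - ((‖x - p‖ - t : ℝ) : ℂ) * a := by
    push_cast; ring
  rw [h2]
  refine (norm_sub_le _ _).trans ?_
  rw [norm_mul, hn, mul_one, Complex.norm_real, Real.norm_eq_abs]
  linarith

/-- the direction of `K` at `x` is the direction of the arm -/
theorem lf_tripod_dir {K : Set ℂ} {p e x D : ℂ} {r d ε c w : ℝ} (h : TripodDir K p r ε e)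
    (hx : x ∈ K) (hxd : ‖x - p‖ = d) (hd : 0 < d) (hr1 : 2 * d ≤ r) (hr2 : r ≤ 4 * d)
    (hc : 0 < c) (hc1 : c ≤ 1 / 20) (hε0 : 0 ≤ ε) (hε : 4000 * ε ≤ c) (hw : w ≤ 1 / 100)
    (hD : FlatDir K x (c * d) w D) (hor : 0 ≤ (D * conj (x - p)).re) :
    ∃ i : Fin 3, ‖x - (p + (d : ℝ) * (om3 ^ (i : ℕ) * e))‖ ≤ 8 * (ε * d) ∧
      ‖D - om3 ^ (i : ℕ) * e‖ ≤ 48 * ε / c + 4 * w := by
  obtain ⟨i, hi⟩ := lf_tripod_near h hx (by rw [hxd]; linarith)
  rw [hxd] at hi
  have hεr : ε * r ≤ 4 * (ε * d) := by nlinarith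
  have hi' : ‖x - (p + (d : ℝ) * (om3 ^ (i : ℕ) * e))‖ ≤ 8 * (ε * d) := by linarith
  refine ⟨i, hi', ?_⟩
  have hn : ‖om3 ^ (i : ℕ) * e‖ = 1 := by rw [norm_mul, om3_pow_norm, h.1, mul_one]
  set a := om3 ^ (i : ℕ) * e with ha
  have haa : a * conj a = 1 := by
    rw [Complex.mul_conj, Complex.normSq_eq_norm_sq, hn]; simp
  have hcd : 0 < c * d := by positivity
  have hcd1 : c * d ≤ d / 20 := by nlinarith
  have hεd : ε * d ≤ c * d / 4000 := by
    have : ε ≤ c / 4000 := by linarith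
    have := mul_le_mul_of_nonneg_right this hd.le
    linarith
  have hw0 : 0 ≤ w := by
    obtain ⟨y, _, hyd⟩ := hD.2.2 0 (by rw [abs_zero]; exact hcd.le)
    by_contra hneg
    push Not at hneg
    have := norm_nonneg (y - (x + ((0 : ℝ) : ℂ) * D))
    nlinarith
  -- a second point
  obtain ⟨y, hy, hyd⟩ := hD.2.2 (c * d / 2) (by rw [abs_of_pos (by positivity)]; linarith)
  have hyx : ‖y - x‖ ≤ c * d := by
    have : y - x = (y - (x + ((c * d / 2 : ℝ) : ℂ) * D)) + ((c * d / 2 : ℝ) : ℂ) * D := by ring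
    rw [this]
    refine (norm_add_le _ _).trans ?_
    rw [norm_mul, Complex.norm_real, hD.1, Real.norm_eq_abs,
      abs_of_pos (by positivity : 0 < c * d / 2)]
    nlinarith
  have hyp : ‖y - p‖ ≤ r := by
    have : y - p = (y - x) + (x - p) := by ring
    rw [this]
    refine (norm_add_le _ _).trans ?_
    rw [hxd]; linarith
  obtain ⟨j, t, ht, hyt⟩ := h.2.1 y hy hyp
  have hij : j = i := by
    by_contra hne
    have h1 := om3_sep hne h.1 ht hd.le
    have h2 : (t : ℂ) * (om3 ^ (j : ℕ) * e) - (d : ℂ) * (om3 ^ (i : ℕ) * e) =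
        (y - x) - (y - (p + (t : ℂ) * (om3 ^ (j : ℕ) * e))) +
          (x - (p + (d : ℂ) * (om3 ^ (i : ℕ) * e))) := by ring
    rw [h2] at h1
    have h3 := norm_add_le ((y - x) - (y - (p + (t : ℂ) * (om3 ^ (j : ℕ) * e))))
      (x - (p + (d : ℂ) * (om3 ^ (i : ℕ) * e)))
    have h4 := norm_sub_le (y - x) (y - (p + (t : ℂ) * (om3 ^ (j : ℕ) * e)))
    have h5 : ‖x - (p + (d : ℂ) * (om3 ^ (i : ℕ) * e))‖ ≤ 8 * (ε * d) := hi'
    nlinarith
  rw [hij, ← ha] at hyt
  -- the angle between `D` and `a`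
  have h3 : (((c * d / 2 : ℝ) : ℂ) * (D * conj a)).im =
      (((y - (p + (t : ℂ) * a)) - (x - (p + (d : ℝ) * a))) * conj a).im -
      ((y - (x + ((c * d / 2 : ℝ) : ℂ) * D)) * conj a).im := by
    have h4 : ((c * d / 2 : ℝ) : ℂ) * (D * conj a) =
        ((y - (p + (t : ℂ) * a)) - (x - (p + (d : ℝ) * a))) * conj a -
        (y - (x + ((c * d / 2 : ℝ) : ℂ) * D)) * conj a +
        ((t - d : ℝ) : ℂ) * (a * conj a) := by push_cast; ring
    have h5 : (((t - d : ℝ) : ℂ) * (a * conj a)).im = 0 := by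
      rw [haa, mul_one, Complex.ofReal_im]
    rw [h4, Complex.add_im, h5, add_zero, Complex.sub_im]
  rw [Complex.im_ofReal_mul] at h3
  have h6 : |c * d / 2 * (D * conj a).im| ≤ 12 * (ε * d) + w * (c * d) := by
    rw [h3]
    refine (abs_sub _ _).trans ?_
    have h7 : |(((y - (p + (t : ℂ) * a)) - (x - (p + (d : ℝ) * a))) * conj a).im| ≤
        12 * (ε * d) := by
      refine (Complex.abs_im_le_norm _).trans ?_
      rw [norm_mul, RCLike.norm_conj, hn, mul_one]
      refine (norm_sub_le _ _).trans ?_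
      have h8 : ‖x - (p + (d : ℝ) * a)‖ ≤ 8 * (ε * d) := hi'
      linarith
    have h8 : |((y - (x + ((c * d / 2 : ℝ) : ℂ) * D)) * conj a).im| ≤ w * (c * d) := by
      refine (Complex.abs_im_le_norm _).trans ?_
      rw [norm_mul, RCLike.norm_conj, hn, mul_one]
      exact hyd
    linarith
  rw [abs_mul, abs_of_pos (by positivity : 0 < c * d / 2)] at h6
  have h9 : |(D * conj a).im| ≤ 24 * ε / c + 2 * w := by
    have h10 : |(D * conj a).im| * (c * d / 2) ≤ (24 * ε / c + 2 * w) * (c * d / 2) := by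
      have h11 : (24 * ε / c + 2 * w) * (c * d / 2) = 12 * (ε * d) + w * (c * d) := by
        field_simp; ring
      rw [h11]; linarith
    exact le_of_mul_le_mul_right h10 (by positivity)
  have h24 : 24 * ε / c ≤ 24 / 4000 := by
    rw [div_le_iff₀ hc]; linarith
  have hη1 : 24 * ε / c + 2 * w ≤ 1 / 25 := by linarith
  -- orientation
  have hre : 0 ≤ (D * conj a).re := by
    have h10 : (D * conj (x - p)).re = d * (D * conj a).re + (D * conj (x - (p + (d : ℝ) * a))).re := by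
      have h11 : D * conj (x - p) = ((d : ℝ) : ℂ) * (D * conj a) +
          D * conj (x - (p + (d : ℝ) * a)) := by
        simp only [map_sub, map_add, map_mul, Complex.conj_ofReal]; ring
      rw [h11, Complex.add_re, Complex.re_ofReal_mul]
    have h11 : |(D * conj (x - (p + (d : ℝ) * a))).re| ≤ 8 * (ε * d) := by
      refine (Complex.abs_re_le_norm _).trans ?_
      rw [norm_mul, RCLike.norm_conj, hD.1, one_mul]; exact hi'
    have h12 : -(8 * ε) ≤ (D * conj a).re := by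
      have h13 : 0 ≤ d * (D * conj a).re + 8 * (ε * d) := by
        have := (abs_le.mp h11).2
        linarith
      have h14 : 0 ≤ d * ((D * conj a).re + 8 * ε) := by nlinarith
      have := nonneg_of_mul_nonneg_right h14 hd
      linarith
    by_contra hneg
    push Not at hneg
    have h15 : ‖D * conj a‖ = 1 := by rw [norm_mul, RCLike.norm_conj, hD.1, hn, mul_one]
    have h16 := Complex.norm_le_abs_re_add_abs_im (D * conj a)
    rw [h15, abs_of_neg hneg] at h16
    linarith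
  have h10 := lf_unit_close hD.1 hn h9 (by linarith) hre
  refine h10.trans (le_of_eq ?_)
  ring

/-- turning between two nearby points -/
theorem lf_drift {K : Set ℂ} {p x x' D D' : ℂ} {d d' c w : ℝ} (hxd : ‖x - p‖ = d)
    (hx'd : ‖x' - p‖ = d') (hd : 0 < d) (hc : 0 < c) (hc1 : c ≤ 1 / 20) (hx' : x' ∈ K)
    (hxx : ‖x' - x‖ ≤ c * d / 8) (hw : w ≤ 1 / 100) (hD : FlatDir K x (c * d) w D)
    (hD' : FlatDir K x' (c * d') w D') (hu : ‖D - (x - p) / d‖ ≤ 1 / 10)
    (hu' : ‖D' - (x' - p) / d'‖ ≤ 1 / 10) : ‖D' - D‖ ≤ 32 * w := by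
  have hcd : 0 < c * d := by positivity
  have hcd1 : c * d ≤ d / 20 := by nlinarith
  have hdd : |d' - d| ≤ c * d / 8 := by
    rw [← hxd, ← hx'd]
    refine (abs_norm_sub_norm_le _ _).trans ?_
    have : x' - p - (x - p) = x' - x := by ring
    rw [this, hxd]; exact hxx
  rw [abs_le] at hdd
  have hd'0 : 0 < d' := by nlinarith [hdd.1]
  have hw0 : 0 ≤ w := by
    obtain ⟨y, _, hyd⟩ := hD.2.2 0 (by rw [abs_zero]; exact hcd.le)
    by_contra hneg
    push Not at hneg
    have := norm_nonneg (y - (x + ((0 : ℝ) : ℂ) * D))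
    nlinarith
  have hcdd' : c * d' ≤ 9 / 8 * (c * d) := by nlinarith [hdd.2]
  have hcdd'' : c * d / 4 ≤ c * d' := by nlinarith [hdd.1]
  obtain ⟨y, hy, hyd⟩ := hD'.2.2 (c * d / 4) (by rw [abs_of_pos (by positivity)]; exact hcdd'')
  have hwc : w * (c * d') ≤ 9 / 8 * (w * (c * d)) := by nlinarith
  have hyx : ‖y - x‖ ≤ c * d := by
    have : y - x = (y - (x' + ((c * d / 4 : ℝ) : ℂ) * D')) + ((c * d / 4 : ℝ) : ℂ) * D' +
        (x' - x) := by ring
    rw [this]
    refine (norm_add_le _ _).trans ?_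
    have := norm_add_le (y - (x' + ((c * d / 4 : ℝ) : ℂ) * D')) (((c * d / 4 : ℝ) : ℂ) * D')
    rw [norm_mul, Complex.norm_real, hD'.1, Real.norm_eq_abs,
      abs_of_pos (by positivity : 0 < c * d / 4)] at this
    nlinarith
  have h1 := hD.2.1 y hy hyx
  have h2 := hD.2.1 x' hx' (by linarith)
  have h3 : (((c * d / 4 : ℝ) : ℂ) * (D' * conj D)).im =
      ((y - x) * conj D).im - ((x' - x) * conj D).im -
      ((y - (x' + ((c * d / 4 : ℝ) : ℂ) * D')) * conj D).im := by
    rw [← Complex.sub_im, ← Complex.sub_im]; congr 1; ring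
  rw [Complex.im_ofReal_mul] at h3
  have h4 : |((y - (x' + ((c * d / 4 : ℝ) : ℂ) * D')) * conj D).im| ≤ w * (c * d') := by
    refine (Complex.abs_im_le_norm _).trans ?_
    rw [norm_mul, RCLike.norm_conj, hD.1, mul_one]; exact hyd
  have h5 : |c * d / 4 * (D' * conj D).im| ≤ 4 * (w * (c * d)) := by
    rw [h3]
    refine (abs_sub _ _).trans ?_
    have := abs_sub ((y - x) * conj D).im ((x' - x) * conj D).im
    have h6 : 0 ≤ w * (c * d) := by positivity
    linarith
  rw [abs_mul, abs_of_pos (by positivity : 0 < c * d / 4)] at h5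
  have h6 : |(D' * conj D).im| ≤ 16 * w := by
    have h7 : |(D' * conj D).im| * (c * d / 4) ≤ (16 * w) * (c * d / 4) := by linarith
    exact le_of_mul_le_mul_right h7 (by positivity)
  -- orientation
  have huu : ‖(x' - p) / d' - (x - p) / d‖ ≤ 1 / 4 := by
    have hd0 : (d : ℂ) ≠ 0 := by exact_mod_cast hd.ne'
    have hd'00 : (d' : ℂ) ≠ 0 := by exact_mod_cast hd'0.ne'
    have h7 : (x' - p) / d' - (x - p) / d = (x' - x) / d + (x' - p) / d' * (((d - d' : ℝ) : ℂ) / d) := by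
      push_cast; field_simp; ring
    rw [h7]
    refine (norm_add_le _ _).trans ?_
    rw [norm_mul, norm_div, norm_div, norm_div, hx'd, Complex.norm_real, Complex.norm_real,
      Complex.norm_real, Real.norm_eq_abs, Real.norm_eq_abs, Real.norm_eq_abs, abs_of_pos hd,
      abs_of_pos hd'0, div_self hd'0.ne', one_mul]
    have h8 : ‖x' - x‖ / d ≤ 1 / 160 := by
      rw [div_le_iff₀ hd]; linarith
    have h9 : |d - d'| / d ≤ 1 / 160 := by
      rw [div_le_iff₀ hd, abs_le]
      constructor <;> nlinarith [hdd.1, hdd.2]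
    linarith
  have hDD : ‖D' - D‖ ≤ 9 / 20 := by
    have : D' - D = (D' - (x' - p) / d') + ((x' - p) / d' - (x - p) / d) - (D - (x - p) / d) := by
      ring
    rw [this]
    refine (norm_sub_le _ _).trans ?_
    have := norm_add_le (D' - (x' - p) / d') ((x' - p) / d' - (x - p) / d)
    linarith
  have hre : 0 ≤ (D' * conj D).re := by
    have h7 : ‖D' - D‖ ^ 2 = 2 - 2 * (D' * conj D).re := by
      rw [Complex.sq_norm, Complex.normSq_sub, ← Complex.sq_norm, ← Complex.sq_norm, hD.1, hD'.1]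
      ring
    nlinarith [norm_nonneg (D' - D)]
  have := lf_unit_close hD'.1 hD.1 h6 (by linarith) hre
  linarith

/-- **Chains.**  `D x` are directions of `K` at the points `x ≠ p` with rates `C₁ |x - p| ^ α`,
and close to the radial directions.  From every `x` one reaches every smaller distance with total
turning `≤ B |x - p| ^ α`. -/
theorem lf_chain {K : Set ℂ} {p : ℂ} {ρ c C₁ α : ℝ} {D : ℂ → ℂ} (hc : 0 < c) (hc1 : c ≤ 1 / 20)
    (hC₁ : 0 ≤ C₁) (hα : 0 < α) (hw : C₁ * ρ ^ α ≤ 1 / 100)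
    (hD : ∀ x ∈ K, x ≠ p → ‖x - p‖ ≤ ρ → FlatDir K x (c * ‖x - p‖) (C₁ * ‖x - p‖ ^ α) (D x))
    (hu : ∀ x ∈ K, x ≠ p → ‖x - p‖ ≤ ρ → ‖D x - (x - p) / ‖x - p‖‖ ≤ 1 / 10) {B : ℝ}
    (hB : 32 * C₁ ≤ B * (1 - (1 - c / 25) ^ α)) {d' : ℝ} (hd' : 0 < d') {x : ℂ} (hx : x ∈ K)
    (hxρ : ‖x - p‖ ≤ ρ) (hxd : d' ≤ ‖x - p‖) :
    ∃ x' ∈ K, d' ≤ ‖x' - p‖ ∧ ‖x' - p‖ ≤ 2 * d' ∧ ‖D x' - D x‖ ≤ B * ‖x - p‖ ^ α := by
  set lam : ℝ := 1 - c / 25 with hlam
  have hlam0 : 0 < lam := by rw [hlam]; linarith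
  have hlam1 : lam < 1 := by rw [hlam]; linarith
  have hlamα : lam ^ α < 1 := Real.rpow_lt_one hlam0.le hlam1 hα
  have hB0 : 0 ≤ B := by
    by_contra hneg
    push Not at hneg
    nlinarith
  have key : ∀ n : ℕ, ∀ x ∈ K, ‖x - p‖ ≤ ρ → d' ≤ ‖x - p‖ → ‖x - p‖ * lam ^ n ≤ 2 * d' →
      ∃ x' ∈ K, d' ≤ ‖x' - p‖ ∧ ‖x' - p‖ ≤ 2 * d' ∧ ‖D x' - D x‖ ≤ B * ‖x - p‖ ^ α := by
    intro n
    induction n with
    | zero =>
      intro x hx _ h1 h2
      rw [pow_zero, mul_one] at h2
      refine ⟨x, hx, h1, h2, ?_⟩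
      rw [sub_self, norm_zero]
      exact mul_nonneg hB0 (Real.rpow_nonneg (norm_nonneg _) _)
    | succ n ih =>
      intro x hx hxρ h1 h2
      by_cases h3 : ‖x - p‖ ≤ 2 * d'
      · refine ⟨x, hx, h1, h3, ?_⟩
        rw [sub_self, norm_zero]
        exact mul_nonneg hB0 (Real.rpow_nonneg (norm_nonneg _) _)
      push Not at h3
      set d := ‖x - p‖ with hd
      have hd0 : 0 < d := by linarith
      have hxp : x ≠ p := by
        intro h; rw [h, sub_self, norm_zero] at hd; linarith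
      have hcd : 0 < c * d := by positivity
      have hwd : C₁ * d ^ α ≤ 1 / 100 := by
        refine le_trans ?_ hw
        apply mul_le_mul_of_nonneg_left _ hC₁
        exact Real.rpow_le_rpow hd0.le hxρ hα.le
      have hw0 : 0 ≤ C₁ * d ^ α := mul_nonneg hC₁ (Real.rpow_nonneg hd0.le _)
      have hDx := hD x hx hxp hxρ
      have hux := hu x hx hxp hxρ
      rw [← hd] at hDx hux
      -- the next point
      obtain ⟨y, hy, hyd⟩ := hDx.2.2 (-(c * d / 16)) (by
        rw [abs_neg, abs_of_pos (by positivity)]; linarith)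
      have hyx : ‖y - x‖ ≤ c * d / 8 := by
        have : y - x = (y - (x + ((-(c * d / 16) : ℝ) : ℂ) * D x)) +
            ((-(c * d / 16) : ℝ) : ℂ) * D x := by ring
        rw [this]
        refine (norm_add_le _ _).trans ?_
        rw [norm_mul, Complex.norm_real, hDx.1, Real.norm_eq_abs, abs_neg,
          abs_of_pos (by positivity : 0 < c * d / 16)]
        nlinarith
      have hd0' : (d : ℂ) ≠ 0 := by exact_mod_cast hd0.ne'
      have hyp : ‖y - p‖ ≤ lam * d := by
        have h4 : y - p = ((1 - c / 16 : ℝ) : ℂ) * (x - p) -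
            ((c * d / 16 : ℝ) : ℂ) * (D x - (x - p) / d) +
            (y - (x + ((-(c * d / 16) : ℝ) : ℂ) * D x)) := by
          push_cast; field_simp; ring
        rw [h4]
        refine (norm_add_le _ _).trans ?_
        have h5 := norm_sub_le (((1 - c / 16 : ℝ) : ℂ) * (x - p))
          (((c * d / 16 : ℝ) : ℂ) * (D x - (x - p) / d))
        rw [norm_mul, norm_mul, Complex.norm_real, Complex.norm_real, Real.norm_eq_abs,
          Real.norm_eq_abs, abs_of_pos (by linarith : 0 < 1 - c / 16),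
          abs_of_pos (by positivity : 0 < c * d / 16), ← hd] at h5
        have h6 : c * d / 16 * ‖D x - (x - p) / d‖ ≤ c * d / 16 * (1 / 10) :=
          mul_le_mul_of_nonneg_left hux (by positivity)
        have h7 : C₁ * d ^ α * (c * d) ≤ 1 / 100 * (c * d) :=
          mul_le_mul_of_nonneg_right hwd hcd.le
        rw [hlam]
        nlinarith
      have hyp2 : d / 2 ≤ ‖y - p‖ := by
        have h4 : x - p = (y - p) - (y - x) := by ring
        have h5 := norm_sub_le (y - p) (y - x)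
        rw [← h4, ← hd] at h5
        nlinarith
      have hyp0 : 0 < ‖y - p‖ := by linarith
      have hyne : y ≠ p := by
        intro h; rw [h, sub_self, norm_zero] at hyp0; exact lt_irrefl _ hyp0
      have hyd1 : ‖y - p‖ ≤ d := by nlinarith
      have hDy := hD y hy hyne (by linarith)
      have huy := hu y hy hyne (by linarith)
      have hwy : C₁ * ‖y - p‖ ^ α ≤ C₁ * d ^ α := by
        apply mul_le_mul_of_nonneg_left _ hC₁
        exact Real.rpow_le_rpow hyp0.le hyd1 hα.le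
      have hdrift := lf_drift hd.symm rfl hd0 hc hc1 hy hyx hwd hDx
        (lf_FlatDir_weaken (by positivity) hwy hDy) hux huy
      obtain ⟨x', hx', h4, h5, h6⟩ := ih y hy (by linarith) (by linarith) (by
        rw [pow_succ] at h2
        have : 0 < lam ^ n := by positivity
        nlinarith)
      refine ⟨x', hx', h4, h5, ?_⟩
      have h7 : ‖y - p‖ ^ α ≤ lam ^ α * d ^ α := by
        rw [← Real.mul_rpow hlam0.le hd0.le]
        exact Real.rpow_le_rpow hyp0.le hyp hα.le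
      have h8 : D x' - D x = (D x' - D y) + (D y - D x) := by ring
      rw [h8]
      refine (norm_add_le _ _).trans ?_
      have h9 : B * ‖y - p‖ ^ α ≤ B * (lam ^ α * d ^ α) := mul_le_mul_of_nonneg_left h7 hB0
      have h10 : 0 ≤ d ^ α := Real.rpow_nonneg hd0.le _
      nlinarith
  -- choose `n`
  have hxp : 0 < ‖x - p‖ := by linarith
  obtain ⟨n, hn⟩ := exists_pow_lt_of_lt_one (x := 2 * d' / ‖x - p‖) (y := lam) (by positivity) hlam1
  rw [lt_div_iff₀ hxp] at hn
  exact key n x hx hxρ hxd (by linarith)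

end Pool.Agent.MP099f24
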