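import Mathlib
import Pool.Agent.Lib.MP_099f24_an.LF.Chain

/-!
# Triple points from flatness: setup (fixed sectors)
-/

namespace Pool.Agent.MP099f24

open Filter Topology Set Metric
open scoped ComplexConjugate

/-- Data for the analysis of a triple point `p`: scale `ρ`, reference direction `a`, oriented
directions `D`. -/
structure TriData (K : Set ℂ) (p : ℂ) (r₀ c α ρ C₁ B δ q : ℝ) (a : ℂ) (D : ℂ → ℂ) : Prop where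
  c_pos : 0 < c
  c_le : c ≤ 1 / 20
  α_pos : 0 < α
  q_pos : 0 < q
  q_lt : q < 1
  δ_pos : 0 < δ
  δ_q : 2000 * δ ≤ 1 - q
  ρ_pos : 0 < ρ
  ρ_le : ρ ≤ r₀
  C₁_nn : 0 ≤ C₁
  B_nn : 0 ≤ B
  B_C₁ : 32 * C₁ ≤ B * (1 - (1 - c / 25) ^ α)
  C₁ρ : C₁ * ρ ^ α ≤ 1 / 2000
  Bρ : B * ρ ^ α ≤ 1 / 2000
  an : ‖a‖ = 1
  tri : ∀ ε : ℝ, 0 < ε → ∃ r₁ : ℝ, 0 < r₁ ∧ ∀ r : ℝ, 0 < r → r ≤ r₁ → ∃ e, TripodDir K p r ε e
  geo : ∀ x ∈ K, x ≠ p → ‖x - p‖ ≤ ρ → ∀ k : ℕ, FlatAt K x (c * ‖x - p‖ / 2 ^ k) (δ * q ^ k)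
  dir : ∀ x ∈ K, x ≠ p → ‖x - p‖ ≤ ρ → FlatDir K x (c * ‖x - p‖) (C₁ * ‖x - p‖ ^ α) (D x)
  ori : ∀ x ∈ K, x ≠ p → ‖x - p‖ ≤ ρ → 0 ≤ (D x * conj (x - p)).re
  rad : ∀ x ∈ K, x ≠ p → ‖x - p‖ ≤ ρ → ‖D x - (x - p) / ‖x - p‖‖ ≤ 1 / 10
  sec : ∀ r : ℝ, 0 < r → r ≤ ρ → ∃ e, TripodDir K p r (c / 40000) e ∧ ‖e - a‖ ≤ 1 / 20

private theorem tri_aux1 {C B x δ : ℝ} (hC : 0 ≤ C) (hB : 0 ≤ B) (hx : 0 ≤ x)
    (h : (C + B) * x ≤ δ) : C * x ≤ δ ∧ B * x ≤ δ := by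
  have h1 := mul_nonneg hC hx
  have h2 := mul_nonneg hB hx
  rw [add_mul] at h
  constructor <;> linarith

/-- powers are small near zero -/
theorem tri_small {α : ℝ} (hα : 0 < α) (M η b : ℝ) (hη : 0 < η) (hb : 0 < b) :
    ∃ r, 0 < r ∧ r ≤ b ∧ M * r ^ α ≤ η := by
  have hlim : Tendsto (fun r : ℝ => M * r ^ α) (𝓝[>] 0) (𝓝 0) := by
    have h1 : Tendsto (fun r : ℝ => r ^ α) (𝓝[>] 0) (𝓝 0) := by
      have := (Real.continuousAt_rpow_const 0 α (Or.inr hα.le)).tendsto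
      rw [Real.zero_rpow hα.ne'] at this
      exact this.mono_left nhdsWithin_le_nhds
    simpa using h1.const_mul M
  have h1 : ∀ᶠ r in 𝓝[>] (0 : ℝ), M * r ^ α < η := hlim.eventually (gt_mem_nhds hη)
  have h2 : ∀ᶠ r in 𝓝[>] (0 : ℝ), r ≤ b := mem_nhdsWithin_of_mem_nhds (Iic_mem_nhds hb)
  obtain ⟨r, h3, h4, h5⟩ := (h1.and (h2.and self_mem_nhdsWithin)).exists
  exact ⟨r, h5, h4, h3.le⟩

/-- comparison of directions with tripods -/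
theorem tri_cmp {K : Set ℂ} {p x e D : ℂ} {r d ε c w : ℝ} (h : TripodDir K p r ε e)
    (hx : x ∈ K) (hxd : ‖x - p‖ = d) (hd : 0 < d) (hr1 : 2 * d ≤ r) (hr2 : r ≤ 4 * d)
    (hc : 0 < c) (hc1 : c ≤ 1 / 20) (hε0 : 0 ≤ ε) (hε : 4000 * ε ≤ c) (hw : w ≤ 1 / 100)
    (hD : FlatDir K x (c * d) w D) (hor : 0 ≤ (D * conj (x - p)).re) :
    ∃ i : Fin 3, ‖(x - p) / (d : ℝ) - om3 ^ (i : ℕ) * e‖ ≤ 8 * ε ∧
      ‖D - om3 ^ (i : ℕ) * e‖ ≤ 48 * ε / c + 4 * w ∧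
      ‖(x - p) - (d : ℝ) * (om3 ^ (i : ℕ) * e)‖ ≤ 8 * (ε * d) := by
  obtain ⟨i, hi1, hi2⟩ := lf_tripod_dir h hx hxd hd hr1 hr2 hc hc1 hε0 hε hw hD hor
  have h3 : (x - p) - (d : ℝ) * (om3 ^ (i : ℕ) * e) =
      x - (p + (d : ℝ) * (om3 ^ (i : ℕ) * e)) := by ring
  refine ⟨i, ?_, hi2, by rw [h3]; exact hi1⟩
  have hd00 : ((d : ℝ) : ℂ) ≠ 0 := by exact_mod_cast hd.ne'
  have h4 : (x - p) / (d : ℝ) - om3 ^ (i : ℕ) * e =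
      ((x - p) - (d : ℝ) * (om3 ^ (i : ℕ) * e)) / (d : ℝ) := by
    field_simp
  rw [h4, norm_div, Complex.norm_real, Real.norm_eq_abs, abs_of_pos hd, div_le_iff₀ hd, h3]
  linarith

/-- the base point of the chains -/
private theorem tri_base {K : Set ℂ} {p e : ℂ} {ρ ε : ℝ} (hρ : 0 < ρ) (hε : ε ≤ 1 / 8)
    (he : TripodDir K p ρ ε e) : ∃ x₀ ∈ K, ρ / 4 ≤ ‖x₀ - p‖ ∧ ‖x₀ - p‖ ≤ ρ := by
  obtain ⟨y, hy, hyd⟩ := he.2.2 0 (ρ / 2) (by positivity) (by linarith)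
  have hn : ‖((ρ / 2 : ℝ) : ℂ) * (om3 ^ ((0 : Fin 3) : ℕ) * e)‖ = ρ / 2 := by
    rw [norm_mul, norm_mul, om3_pow_norm, he.1, Complex.norm_real, Real.norm_eq_abs,
      abs_of_pos (by positivity)]; ring
  have h3 := abs_norm_sub_norm_le (y - p) (((ρ / 2 : ℝ) : ℂ) * (om3 ^ ((0 : Fin 3) : ℕ) * e))
  rw [hn] at h3
  have h4 : y - p - ((ρ / 2 : ℝ) : ℂ) * (om3 ^ ((0 : Fin 3) : ℕ) * e) =
      y - (p + ((ρ / 2 : ℝ) : ℂ) * (om3 ^ ((0 : Fin 3) : ℕ) * e)) := by ring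
  rw [h4] at h3
  have h5 := abs_le.mp (h3.trans hyd)
  have h6 : ε * ρ ≤ 1 / 8 * ρ := mul_le_mul_of_nonneg_right hε hρ.le
  refine ⟨y, hy, ?_, ?_⟩
  · linarith [h5.1]
  · linarith [h5.2]

/-- existence of the data -/
theorem tri_data {K : Set ℂ} {p : ℂ} {r₀ c C₀ α : ℝ} (hr₀ : 0 < r₀) (hc : 0 < c)
    (hc1 : c ≤ 1 / 20) (hC₀ : 0 ≤ C₀) (hα : 0 < α)
    (H1 : ∀ ε : ℝ, 0 < ε → ∃ r₁ : ℝ, 0 < r₁ ∧ ∀ r : ℝ, 0 < r → r ≤ r₁ → ∃ e, TripodDir K p r ε e)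
    (H2 : ∀ x ∈ K, x ≠ p → ‖x - p‖ ≤ r₀ → ∀ r : ℝ, 0 < r → r ≤ c * ‖x - p‖ →
      FlatAt K x r (C₀ * r ^ α)) :
    ∃ (ρ C₁ B δ q : ℝ) (a : ℂ) (D : ℂ → ℂ), TriData K p r₀ c α ρ C₁ B δ q a D := by
  classical
  set q : ℝ := (1 / 2 : ℝ) ^ α with hq
  have hq0 : 0 < q := Real.rpow_pos_of_pos (by norm_num) _
  have hq1 : q < 1 := Real.rpow_lt_one (by norm_num) (by norm_num) hα
  set δ : ℝ := (1 - q) / 2000 with hδ
  have hδ0 : 0 < δ := by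
    rw [hδ]
    have : 0 < 1 - q := by linarith
    positivity
  have hδ1 : δ ≤ 1 / 2000 := by rw [hδ]; linarith
  set C₁ : ℝ := C₀ * c ^ α with hC₁
  have hC₁0 : 0 ≤ C₁ := mul_nonneg hC₀ (Real.rpow_nonneg hc.le _)
  set lam : ℝ := 1 - c / 25 with hlam
  have hlam0 : 0 < lam := by rw [hlam]; linarith
  have hlam1 : lam < 1 := by rw [hlam]; linarith
  have hlamα : lam ^ α < 1 := Real.rpow_lt_one hlam0.le hlam1 hα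
  set B : ℝ := 32 * C₁ / (1 - lam ^ α) with hB
  have hBpos : 0 < 1 - lam ^ α := by linarith
  have hB0 : 0 ≤ B := by positivity
  have hB1 : 32 * C₁ ≤ B * (1 - (1 - c / 25) ^ α) := by
    rw [hB, ← hlam, div_mul_cancel₀ _ hBpos.ne']
  set ε₀ : ℝ := c / 40000 with hε₀
  have hε₀0 : 0 < ε₀ := by positivity
  have hε₀1 : ε₀ ≤ 1 / 800000 := by rw [hε₀]; linarith
  have hε₀2 : 4000 * ε₀ ≤ c := by rw [hε₀]; linarith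
  have h48 : 48 * ε₀ / c ≤ 1 / 800 := by
    rw [hε₀]; field_simp; norm_num
  obtain ⟨r₁, hr₁, hTri⟩ := H1 ε₀ hε₀0
  obtain ⟨ρ, hρ0, hρb, hρM⟩ := tri_small hα (C₁ + B) δ (min r₀ (r₁ / 2)) hδ0 (by positivity)
  have hρr₀ : ρ ≤ r₀ := hρb.trans (min_le_left _ _)
  have hρr₁ : 2 * ρ ≤ r₁ := by have := hρb.trans (min_le_right _ _); linarith
  have hρα : 0 ≤ ρ ^ α := Real.rpow_nonneg hρ0.le _
  obtain ⟨hC₁ρ, hBρ⟩ := tri_aux1 hC₁0 hB0 hρα hρM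
  have hTri' : ∀ r : ℝ, 0 < r → r ≤ 2 * ρ → ∃ e, TripodDir K p r ε₀ e :=
    fun r h1 h2 => hTri r h1 (by linarith)
  have hpow : ∀ d : ℝ, 0 ≤ d → d ≤ ρ → C₁ * d ^ α ≤ δ := by
    intro d hd0 hd
    refine le_trans ?_ hC₁ρ
    exact mul_le_mul_of_nonneg_left (Real.rpow_le_rpow hd0 hd hα.le) hC₁0
  -- geometric flatness
  have H2geo : ∀ x ∈ K, x ≠ p → ‖x - p‖ ≤ ρ → ∀ k : ℕ,
      FlatAt K x (c * ‖x - p‖ / 2 ^ k) (δ * q ^ k) := by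
    intro x hx hxp hxρ k
    have hd0 : 0 < ‖x - p‖ := norm_pos_iff.mpr (sub_ne_zero.mpr hxp)
    have hrk : 0 < c * ‖x - p‖ / 2 ^ k := by positivity
    have h1 := H2 x hx hxp (by linarith) (c * ‖x - p‖ / 2 ^ k) hrk
      (div_le_self (by positivity) (one_le_pow₀ (by norm_num)))
    refine lf_FlatAt_mono hrk le_rfl ?_ h1
    apply mul_le_mul_of_nonneg_right _ hrk.le
    have h2 : C₀ * (c * ‖x - p‖ / 2 ^ k) ^ α = C₁ * ‖x - p‖ ^ α * q ^ k := by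
      have h3 : c * ‖x - p‖ / 2 ^ k = c * (‖x - p‖ * (1 / 2 : ℝ) ^ k) := by
        rw [one_div, inv_pow]; field_simp
      rw [h3, Real.mul_rpow hc.le (by positivity), Real.mul_rpow hd0.le (by positivity), hq,
        ← Real.rpow_natCast ((1 / 2 : ℝ) ^ α) k, ← Real.rpow_mul (by norm_num),
        ← Real.rpow_natCast (1 / 2 : ℝ) k, ← Real.rpow_mul (by norm_num), mul_comm (k : ℝ) α, hC₁]
      ring
    rw [h2]
    exact mul_le_mul_of_nonneg_right (hpow _ hd0.le hxρ) (by positivity)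
  -- directions
  have hDex : ∀ x ∈ K, x ≠ p → ‖x - p‖ ≤ ρ → ∃ D : ℂ,
      FlatDir K x (c * ‖x - p‖) (C₁ * ‖x - p‖ ^ α) D ∧ 0 ≤ (D * conj (x - p)).re := by
    intro x hx hxp hxρ
    have hd0 : 0 < ‖x - p‖ := norm_pos_iff.mpr (sub_ne_zero.mpr hxp)
    obtain ⟨D, hD⟩ := H2 x hx hxp (by linarith) (c * ‖x - p‖) (by positivity) le_rfl
    have h2 : C₀ * (c * ‖x - p‖) ^ α = C₁ * ‖x - p‖ ^ α := by
      rw [Real.mul_rpow hc.le hd0.le, hC₁]; ring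
    rw [h2] at hD
    rcases le_or_gt 0 (D * conj (x - p)).re with h | h
    · exact ⟨D, hD, h⟩
    · refine ⟨-D, lf_FlatDir_neg hD, ?_⟩
      rw [neg_mul, Complex.neg_re]; linarith
  choose! D hD hDor using hDex
  have hu : ∀ x ∈ K, x ≠ p → ‖x - p‖ ≤ ρ → ‖D x - (x - p) / ‖x - p‖‖ ≤ 1 / 10 := by
    intro x hx hxp hxρ
    have hd0 : 0 < ‖x - p‖ := norm_pos_iff.mpr (sub_ne_zero.mpr hxp)
    obtain ⟨e, he⟩ := hTri' (2 * ‖x - p‖) (by positivity) (by linarith)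
    have hw := hpow _ hd0.le hxρ
    obtain ⟨i, hi1, hi2, _⟩ := tri_cmp he hx rfl hd0 le_rfl (by linarith) hc hc1 hε₀0.le hε₀2
      (by linarith) (hD x hx hxp hxρ) (hDor x hx hxp hxρ)
    have : D x - (x - p) / ‖x - p‖ = (D x - om3 ^ (i : ℕ) * e) -
        ((x - p) / ‖x - p‖ - om3 ^ (i : ℕ) * e) := by ring
    rw [this]
    refine (norm_sub_le _ _).trans ?_
    linarith
  -- the base point
  obtain ⟨x₀, hx₀, hx₀1, hx₀2⟩ : ∃ x₀ ∈ K, ρ / 4 ≤ ‖x₀ - p‖ ∧ ‖x₀ - p‖ ≤ ρ := by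
    obtain ⟨e, he⟩ := hTri' ρ hρ0 (by linarith)
    exact tri_base hρ0 (by linarith) he
  have hx₀p : x₀ ≠ p := by
    intro h; rw [h, sub_self, norm_zero] at hx₀1; linarith
  have hchain := fun (d' : ℝ) (hd' : 0 < d') => lf_chain hc hc1 hC₁0 hα (by linarith) hD hu hB1
      hd' hx₀ hx₀2
  refine ⟨ρ, C₁, B, δ, q, D x₀, D, hc, hc1, hα, hq0, hq1, hδ0, by rw [hδ]; linarith, hρ0, hρr₀,
    hC₁0, hB0, hB1, by linarith, by linarith, (hD x₀ hx₀ hx₀p hx₀2).1, H1, H2geo, hD, hDor, hu, ?_⟩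
  -- fixed sectors
  intro r hr hrρ
  obtain ⟨e, he⟩ := hTri' r hr (by linarith)
  obtain ⟨x', hx', h1, h2, h3⟩ := hchain (r / 4) (by positivity) (by linarith)
  have hx'p : x' ≠ p := by
    intro h; rw [h, sub_self, norm_zero] at h1; linarith
  have hx'ρ : ‖x' - p‖ ≤ ρ := by linarith
  have hw := hpow _ (norm_nonneg (x' - p)) hx'ρ
  obtain ⟨i, hi1, hi2, _⟩ := tri_cmp he hx' rfl (by linarith : 0 < ‖x' - p‖) (by linarith)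
    (by linarith) hc hc1 hε₀0.le hε₀2 (by linarith) (hD x' hx' hx'p hx'ρ) (hDor x' hx' hx'p hx'ρ)
  refine ⟨om3 ^ (i : ℕ) * e, lf_tripod_rot_pow he i, ?_⟩
  have h4 : B * ‖x₀ - p‖ ^ α ≤ δ := by
    refine le_trans ?_ hBρ
    exact mul_le_mul_of_nonneg_left (Real.rpow_le_rpow (norm_nonneg _) hx₀2 hα.le) hB0
  have h5 : om3 ^ (i : ℕ) * e - D x₀ = (D x' - D x₀) - (D x' - om3 ^ (i : ℕ) * e) := by
    ring
  rw [h5]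
  refine (norm_sub_le _ _).trans ?_
  linarith

end Pool.Agent.MP099f24
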