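import Mathlib
import Pool.Agent.Lib.MP_099f24_an.LF.TriData
import Pool.Agent.Lib.MP_099f24_an.LF.Arm

/-!
# Triple points from flatness: the three arms
-/

namespace Pool.Agent.MP099f24

open Filter Topology Set Metric
open scoped ComplexConjugate

/-- the sector around the direction `om3 ^ i * a` -/
def triSec (p a : ℂ) (i : Fin 3) : Set ℂ :=
  {x | 4 / 5 * ‖x - p‖ ≤ ((x - p) * conj (om3 ^ (i : ℕ) * a)).re}

theorem triSec_closed (p a : ℂ) (i : Fin 3) : IsClosed (triSec p a i) :=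
  isClosed_le (by fun_prop) (Complex.continuous_re.comp (by fun_prop))

theorem triSec_self (p a : ℂ) (i : Fin 3) : p ∈ triSec p a i := by
  show 4 / 5 * ‖p - p‖ ≤ ((p - p) * conj (om3 ^ (i : ℕ) * a)).re
  simp

private theorem ta_inner_close {e a : ℂ} (he : ‖e‖ = 1) (ha : ‖a‖ = 1) (h : ‖e - a‖ ≤ 1 / 20) :
    799 / 800 ≤ (e * conj a).re := by
  have h7 : ‖e - a‖ ^ 2 = 2 - 2 * (e * conj a).re := by
    rw [Complex.sq_norm, Complex.normSq_sub, ← Complex.sq_norm, ← Complex.sq_norm, he, ha]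
    ring
  nlinarith [norm_nonneg (e - a)]

/-- the real part of a point near arm `j` in the direction of arm `i` -/
private theorem ta_re {e a y : ℂ} (he : ‖e‖ = 1) (ha : ‖a‖ = 1) (h : ‖e - a‖ ≤ 1 / 20)
    {t η : ℝ} (ht : 0 ≤ t) (i j : Fin 3) (hy : ‖y - (t : ℂ) * (om3 ^ (j : ℕ) * e)‖ ≤ η) :
    (i = j → 799 / 800 * t - η ≤ (y * conj (om3 ^ (i : ℕ) * a)).re) ∧
    (i ≠ j → (y * conj (om3 ^ (i : ℕ) * a)).re ≤ -(9 / 20) * t + η) := by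
  have hai : ‖om3 ^ (i : ℕ) * a‖ = 1 := by rw [norm_mul, om3_pow_norm, ha, mul_one]
  have h1 : (y * conj (om3 ^ (i : ℕ) * a)).re =
      t * (om3 ^ (j : ℕ) * e * conj (om3 ^ (i : ℕ) * a)).re +
      ((y - (t : ℂ) * (om3 ^ (j : ℕ) * e)) * conj (om3 ^ (i : ℕ) * a)).re := by
    have h2 : y * conj (om3 ^ (i : ℕ) * a) =
        ((t : ℝ) : ℂ) * (om3 ^ (j : ℕ) * e * conj (om3 ^ (i : ℕ) * a)) +
        (y - (t : ℂ) * (om3 ^ (j : ℕ) * e)) * conj (om3 ^ (i : ℕ) * a) := by ring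
    rw [h2, Complex.add_re, Complex.re_ofReal_mul]
  have h2 : |((y - (t : ℂ) * (om3 ^ (j : ℕ) * e)) * conj (om3 ^ (i : ℕ) * a)).re| ≤ η := by
    refine (Complex.abs_re_le_norm _).trans ?_
    rw [norm_mul, RCLike.norm_conj, hai, mul_one]; exact hy
  rw [abs_le] at h2
  constructor
  · intro hij
    subst hij
    have h3 : om3 ^ (i : ℕ) * e * conj (om3 ^ (i : ℕ) * a) = e * conj a := by
      have h4 : om3 ^ (i : ℕ) * conj (om3 ^ (i : ℕ)) = 1 := by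
        rw [Complex.mul_conj, Complex.normSq_eq_norm_sq, om3_pow_norm]; simp
      rw [map_mul]
      linear_combination (e * conj a) * h4
    have h5 := ta_inner_close he ha h
    rw [h1, h3]
    have := mul_le_mul_of_nonneg_left h5 ht
    linarith [h2.1]
  · intro hij
    have h3 : om3 ^ (j : ℕ) * e * conj (om3 ^ (i : ℕ) * a) =
        om3 ^ (j : ℕ) * conj (om3 ^ (i : ℕ)) + om3 ^ (j : ℕ) * (e - a) * conj (om3 ^ (i : ℕ) * a) := by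
      have h4 : a * conj a = 1 := by
        rw [Complex.mul_conj, Complex.normSq_eq_norm_sq, ha]; simp
      rw [map_mul]
      linear_combination (om3 ^ (j : ℕ) * conj (om3 ^ (i : ℕ))) * h4
    have h5 : |(om3 ^ (j : ℕ) * (e - a) * conj (om3 ^ (i : ℕ) * a)).re| ≤ 1 / 20 := by
      refine (Complex.abs_re_le_norm _).trans ?_
      rw [norm_mul, RCLike.norm_conj, hai, mul_one, norm_mul, om3_pow_norm, one_mul]; exact h
    have h6 : (om3 ^ (j : ℕ) * e * conj (om3 ^ (i : ℕ) * a)).re ≤ -(9 / 20) := by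
      rw [h3, Complex.add_re, om3_arms (Ne.symm hij)]
      linarith [(abs_le.mp h5).2]
    rw [h1]
    have := mul_le_mul_of_nonneg_left h6 ht
    linarith [h2.2]

section
variable {K : Set ℂ} {p : ℂ} {r₀ c α ρ C₁ B δ q : ℝ} {a : ℂ} {D : ℂ → ℂ}

theorem TriData.cmp (h : TriData K p r₀ c α ρ C₁ B δ q a D) {x : ℂ} (hx : x ∈ K) (hxp : x ≠ p)
    (hxρ : ‖x - p‖ ≤ ρ) {r ε : ℝ} {e : ℂ} (hε0 : 0 ≤ ε) (hε : 4000 * ε ≤ c)
    (h1 : 2 * ‖x - p‖ ≤ r) (h2 : r ≤ 4 * ‖x - p‖) (hT : TripodDir K p r ε e) :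
    ∃ i : Fin 3, ‖(x - p) / ‖x - p‖ - om3 ^ (i : ℕ) * e‖ ≤ 8 * ε ∧
      ‖D x - om3 ^ (i : ℕ) * e‖ ≤ 48 * ε / c + 4 * (C₁ * ‖x - p‖ ^ α) ∧
      ‖(x - p) - (‖x - p‖ : ℝ) * (om3 ^ (i : ℕ) * e)‖ ≤ 8 * (ε * ‖x - p‖) := by
  have hd0 : 0 < ‖x - p‖ := norm_pos_iff.mpr (sub_ne_zero.mpr hxp)
  have hw : C₁ * ‖x - p‖ ^ α ≤ 1 / 100 := by
    have h3 : C₁ * ‖x - p‖ ^ α ≤ C₁ * ρ ^ α :=
      mul_le_mul_of_nonneg_left (Real.rpow_le_rpow hd0.le hxρ h.α_pos.le) h.C₁_nn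
    linarith [h.C₁ρ]
  exact tri_cmp hT hx rfl hd0 h1 h2 h.c_pos h.c_le hε0 hε hw (h.dir x hx hxp hxρ)
    (h.ori x hx hxp hxρ)

/-- points of `K` near `p` lie in exactly one sector, with a margin -/
theorem TriData.near (h : TriData K p r₀ c α ρ C₁ B δ q a D) {x : ℂ} (hx : x ∈ K) (hxp : x ≠ p)
    (hxρ : 2 * ‖x - p‖ ≤ ρ) : ∃ i : Fin 3,
      49 / 50 * ‖x - p‖ ≤ ((x - p) * conj (om3 ^ (i : ℕ) * a)).re ∧
      ∀ j : Fin 3, x ∈ triSec p a j → j = i := by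
  have hd0 : 0 < ‖x - p‖ := norm_pos_iff.mpr (sub_ne_zero.mpr hxp)
  obtain ⟨e, he, hea⟩ := h.sec (2 * ‖x - p‖) (by positivity) (by linarith)
  have hc := h.c_pos
  have hc1 := h.c_le
  obtain ⟨i, _, _, hi3⟩ := h.cmp hx hxp (by linarith) (by positivity) (by linarith) le_rfl
    (by linarith) he
  have hcd : c / 40000 * ‖x - p‖ ≤ 1 / 800000 * ‖x - p‖ :=
    mul_le_mul_of_nonneg_right (by linarith) hd0.le
  refine ⟨i, ?_, ?_⟩
  · have h1 := (ta_re he.1 h.an hea hd0.le i i hi3).1 rfl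
    linarith
  · intro j hj
    by_contra hne
    have h1 := (ta_re he.1 h.an hea hd0.le j i hi3).2 hne
    have h2 : 4 / 5 * ‖x - p‖ ≤ ((x - p) * conj (om3 ^ (j : ℕ) * a)).re := hj
    linarith

theorem TriData.margin (h : TriData K p r₀ c α ρ C₁ B δ q a D) {i : Fin 3} {x : ℂ} (hx : x ∈ K)
    (hxS : x ∈ triSec p a i) (hxρ : 2 * ‖x - p‖ ≤ ρ) :
    49 / 50 * ‖x - p‖ ≤ ((x - p) * conj (om3 ^ (i : ℕ) * a)).re := by
  by_cases hxp : x = p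
  · rw [hxp]; simp
  obtain ⟨j, hj1, hj2⟩ := h.near hx hxp hxρ
  rw [hj2 i hxS]; exact hj1

theorem TriData.diru (h : TriData K p r₀ c α ρ C₁ B δ q a D) {i : Fin 3} {x : ℂ} (hx : x ∈ K)
    (hxS : x ∈ triSec p a i) (hxp : x ≠ p) (hxρ : 2 * ‖x - p‖ ≤ ρ) :
    ‖(x - p) / ‖x - p‖ - om3 ^ (i : ℕ) * a‖ ≤ 1 / 5 := by
  have hd0 : 0 < ‖x - p‖ := norm_pos_iff.mpr (sub_ne_zero.mpr hxp)
  have h1 := h.margin hx hxS hxρ
  have hun : ‖(x - p) / (‖x - p‖ : ℝ)‖ = 1 := by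
    rw [norm_div, Complex.norm_real, Real.norm_eq_abs, abs_of_pos hd0, div_self hd0.ne']
  have hai : ‖om3 ^ (i : ℕ) * a‖ = 1 := by rw [norm_mul, om3_pow_norm, h.an, mul_one]
  have h2 : ((x - p) / (‖x - p‖ : ℝ) * conj (om3 ^ (i : ℕ) * a)).re =
      ((x - p) * conj (om3 ^ (i : ℕ) * a)).re / ‖x - p‖ := by
    rw [div_mul_eq_mul_div, Complex.div_ofReal_re]
  have h3 : 49 / 50 ≤ ((x - p) / (‖x - p‖ : ℝ) * conj (om3 ^ (i : ℕ) * a)).re := by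
    rw [h2, le_div_iff₀ hd0]; exact h1
  have h7 : ‖(x - p) / (‖x - p‖ : ℝ) - om3 ^ (i : ℕ) * a‖ ^ 2 =
      2 - 2 * ((x - p) / (‖x - p‖ : ℝ) * conj (om3 ^ (i : ℕ) * a)).re := by
    rw [Complex.sq_norm, Complex.normSq_sub, ← Complex.sq_norm, ← Complex.sq_norm, hun, hai]
    ring
  nlinarith [norm_nonneg ((x - p) / (‖x - p‖ : ℝ) - om3 ^ (i : ℕ) * a)]

/-- closeness of a sector part of `K` to a ray -/
theorem TriData.ray (h : TriData K p r₀ c α ρ C₁ B δ q a D) (hp : p ∈ K) (i : Fin 3) {r : ℝ}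
    (hr : 0 < r) (hrρ : r ≤ ρ) : ∃ e, RayDir (K ∩ triSec p a i) p r (c / 4000) e := by
  obtain ⟨e, he, hea⟩ := h.sec r hr hrρ
  have hc := h.c_pos
  have hc1 := h.c_le
  set ε₀ : ℝ := c / 40000 with hε₀
  have hε₀0 : 0 < ε₀ := by positivity
  have h10 : c / 4000 = 10 * ε₀ := by rw [hε₀]; ring
  have hεr : 0 < ε₀ * r := by positivity
  rw [h10]
  refine ⟨om3 ^ (i : ℕ) * e, by rw [norm_mul, om3_pow_norm, he.1, mul_one], ?_, ?_⟩
  · rintro y ⟨hy, hyS⟩ hyr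
    obtain ⟨j, t, ht, hyt⟩ := he.2.1 y hy hyr
    by_cases hij : i = j
    · refine ⟨t, ht, ?_⟩
      rw [hij]
      refine hyt.trans ?_
      linarith
    · refine ⟨0, le_rfl, ?_⟩
      have h1 : ‖(y - p) - (t : ℂ) * (om3 ^ (j : ℕ) * e)‖ ≤ ε₀ * r := by
        have : (y - p) - (t : ℂ) * (om3 ^ (j : ℕ) * e) =
            y - (p + (t : ℂ) * (om3 ^ (j : ℕ) * e)) := by ring
        rw [this]; exact hyt
      have h2 := (ta_re he.1 h.an hea ht i j h1).2 hij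
      have h3 : 4 / 5 * ‖y - p‖ ≤ ((y - p) * conj (om3 ^ (i : ℕ) * a)).re := hyS
      rw [Complex.ofReal_zero, zero_mul, add_zero]
      linarith
  · intro t ht htr
    by_cases htε : 10 * ε₀ * r ≤ t
    · obtain ⟨y, hy, hyd⟩ := he.2.2 i t ht htr
      have h1 : ‖(y - p) - (t : ℂ) * (om3 ^ (i : ℕ) * e)‖ ≤ ε₀ * r := by
        have : (y - p) - (t : ℂ) * (om3 ^ (i : ℕ) * e) =
            y - (p + (t : ℂ) * (om3 ^ (i : ℕ) * e)) := by ring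
        rw [this]; exact hyd
      have h2 := (ta_re he.1 h.an hea ht i i h1).1 rfl
      have h3 : ‖y - p‖ ≤ t + ε₀ * r := by
        have h4 : y - p = ((y - p) - (t : ℂ) * (om3 ^ (i : ℕ) * e)) +
            (t : ℂ) * (om3 ^ (i : ℕ) * e) := by ring
        rw [h4]
        refine (norm_add_le _ _).trans ?_
        rw [norm_mul, norm_mul, om3_pow_norm, he.1, Complex.norm_real, Real.norm_eq_abs,
          abs_of_nonneg ht]
        linarith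
      refine ⟨y, ⟨hy, ?_⟩, hyd.trans (by linarith)⟩
      show 4 / 5 * ‖y - p‖ ≤ ((y - p) * conj (om3 ^ (i : ℕ) * a)).re
      linarith
    · push Not at htε
      refine ⟨p, ⟨hp, triSec_self p a i⟩, ?_⟩
      have h1 : p - (p + (t : ℂ) * (om3 ^ (i : ℕ) * e)) = -((t : ℂ) * (om3 ^ (i : ℕ) * e)) := by
        ring
      rw [h1, norm_neg, norm_mul, norm_mul, om3_pow_norm, he.1, Complex.norm_real,
        Real.norm_eq_abs, abs_of_nonneg ht]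
      linarith

/-- flatness of a sector part of `K` -/
theorem TriData.flat (h : TriData K p r₀ c α ρ C₁ B δ q a D) (i : Fin 3) {x : ℂ}
    (hx : x ∈ K ∩ triSec p a i) (hxp : x ≠ p) (hxρ : 2 * ‖x - p‖ ≤ ρ) (k : ℕ) :
    FlatAt (K ∩ triSec p a i) x (c * ‖x - p‖ / 2 ^ k) (δ * q ^ k) := by
  have hd0 : 0 < ‖x - p‖ := norm_pos_iff.mpr (sub_ne_zero.mpr hxp)
  have hc := h.c_pos
  have hc1 := h.c_le
  have hmar := h.margin hx.1 hx.2 hxρ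
  obtain ⟨e, he⟩ := h.geo x hx.1 hxp (by linarith) k
  refine ⟨e, he.1, fun y hy hyr => he.2.1 y hy.1 hyr, ?_⟩
  intro t ht
  obtain ⟨y, hy, hyd⟩ := he.2.2 t ht
  refine ⟨y, ⟨hy, ?_⟩, hyd⟩
  have hrk : c * ‖x - p‖ / 2 ^ k ≤ ‖x - p‖ / 20 := by
    have h1 : c * ‖x - p‖ / 2 ^ k ≤ c * ‖x - p‖ :=
      div_le_self (by positivity) (one_le_pow₀ (by norm_num))
    have h2 : c * ‖x - p‖ ≤ 1 / 20 * ‖x - p‖ := mul_le_mul_of_nonneg_right hc1 hd0.le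
    linarith
  have hrk0 : 0 < c * ‖x - p‖ / 2 ^ k := by positivity
  have hqk : q ^ k ≤ 1 := pow_le_one₀ h.q_pos.le h.q_lt.le
  have hδq : δ * q ^ k ≤ 1 / 2000 := by
    have h1 : δ * q ^ k ≤ δ * 1 := mul_le_mul_of_nonneg_left hqk h.δ_pos.le
    linarith [h.δ_q, h.q_pos]
  have hδ2 : δ * q ^ k * (c * ‖x - p‖ / 2 ^ k) ≤ 1 / 2000 * (‖x - p‖ / 20) :=
    mul_le_mul hδq hrk hrk0.le (by norm_num)
  have hyx : ‖y - x‖ ≤ 51 / 1000 * ‖x - p‖ := by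
    have h1 : y - x = (y - (x + (t : ℂ) * e)) + (t : ℂ) * e := by ring
    rw [h1]
    refine (norm_add_le _ _).trans ?_
    rw [norm_mul, he.1, Complex.norm_real, Real.norm_eq_abs, mul_one]
    linarith
  have hai : ‖om3 ^ (i : ℕ) * a‖ = 1 := by rw [norm_mul, om3_pow_norm, h.an, mul_one]
  have h2 : ((y - p) * conj (om3 ^ (i : ℕ) * a)).re =
      ((x - p) * conj (om3 ^ (i : ℕ) * a)).re + ((y - x) * conj (om3 ^ (i : ℕ) * a)).re := by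
    rw [← Complex.add_re]; congr 1; ring
  have h3 : |((y - x) * conj (om3 ^ (i : ℕ) * a)).re| ≤ ‖y - x‖ := by
    refine (Complex.abs_re_le_norm _).trans ?_
    rw [norm_mul, RCLike.norm_conj, hai, mul_one]
  have h4 : ‖y - p‖ ≤ ‖y - x‖ + ‖x - p‖ := by
    have : y - p = (y - x) + (x - p) := by ring
    rw [this]; exact norm_add_le _ _
  show 4 / 5 * ‖y - p‖ ≤ ((y - p) * conj (om3 ^ (i : ℕ) * a)).re
  rw [h2]
  have := (abs_le.mp h3).1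
  linarith

/-- the three arms -/
theorem TriData.arms (h : TriData K p r₀ c α ρ C₁ B δ q a D) (hp : p ∈ K)
    (hK : IsClosed (K ∩ closedBall p r₀)) :
    ∃ γ : Fin 3 → ℝ → ℂ, ∀ i : Fin 3, γ i 0 = p ∧
      (∀ d : ℝ, 0 ≤ d → d ≤ ρ / 4 → (γ i d ∈ K ∧ γ i d ∈ triSec p a i) ∧ ‖γ i d - p‖ = d) ∧
      (∀ x ∈ K, x ∈ triSec p a i → ‖x - p‖ ≤ ρ / 4 → x = γ i ‖x - p‖) ∧
      ∀ d : ℝ, 0 < d → d ≤ ρ / 4 → ContDiffAt ℝ 1 (γ i) d := by
  have hρ := h.ρ_pos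
  have hρr := h.ρ_le
  have hc := h.c_pos
  have hc1 := h.c_le
  have hq0 := h.q_pos
  have hδq := h.δ_q
  have hδ0 := h.δ_pos
  have key : ∀ i : Fin 3, ∃ γ : ℝ → ℂ, γ 0 = p ∧
      (∀ d : ℝ, 0 ≤ d → d ≤ ρ / 2 / 2 → γ d ∈ K ∩ triSec p a i ∧ ‖γ d - p‖ = d) ∧
      (∀ x ∈ K ∩ triSec p a i, ‖x - p‖ ≤ ρ / 2 / 2 → x = γ ‖x - p‖) ∧
      ∀ d : ℝ, 0 < d → d ≤ ρ / 2 / 2 → ContDiffAt ℝ 1 γ d := by
    intro i
    apply lf_arm (r₀ := ρ / 2) (c := c) (ε := c / 4000) (δ := δ) (q := q) (by positivity) hc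
      (by linarith) hq0 h.q_lt hδ0.le (by linarith) (by positivity) (by linarith)
    · have : (K ∩ triSec p a i) ∩ closedBall p (ρ / 2) =
          ((K ∩ closedBall p r₀) ∩ triSec p a i) ∩ closedBall p (ρ / 2) := by
        ext y
        simp only [mem_inter_iff, mem_closedBall]
        constructor
        · rintro ⟨⟨a, b⟩, d⟩; exact ⟨⟨⟨a, by linarith⟩, b⟩, d⟩
        · rintro ⟨⟨⟨a, _⟩, b⟩, d⟩; exact ⟨⟨a, b⟩, d⟩
      rw [this]
      exact (hK.inter (triSec_closed p a i)).inter isClosed_closedBall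
    · exact ⟨hp, triSec_self p a i⟩
    · intro r hr hrρ
      exact h.ray hp i hr (by linarith)
    · intro x hx hxp hxρ k
      exact h.flat i hx hxp (by linarith) k
  choose γ hγ0 hγ1 hγ2 hγ3 using key
  have hρ4 : ρ / 2 / 2 = ρ / 4 := by ring
  rw [hρ4] at hγ1 hγ2 hγ3
  exact ⟨γ, fun i => ⟨hγ0 i, hγ1 i, fun x hx hxS => hγ2 i x ⟨hx, hxS⟩, hγ3 i⟩⟩

end

end Pool.Agent.MP099f24
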