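import Mathlib
import Pool.Agent.Lib.MP_099f24_an.LF.TriArms

/-!
# Triple points from flatness: limits of the directions of the arms
-/

namespace Pool.Agent.MP099f24

open Filter Topology Set Metric
open scoped ComplexConjugate

section
variable {K : Set ℂ} {p : ℂ} {r₀ c α ρ C₁ B δ q : ℝ} {a : ℂ} {D : ℂ → ℂ}

/-- unit vectors close to `A`, `A'` -/
private theorem tl_inner {u v A A' : ℂ} {ε : ℝ} (hu : ‖u‖ = 1) (hA' : ‖A'‖ = 1)
    (h1 : ‖u - A‖ ≤ ε) (h2 : ‖v - A'‖ ≤ ε) (h : (A * conj A').re = -(1 / 2)) :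
    |(u * conj v).re + 1 / 2| ≤ 2 * ε := by
  have h3 : u * conj v = A * conj A' + (u - A) * conj A' + u * conj (v - A') := by
    rw [map_sub]; ring
  rw [h3, Complex.add_re, Complex.add_re, h]
  have h4 : |((u - A) * conj A').re| ≤ ε := by
    refine (Complex.abs_re_le_norm _).trans ?_
    rw [norm_mul, RCLike.norm_conj, hA', mul_one]; exact h1
  have h5 : |(u * conj (v - A')).re| ≤ ε := by
    refine (Complex.abs_re_le_norm _).trans ?_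
    rw [norm_mul, RCLike.norm_conj, hu, one_mul]; exact h2
  have h6 : -(1 / 2) + ((u - A) * conj A').re + (u * conj (v - A')).re + 1 / 2 =
      ((u - A) * conj A').re + (u * conj (v - A')).re := by ring
  rw [h6]
  refine (abs_add_le _ _).trans ?_
  linarith

/-- if `u, v` are close to the arms `i, j` of a tripod and to different fixed directions, then
`i ≠ j`; if they are close to the same fixed direction, then `i = j` -/
private theorem tl_arm_ne {u v e a : ℂ} {i j k l : Fin 3} (hkl : k ≠ l) (ha : ‖a‖ = 1)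
    (hi : ‖u - om3 ^ (i : ℕ) * e‖ ≤ 1 / 40) (hj : ‖v - om3 ^ (j : ℕ) * e‖ ≤ 1 / 40)
    (hk : ‖u - om3 ^ (k : ℕ) * a‖ ≤ 1 / 5) (hl : ‖v - om3 ^ (l : ℕ) * a‖ ≤ 1 / 5) : i ≠ j := by
  intro hij
  rw [hij] at hi
  have h1 : ‖u - v‖ ≤ 1 / 20 := by
    have : u - v = (u - om3 ^ (j : ℕ) * e) - (v - om3 ^ (j : ℕ) * e) := by ring
    rw [this]
    refine (norm_sub_le _ _).trans ?_
    linarith
  have h2 := om3_sep hkl ha (s := 1) (t := 1) (by norm_num) (by norm_num)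
  have h3 : ((1 : ℝ) : ℂ) * (om3 ^ (k : ℕ) * a) - ((1 : ℝ) : ℂ) * (om3 ^ (l : ℕ) * a) =
      (u - v) - (u - om3 ^ (k : ℕ) * a) + (v - om3 ^ (l : ℕ) * a) := by
    push_cast; ring
  rw [h3] at h2
  have h4 := norm_add_le ((u - v) - (u - om3 ^ (k : ℕ) * a)) (v - om3 ^ (l : ℕ) * a)
  have h5 := norm_sub_le (u - v) (u - om3 ^ (k : ℕ) * a)
  linarith

private theorem tl_arm_eq {u v e : ℂ} {i j : Fin 3} (he : ‖e‖ = 1) {η : ℝ} (hη : η ≤ 1 / 2)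
    (hi : ‖u - om3 ^ (i : ℕ) * e‖ ≤ 1 / 40) (hj : ‖v - om3 ^ (j : ℕ) * e‖ ≤ 1 / 40)
    (huv : ‖u - v‖ ≤ η) : i = j := by
  by_contra hne
  have h2 := om3_sep hne he (s := 1) (t := 1) (by norm_num) (by norm_num)
  have h3 : ((1 : ℝ) : ℂ) * (om3 ^ (i : ℕ) * e) - ((1 : ℝ) : ℂ) * (om3 ^ (j : ℕ) * e) =
      (u - v) - (u - om3 ^ (i : ℕ) * e) + (v - om3 ^ (j : ℕ) * e) := by
    push_cast; ring
  rw [h3] at h2
  have h4 := norm_add_le ((u - v) - (u - om3 ^ (i : ℕ) * e)) (v - om3 ^ (j : ℕ) * e)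
  have h5 := norm_sub_le (u - v) (u - om3 ^ (i : ℕ) * e)
  linarith

/-- small scale data -/
private theorem tl_scale (h : TriData K p r₀ c α ρ C₁ B δ q a D) {η : ℝ} (hη : 0 < η)
    (hη1 : η ≤ 1 / 20) : ∃ ε s₁ : ℝ, 0 < ε ∧ 4000 * ε ≤ c ∧ 48 * ε / c ≤ η / 40 ∧ 16 * ε ≤ η / 40 ∧
      0 < s₁ ∧ s₁ ≤ ρ / 8 ∧ (∀ r : ℝ, 0 < r → r ≤ 4 * s₁ → ∃ e, TripodDir K p r ε e) ∧
      (∀ d : ℝ, 0 ≤ d → d ≤ 2 * s₁ → 4 * (C₁ * d ^ α) ≤ η / 40) ∧
      ∀ d : ℝ, 0 ≤ d → d ≤ s₁ → B * d ^ α ≤ η / 40 := by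
  have hc := h.c_pos
  have hc1 := h.c_le
  have hα := h.α_pos
  have hC₁ := h.C₁_nn
  have hB := h.B_nn
  have hρ := h.ρ_pos
  set ε : ℝ := η * c / 4000 with hε
  have hε0 : 0 < ε := by positivity
  have hηc : η * c ≤ 1 / 20 * c := mul_le_mul_of_nonneg_right hη1 hc.le
  have hηc2 : η * c ≤ η * (1 / 20) := mul_le_mul_of_nonneg_left hc1 hη.le
  obtain ⟨r₂, hr₂, hTri2⟩ := h.tri ε hε0
  obtain ⟨s₁, hs₁0, hs₁b, hs₁M⟩ := tri_small hα (4 * C₁ * 2 ^ α + B) (η / 40)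
    (min (ρ / 8) (r₂ / 4)) (by positivity) (by positivity)
  have hs₁1 : s₁ ≤ ρ / 8 := hs₁b.trans (min_le_left _ _)
  have hs₁2 : 4 * s₁ ≤ r₂ := by have := hs₁b.trans (min_le_right _ _); linarith
  have hs₁α : 0 ≤ s₁ ^ α := Real.rpow_nonneg hs₁0.le _
  have h2α : (0:ℝ) < 2 ^ α := Real.rpow_pos_of_pos (by norm_num) _
  have hA : 0 ≤ 4 * C₁ * 2 ^ α * s₁ ^ α := by positivity
  have hB' : 0 ≤ B * s₁ ^ α := mul_nonneg hB hs₁α
  rw [add_mul] at hs₁M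
  refine ⟨ε, s₁, hε0, by rw [hε]; linarith, ?_, by rw [hε]; linarith, hs₁0, hs₁1,
    fun r h1 h2 => hTri2 r h1 (by linarith), ?_, ?_⟩
  · rw [hε, div_le_iff₀ hc]; linarith
  · intro d hd0 hd
    have h1 : d ^ α ≤ 2 ^ α * s₁ ^ α := by
      rw [← Real.mul_rpow (by norm_num) hs₁0.le]
      exact Real.rpow_le_rpow hd0 hd hα.le
    have h2 : C₁ * d ^ α ≤ C₁ * (2 ^ α * s₁ ^ α) := mul_le_mul_of_nonneg_left h1 hC₁
    linarith
  · intro d hd0 hd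
    have h2 : B * d ^ α ≤ B * s₁ ^ α :=
      mul_le_mul_of_nonneg_left (Real.rpow_le_rpow hd0 hd hα.le) hB
    linarith

/-- unit vector of a nonzero difference -/
private theorem tl_unit {x : ℂ} (hxp : x ≠ p) : ‖(x - p) / (‖x - p‖ : ℝ)‖ = 1 := by
  have hd0 : 0 < ‖x - p‖ := norm_pos_iff.mpr (sub_ne_zero.mpr hxp)
  rw [norm_div, Complex.norm_real, Real.norm_eq_abs, abs_of_pos hd0, div_self hd0.ne']

/-- estimate at one point -/
private theorem tl_point (h : TriData K p r₀ c α ρ C₁ B δ q a D) {η ε s₁ : ℝ} (hε0 : 0 < ε)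
    (hε : 4000 * ε ≤ c) (hεc : 48 * ε / c ≤ η / 40) (hε8 : 16 * ε ≤ η / 40)
    (hCs : ∀ d : ℝ, 0 ≤ d → d ≤ 2 * s₁ → 4 * (C₁ * d ^ α) ≤ η / 40) {x : ℂ} (hx : x ∈ K)
    (hxp : x ≠ p) (hxρ : ‖x - p‖ ≤ ρ) (hxs : ‖x - p‖ ≤ 2 * s₁) {r : ℝ} {e : ℂ}
    (h1 : 2 * ‖x - p‖ ≤ r) (h2 : r ≤ 4 * ‖x - p‖) (hT : TripodDir K p r ε e) :
    ∃ i : Fin 3, ‖(x - p) / ‖x - p‖ - om3 ^ (i : ℕ) * e‖ ≤ 8 * ε ∧
      ‖D x - (x - p) / ‖x - p‖‖ ≤ 3 * (η / 40) := by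
  obtain ⟨i, hi1, hi2, _⟩ := h.cmp hx hxp hxρ hε0.le hε h1 h2 hT
  refine ⟨i, hi1, ?_⟩
  have h4 : D x - (x - p) / ‖x - p‖ = (D x - om3 ^ (i : ℕ) * e) -
      ((x - p) / ‖x - p‖ - om3 ^ (i : ℕ) * e) := by ring
  rw [h4]
  refine (norm_sub_le _ _).trans ?_
  have := hCs ‖x - p‖ (norm_nonneg _) hxs
  linarith

/-- angles between two arms -/
private theorem tl_angle (h : TriData K p r₀ c α ρ C₁ B δ q a D) {ε : ℝ} (hε0 : 0 < ε)
    (hε : 4000 * ε ≤ c) {s : ℝ} (hs : 0 < s) (hsρ : 2 * s ≤ ρ) {e : ℂ}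
    (hT : TripodDir K p (2 * s) ε e) {k l : Fin 3} (hkl : k ≠ l) {x y : ℂ} (hx : x ∈ K)
    (hxS : x ∈ triSec p a k) (hxs : ‖x - p‖ = s) (hy : y ∈ K) (hyS : y ∈ triSec p a l)
    (hys : ‖y - p‖ = s) :
    |((x - p) / ‖x - p‖ * conj ((y - p) / ‖y - p‖)).re + 1 / 2| ≤ 16 * ε := by
  have hxp : x ≠ p := by intro h'; rw [h', sub_self, norm_zero] at hxs; linarith
  have hyp : y ≠ p := by intro h'; rw [h', sub_self, norm_zero] at hys; linarith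
  have hc1 := h.c_le
  obtain ⟨i, hi, _, _⟩ := h.cmp hx hxp (by linarith) hε0.le hε (by rw [hxs]) (by rw [hxs]; linarith)
    hT
  obtain ⟨j, hj, _, _⟩ := h.cmp hy hyp (by linarith) hε0.le hε (by rw [hys]) (by rw [hys]; linarith)
    hT
  have hdk := h.diru hx hxS hxp (by linarith)
  have hdl := h.diru hy hyS hyp (by linarith)
  have hij := tl_arm_ne hkl h.an (hi.trans (by linarith)) (hj.trans (by linarith)) hdk hdl
  have hA'1 : ‖om3 ^ (j : ℕ) * e‖ = 1 := by rw [norm_mul, om3_pow_norm, hT.1, mul_one]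
  have hAA : (om3 ^ (i : ℕ) * e * conj (om3 ^ (j : ℕ) * e)).re = -(1 / 2) := by
    have h1 : om3 ^ (i : ℕ) * e * conj (om3 ^ (j : ℕ) * e) =
        om3 ^ (i : ℕ) * conj (om3 ^ (j : ℕ)) := by
      have h4 : e * conj e = 1 := by
        rw [Complex.mul_conj, Complex.normSq_eq_norm_sq, hT.1]; simp
      rw [map_mul]
      linear_combination (om3 ^ (i : ℕ) * conj (om3 ^ (j : ℕ))) * h4
    rw [h1, om3_arms hij]
  have := tl_inner (tl_unit hxp) hA'1 hi hj hAA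
  linarith

/-- Cauchy estimate along one arm -/
private theorem tl_cauchy (h : TriData K p r₀ c α ρ C₁ B δ q a D) {η ε s₁ : ℝ}
    (hη1 : η ≤ 1 / 20) (hε0 : 0 < ε)
    (hε : 4000 * ε ≤ c) (hεc : 48 * ε / c ≤ η / 40) (hε8 : 16 * ε ≤ η / 40) (hs₁ : s₁ ≤ ρ / 8)
    (hT : ∀ r : ℝ, 0 < r → r ≤ 4 * s₁ → ∃ e, TripodDir K p r ε e)
    (hCs : ∀ d : ℝ, 0 ≤ d → d ≤ 2 * s₁ → 4 * (C₁ * d ^ α) ≤ η / 40)
    (hBs : ∀ d : ℝ, 0 ≤ d → d ≤ s₁ → B * d ^ α ≤ η / 40) {s s' : ℝ} (hs' : 0 < s')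
    (hss' : s' ≤ s) (hss : s ≤ s₁) {k : Fin 3} {x y : ℂ} (hx : x ∈ K)
    (hxS : x ∈ triSec p a k) (hxs : ‖x - p‖ = s) (hy : y ∈ K) (hyS : y ∈ triSec p a k)
    (hys : ‖y - p‖ = s') :
    ‖(y - p) / ‖y - p‖ - (x - p) / ‖x - p‖‖ ≤ η := by
  have hs0 : 0 < s := by linarith
  have hρ := h.ρ_pos
  have hη0 : 0 < η := by linarith
  have hxp : x ≠ p := by intro h'; rw [h', sub_self, norm_zero] at hxs; linarith
  have hyp : y ≠ p := by intro h'; rw [h', sub_self, norm_zero] at hys; linarith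
  obtain ⟨e₁, he₁⟩ := hT (2 * s) (by positivity) (by linarith)
  obtain ⟨i₁, hi₁, hE1⟩ := tl_point h hε0 hε hεc hε8 hCs hx hxp (by linarith) (by linarith)
    (by rw [hxs]) (by rw [hxs]; linarith) he₁
  obtain ⟨x', hx', h1, h2, h3⟩ := lf_chain h.c_pos h.c_le h.C₁_nn h.α_pos
    (by linarith [h.C₁ρ]) h.dir h.rad h.B_C₁ hs' hx (by linarith) (by linarith)
  rw [hxs] at h3
  have hx'p : x' ≠ p := by intro h'; rw [h', sub_self, norm_zero] at h1; linarith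
  obtain ⟨e₂, he₂⟩ := hT (4 * s') (by positivity) (by linarith)
  obtain ⟨i₂, hi₂, hE2⟩ := tl_point h hε0 hε hεc hε8 hCs hx' hx'p (by linarith) (by linarith)
    (by linarith) (by linarith) he₂
  obtain ⟨i₃, hi₃, _⟩ := tl_point h hε0 hε hεc hε8 hCs hy hyp (by linarith) (by linarith)
    (by linarith) (by linarith) he₂
  have hBs' := hBs s hs0.le hss
  set ux := (x - p) / (‖x - p‖ : ℝ) with hux
  set uy := (y - p) / (‖y - p‖ : ℝ) with huy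
  set v := (x' - p) / (‖x' - p‖ : ℝ) with hv
  have hvu : ‖v - ux‖ ≤ 7 * (η / 40) := by
    have h4 : v - ux = -(D x' - v) + (D x' - D x) + (D x - ux) := by ring
    rw [h4]
    refine (norm_add_le _ _).trans ?_
    have h5 := norm_add_le (-(D x' - v)) (D x' - D x)
    rw [norm_neg] at h5
    linarith
  have hdx := h.diru hx hxS hxp (by linarith)
  have hdy := h.diru hy hyS hyp (by linarith)
  have hvy : ‖v - uy‖ ≤ 1 / 2 := by
    have h4 : v - uy = (v - ux) + (ux - om3 ^ (k : ℕ) * a) - (uy - om3 ^ (k : ℕ) * a) := by ring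
    rw [h4]
    have h5 := norm_sub_le ((v - ux) + (ux - om3 ^ (k : ℕ) * a)) (uy - om3 ^ (k : ℕ) * a)
    have h6 := norm_add_le (v - ux) (ux - om3 ^ (k : ℕ) * a)
    linarith
  have h23 : i₂ = i₃ := tl_arm_eq he₂.1 le_rfl (hi₂.trans (by linarith)) (hi₃.trans (by linarith))
    hvy
  rw [h23] at hi₂
  have h5 : uy - ux = (uy - om3 ^ (i₃ : ℕ) * e₂) - (v - om3 ^ (i₃ : ℕ) * e₂) + (v - ux) := by ring
  rw [h5]
  refine (norm_add_le _ _).trans ?_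
  have h6 := norm_sub_le (uy - om3 ^ (i₃ : ℕ) * e₂) (v - om3 ^ (i₃ : ℕ) * e₂)
  linarith

/-- limits of the directions of the arms -/
theorem TriData.limits (h : TriData K p r₀ c α ρ C₁ B δ q a D) {γ : Fin 3 → ℝ → ℂ}
    (hγ : ∀ i : Fin 3, ∀ d : ℝ, 0 ≤ d → d ≤ ρ / 4 →
      (γ i d ∈ K ∧ γ i d ∈ triSec p a i) ∧ ‖γ i d - p‖ = d) :
    ∃ τ : Fin 3 → ℂ, (∀ k, Tendsto (fun s : ℝ => (s⁻¹ : ℝ) • (γ k s - p)) (𝓝[>] 0) (𝓝 (τ k))) ∧
      ∀ k l, k ≠ l → InnerProductGeometry.angle (τ k) (τ l) = 2 * Real.pi / 3 := by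
  have hρ := h.ρ_pos
  have hueq : ∀ k : Fin 3, ∀ s : ℝ, 0 < s → s ≤ ρ / 4 →
      (s⁻¹ : ℝ) • (γ k s - p) = (γ k s - p) / ‖γ k s - p‖ := by
    intro k s hs hsρ
    rw [(hγ k s hs.le hsρ).2]
    simp only [Complex.real_smul, Complex.ofReal_inv]
    rw [div_eq_mul_inv, mul_comm]
  have hγne : ∀ k : Fin 3, ∀ s : ℝ, 0 < s → s ≤ ρ / 4 → γ k s ≠ p := by
    intro k s hs hsρ h'
    have := (hγ k s hs.le hsρ).2
    rw [h', sub_self, norm_zero] at this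
    linarith
  have hmain : ∀ η : ℝ, 0 < η → ∃ s₁ : ℝ, 0 < s₁ ∧ s₁ ≤ ρ / 8 ∧
      (∀ s : ℝ, 0 < s → s ≤ s₁ → ∀ k l : Fin 3, k ≠ l →
        |((s⁻¹ : ℝ) • (γ k s - p) * conj ((s⁻¹ : ℝ) • (γ l s - p))).re + 1 / 2| ≤ η) ∧
      ∀ s s' : ℝ, 0 < s' → s' ≤ s → s ≤ s₁ → ∀ k : Fin 3,
        ‖(s'⁻¹ : ℝ) • (γ k s' - p) - (s⁻¹ : ℝ) • (γ k s - p)‖ ≤ η := by
    intro η hη
    have hη'0 : 0 < min η (1 / 20) := by positivity
    obtain ⟨ε, s₁, hε0, hε, hεc, hε8, hs₁0, hs₁1, hT, hCs, hBs⟩ := tl_scale h hη'0 (min_le_right _ _)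
    have hη'1 : min η (1 / 20) ≤ η := min_le_left _ _
    refine ⟨s₁, hs₁0, hs₁1, ?_, ?_⟩
    · intro s hs hss k l hkl
      obtain ⟨e, he⟩ := hT (2 * s) (by positivity) (by linarith)
      have hk := hγ k s hs.le (by linarith)
      have hl := hγ l s hs.le (by linarith)
      have := tl_angle h hε0 hε hs (by linarith) he hkl hk.1.1 hk.1.2 hk.2 hl.1.1 hl.1.2 hl.2
      rw [hueq k s hs (by linarith), hueq l s hs (by linarith)]
      linarith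
    · intro s s' hs' hs's hss k
      have hk := hγ k s (by linarith) (by linarith)
      have hk' := hγ k s' hs'.le (by linarith)
      have := tl_cauchy h (min_le_right _ _) hε0 hε hεc hε8 hs₁1 hT hCs hBs hs' hs's hss
        hk.1.1 hk.1.2 hk.2 hk'.1.1 hk'.1.2 hk'.2
      rw [hueq k s (by linarith) (by linarith), hueq k s' hs' (by linarith)]
      linarith
  have hτ : ∀ k : Fin 3, ∃ τ : ℂ,
      Tendsto (fun s : ℝ => (s⁻¹ : ℝ) • (γ k s - p)) (𝓝[>] 0) (𝓝 τ) := by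
    intro k
    rw [← cauchy_map_iff_exists_tendsto, Metric.cauchy_iff]
    refine ⟨inferInstance, ?_⟩
    intro η hη
    obtain ⟨s₁, hs₁0, _, _, hs₁⟩ := hmain (η / 2) (by positivity)
    refine ⟨(fun s : ℝ => (s⁻¹ : ℝ) • (γ k s - p)) '' Ioc 0 s₁, ?_, ?_⟩
    · apply Filter.image_mem_map
      exact Ioc_mem_nhdsGT hs₁0
    · rintro _ ⟨s, hs, rfl⟩ _ ⟨s', hs', rfl⟩
      rcases le_total s' s with h1 | h1
      · have := hs₁ s s' hs'.1 h1 hs.2 k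
        rw [dist_comm, dist_eq_norm]; linarith
      · have := hs₁ s' s hs.1 h1 hs'.2 k
        rw [dist_eq_norm]; linarith
  choose τ hτ using hτ
  have hτn : ∀ k, ‖τ k‖ = 1 := by
    intro k
    have h1 := (hτ k).norm
    have h2 : Tendsto (fun s : ℝ => ‖(s⁻¹ : ℝ) • (γ k s - p)‖) (𝓝[>] 0) (𝓝 1) := by
      apply tendsto_const_nhds.congr'
      have : Ioc 0 (ρ / 4) ∈ 𝓝[>] (0 : ℝ) := Ioc_mem_nhdsGT (by positivity)
      filter_upwards [this] with s hs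
      rw [hueq k s hs.1 hs.2, tl_unit (hγne k s hs.1 hs.2)]
    exact tendsto_nhds_unique h1 h2
  have hτre : ∀ k l, k ≠ l → (τ k * conj (τ l)).re = -(1 / 2) := by
    intro k l hkl
    have h1 : Tendsto (fun s : ℝ =>
        ((s⁻¹ : ℝ) • (γ k s - p) * conj ((s⁻¹ : ℝ) • (γ l s - p))).re) (𝓝[>] 0)
        (𝓝 (τ k * conj (τ l)).re) := by
      have h2 := (hτ k).mul ((Complex.continuous_conj.tendsto _).comp (hτ l))
      exact (Complex.continuous_re.tendsto _).comp h2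
    have h2 : Tendsto (fun s : ℝ =>
        ((s⁻¹ : ℝ) • (γ k s - p) * conj ((s⁻¹ : ℝ) • (γ l s - p))).re) (𝓝[>] 0)
        (𝓝 (-(1 / 2))) := by
      rw [Metric.tendsto_nhds]
      intro η hη
      obtain ⟨s₁, hs₁0, _, hs₁, _⟩ := hmain (η / 2) (by positivity)
      filter_upwards [Ioc_mem_nhdsGT hs₁0] with s hs
      have := hs₁ s hs.1 hs.2 k l hkl
      rw [Real.dist_eq, sub_neg_eq_add]
      linarith
    exact tendsto_nhds_unique h1 h2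
  refine ⟨τ, hτ, ?_⟩
  intro k l hkl
  rw [InnerProductGeometry.angle, hτn, hτn, mul_one, div_one]
  have h1 : inner ℝ (τ k) (τ l) = -(1 / 2) := by
    rw [Complex.inner, ← hτre l k (Ne.symm hkl)]
  rw [h1]
  have h2 : -(1 / 2 : ℝ) = Real.cos (2 * Real.pi / 3) := by
    have : 2 * Real.pi / 3 = Real.pi - Real.pi / 3 := by ring
    rw [this, Real.cos_pi_sub, Real.cos_pi_div_three]
  rw [h2, Real.arccos_cos (by positivity) (by linarith [Real.pi_pos])]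

end

end Pool.Agent.MP099f24
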