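import Mathlib
import Pool.Agent.Lib.MP_099f24_an.LF.TriLim
import Pool.Agent.Lib.MP_099f24_an.LF.Reg

/-!
# Triple points from flatness
-/

namespace Pool.Agent.MP099f24

open Filter Topology Set Metric
open scoped ComplexConjugate

/-- **Triple points.**  The blow-ups of `K` at `p` are tripods centred at `p`, and `K` is flat with
rate `C₀ r ^ α` at the points `x ≠ p` near `p` and the scales `r ≤ c |x - p|`.  Then `p` is a triple
point. -/
theorem lf_triple {K : Set ℂ} {p : ℂ} {r₀ c C₀ α : ℝ} (hr₀ : 0 < r₀) (hc : 0 < c)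
    (hC₀ : 0 ≤ C₀) (hα : 0 < α) (hK : IsClosed (K ∩ closedBall p r₀)) (hp : p ∈ K)
    (H1 : ∀ ε : ℝ, 0 < ε → ∃ r₁ : ℝ, 0 < r₁ ∧ ∀ r : ℝ, 0 < r → r ≤ r₁ → ∃ e, TripodDir K p r ε e)
    (H2 : ∀ x ∈ K, x ≠ p → ‖x - p‖ ≤ r₀ → ∀ r : ℝ, 0 < r → r ≤ c * ‖x - p‖ →
      FlatAt K x r (C₀ * r ^ α)) : IsTriple K p := by
  obtain ⟨ρ, C₁, B, δ, q, a, D, h⟩ := tri_data (c := min c (1 / 20)) hr₀ (by positivity)
    (min_le_right _ _) hC₀ hα H1 (by
      intro x hx hxp hxr r hr hrc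
      refine H2 x hx hxp hxr r hr (hrc.trans ?_)
      exact mul_le_mul_of_nonneg_right (min_le_left _ _) (norm_nonneg _))
  obtain ⟨γ, hγ⟩ := h.arms hp hK
  have hγ1 := fun i => (hγ i).2.1
  obtain ⟨τ, hτ1, hτ2⟩ := h.limits hγ1
  have hρ := h.ρ_pos
  have hρr := h.ρ_le
  have hγne : ∀ k : Fin 3, ∀ s : ℝ, 0 < s → s ≤ ρ / 4 → γ k s ≠ p := by
    intro k s hs hsρ h'
    have := (hγ1 k s hs.le hsρ).2
    rw [h', sub_self, norm_zero] at this
    linarith
  refine ⟨ρ / 4, γ, τ, ⟨by positivity, ?_, ?_, ?_, ?_, ?_⟩, hτ1, hτ2⟩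
  · intro k s hs
    exact ((hγ k).2.2.2 s hs.1 hs.2.le).continuousAt.continuousWithinAt
  · intro k s hs
    exact (hγ1 k s hs.1.le hs.2.le).2
  · intro k l s hs hkl
    have h1 := (hγ1 k s hs.1.le hs.2.le)
    have h2 := (hγ1 l s hs.1.le hs.2.le)
    obtain ⟨i, _, hi⟩ := h.near h1.1.1 (hγne k s hs.1 hs.2.le) (by
      rw [h1.2]; linarith [hs.2])
    have h3 := hi k h1.1.2
    have h4 := hi l (by rw [hkl]; exact h2.1.2)
    rw [h3, h4]
  · intro z hz1 hz2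
    have hzp : z ≠ p := by
      intro h'; rw [h', sub_self, norm_zero] at hz1; exact lt_irrefl _ hz1
    constructor
    · intro hz
      obtain ⟨i, hi, _⟩ := h.near hz hzp (by linarith)
      refine ⟨i, (hγ i).2.2.1 z hz ?_ hz2.le⟩
      show 4 / 5 * ‖z - p‖ ≤ ((z - p) * conj (om3 ^ (i : ℕ) * a)).re
      linarith
    · rintro ⟨k, hk⟩
      have h1 := (hγ1 k ‖z - p‖ hz1.le hz2.le).1.1
      rw [← hk] at h1
      exact h1
  · intro z hz hz1 hz2
    have hKρ : IsClosed (K ∩ closedBall p ρ) := by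
      have : K ∩ closedBall p ρ = (K ∩ closedBall p r₀) ∩ closedBall p ρ := by
        ext y
        simp only [mem_inter_iff, mem_closedBall]
        constructor
        · rintro ⟨a, b⟩; exact ⟨⟨a, by linarith⟩, b⟩
        · rintro ⟨⟨a, _⟩, b⟩; exact ⟨a, b⟩
      rw [this]
      exact hK.inter isClosed_closedBall
    have hδq := h.δ_q
    have hδ0 := h.δ_pos
    exact lf_regPt_near (r₀ := ρ) h.c_pos (by linarith [h.c_le]) h.q_pos h.q_lt hδ0.le
      (by linarith) hKρ h.geo hz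
      (fun h' => by rw [h', sub_self, norm_zero] at hz1; exact lt_irrefl _ hz1) (by linarith)

end Pool.Agent.MP099f24
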