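import Mathlib
import Pool.Agent.Lib.MP_099f24_an.LF.Defs

/-!
# Plane continua of almost minimal length
-/

namespace Pool.Agent.MP099f24

open MeasureTheory Filter Topology Set Metric
open scoped ComplexConjugate ENNReal

/-- Boundary bumping: if the continuum `Γ` meets the open set `U`, then every component of
`Γ \ U` meets `closure U`. -/
theorem lf_bump {Γ U : Set ℂ} (hΓ : IsCompact Γ) (hc : IsPreconnected Γ) (hU : IsOpen U)
    {p y : ℂ} (hp : p ∈ Γ) (hpU : p ∉ U) (hy : y ∈ Γ) (hyU : y ∈ U) :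
    (connectedComponentIn (Γ \ U) p ∩ closure U).Nonempty := by
  by_contra hne
  rw [Set.not_nonempty_iff_eq_empty] at hne
  set Z : Set ℂ := Γ \ U with hZ
  have hZc : IsCompact Z := hΓ.diff hU
  have hpZ : p ∈ Z := ⟨hp, hpU⟩
  have : CompactSpace Z := isCompact_iff_compactSpace.mp hZc
  let p' : Z := ⟨p, hpZ⟩
  have hV : IsOpen ((Subtype.val : Z → ℂ) ⁻¹' (closure U)ᶜ) :=
    isClosed_closure.isOpen_compl.preimage continuous_subtype_val
  have hcc : connectedComponent p' ⊆ (Subtype.val : Z → ℂ) ⁻¹' (closure U)ᶜ := by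
    have h1 : (Subtype.val : Z → ℂ) '' connectedComponent p' ⊆ connectedComponentIn Z p := by
      apply IsPreconnected.subset_connectedComponentIn
      · exact isPreconnected_connectedComponent.image _ continuous_subtype_val.continuousOn
      · exact ⟨p', mem_connectedComponent, rfl⟩
      · rintro _ ⟨w, _, rfl⟩
        exact w.2
    intro w hw hwU
    have : (w : ℂ) ∈ connectedComponentIn Z p ∩ closure U := ⟨h1 ⟨w, hw, rfl⟩, hwU⟩
    rw [hne] at this
    exact this
  obtain ⟨s, hs⟩ : ∃ s : { s : Set Z // IsClopen s ∧ p' ∈ s },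
      (s : Set Z) ⊆ (Subtype.val : Z → ℂ) ⁻¹' (closure U)ᶜ := by
    have : Nonempty { s : Set Z // IsClopen s ∧ p' ∈ s } :=
      ⟨⟨univ, isClopen_univ, mem_univ _⟩⟩
    apply exists_subset_nhds_of_compactSpace
    · intro a b
      refine ⟨⟨a.1 ∩ b.1, a.2.1.inter b.2.1, a.2.2, b.2.2⟩, inter_subset_left, inter_subset_right⟩
    · intro i
      exact i.2.1.isClosed
    · intro w hw
      rw [← connectedComponent_eq_iInter_isClopen] at hw
      exact hV.mem_nhds (hcc hw)
  set A : Set ℂ := (Subtype.val : Z → ℂ) '' (s : Set Z) with hA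
  have hAc : IsClosed A := ((s.2.1.isClosed.isCompact).image continuous_subtype_val).isClosed
  set B : Set ℂ := (Subtype.val : Z → ℂ) '' (s : Set Z)ᶜ ∪ (Γ ∩ closure U) with hB
  have hBc : IsClosed B := by
    refine IsClosed.union ?_ (hΓ.isClosed.inter isClosed_closure)
    exact ((s.2.1.compl.isClosed.isCompact).image continuous_subtype_val).isClosed
  have hcov : Γ ⊆ A ∪ B := by
    intro z hz
    by_cases hzU : z ∈ closure U
    · exact Or.inr (Or.inr ⟨hz, hzU⟩)
    · have hzZ : z ∈ Z := ⟨hz, fun h => hzU (subset_closure h)⟩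
      by_cases hzs : (⟨z, hzZ⟩ : Z) ∈ (s : Set Z)
      · exact Or.inl ⟨_, hzs, rfl⟩
      · exact Or.inr (Or.inl ⟨_, hzs, rfl⟩)
  have h1 := (isPreconnected_closed_iff.mp hc) A B hAc hBc hcov
    ⟨p, hp, ⟨p', s.2.2, rfl⟩⟩ ⟨y, hy, Or.inr ⟨hy, subset_closure hyU⟩⟩
  obtain ⟨z, hz, ⟨w, hw, rfl⟩, hzB⟩ := h1
  rcases hzB with ⟨w', hw', hww⟩ | ⟨_, hzU⟩
  · have := Subtype.val_injective hww
    subst this
    exact hw' hw
  · exact hs hw hzU

/-- the length of a connected set is at least the variation of the distance from a point -/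
theorem lf_len_ge {P : Set ℂ} (hP : IsPreconnected P) (c : ℂ) {a b : ℂ} (ha : a ∈ P) (hb : b ∈ P)
    (r : ℝ) (hr : r ≤ ‖b - c‖) :
    ENNReal.ofReal (r - ‖a - c‖) ≤ (μH[1] : Measure ℂ) (P ∩ ball c r) := by
  have h1 : Ico ‖a - c‖ r ⊆ (fun z : ℂ => ‖z - c‖) '' (P ∩ ball c r) := by
    intro s hs
    have himg : IsPreconnected ((fun z : ℂ => ‖z - c‖) '' P) :=
      hP.image _ (by fun_prop)
    have hsm := himg.ordConnected.out ⟨a, ha, rfl⟩ ⟨b, hb, rfl⟩ ⟨hs.1, hs.2.le.trans hr⟩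
    obtain ⟨z, hz, hzs⟩ := hsm
    refine ⟨z, ⟨hz, ?_⟩, hzs⟩
    rw [mem_ball, dist_eq_norm]
    have : ‖z - c‖ = s := hzs
    rw [this]
    exact hs.2
  have h2 : LipschitzWith 1 (fun z : ℂ => ‖z - c‖) := by
    have := (LipschitzWith.id (α := ℂ)).sub (LipschitzWith.const c)
    have h3 := lipschitzWith_one_norm.comp this
    rw [add_zero, mul_one] at h3
    exact h3
  have h3 := h2.hausdorffMeasure_image_le (d := 1) zero_le_one (P ∩ ball c r)
  rw [hausdorffMeasure_real] at h3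
  calc ENNReal.ofReal (r - ‖a - c‖) = volume (Ico ‖a - c‖ r) := by rw [Real.volume_Ico]
    _ ≤ volume ((fun z : ℂ => ‖z - c‖) '' (P ∩ ball c r)) := measure_mono h1
    _ ≤ _ := by simpa using h3

/-- the length of a connected set is at least its diameter -/
theorem lf_len_ge_dist {P : Set ℂ} (hP : IsPreconnected P) {a b : ℂ} (ha : a ∈ P) (hb : b ∈ P) :
    ENNReal.ofReal ‖a - b‖ ≤ (μH[1] : Measure ℂ) P := by
  have := lf_len_ge hP b hb ha ‖a - b‖ le_rfl
  rw [sub_self, norm_zero, sub_zero] at this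
  exact this.trans (measure_mono inter_subset_left)

private theorem chord_compClosed {Z : Set ℂ} (hZ : IsClosed Z) (p : ℂ) :
    IsClosed (connectedComponentIn Z p) := by
  by_cases hp : p ∈ Z
  · refine isClosed_of_closure_subset ?_
    refine (isPreconnected_connectedComponentIn.closure).subset_connectedComponentIn ?_ ?_
    · exact subset_closure (mem_connectedComponentIn hp)
    · exact closure_minimal (connectedComponentIn_subset _ _) hZ
  · rw [connectedComponentIn_eq_empty hp]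
    exact isClosed_empty

/-- three point estimate for continua -/
theorem lf_three {Γ : Set ℂ} (hΓ : IsCompact Γ) (hc : IsPreconnected Γ) {p q y : ℂ} (hp : p ∈ Γ)
    (hq : q ∈ Γ) (hy : y ∈ Γ) {ρ : ℝ} (hρ : 0 < ρ) (h1 : ρ ≤ ‖p - y‖) (h2 : ρ ≤ ‖q - y‖) :
    ENNReal.ofReal (min (‖p - y‖ + ‖q - y‖ - 2 * ρ) ‖p - q‖) +
      (μH[1] : Measure ℂ) (Γ ∩ ball y ρ) ≤ (μH[1] : Measure ℂ) Γ := by
  set Z : Set ℂ := Γ \ ball y ρ with hZ
  have hZc : IsClosed Z := (hΓ.diff isOpen_ball).isClosed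
  have hpU : p ∉ ball y ρ := by rw [mem_ball, dist_eq_norm]; exact not_lt.mpr h1
  have hqU : q ∉ ball y ρ := by rw [mem_ball, dist_eq_norm]; exact not_lt.mpr h2
  have hyU : y ∈ ball y ρ := mem_ball_self hρ
  have hsplit : (μH[1] : Measure ℂ) Z + (μH[1] : Measure ℂ) (Γ ∩ ball y ρ) =
      (μH[1] : Measure ℂ) Γ := by
    rw [add_comm]
    exact measure_inter_add_sdiff Γ measurableSet_ball
  rw [← hsplit]
  gcongr
  set P := connectedComponentIn Z p with hP
  set Q := connectedComponentIn Z q with hQ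
  have hpP : p ∈ P := mem_connectedComponentIn ⟨hp, hpU⟩
  have hqQ : q ∈ Q := mem_connectedComponentIn ⟨hq, hqU⟩
  have hPc : IsPreconnected P := isPreconnected_connectedComponentIn
  have hQc : IsPreconnected Q := isPreconnected_connectedComponentIn
  by_cases hPQ : P = Q
  · have hpq : q ∈ P := by rw [hPQ]; exact hqQ
    calc ENNReal.ofReal (min (‖p - y‖ + ‖q - y‖ - 2 * ρ) ‖p - q‖) ≤ ENNReal.ofReal ‖p - q‖ :=
          ENNReal.ofReal_le_ofReal (min_le_right _ _)
      _ ≤ (μH[1] : Measure ℂ) P := lf_len_ge_dist hPc hpP hpq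
      _ ≤ (μH[1] : Measure ℂ) Z := measure_mono (connectedComponentIn_subset _ _)
  · have hdisj : Disjoint P Q := by
      rw [Set.disjoint_left]
      intro z hz1 hz2
      exact hPQ ((connectedComponentIn_eq hz1).trans (connectedComponentIn_eq hz2).symm)
    have hreach : ∀ w ∈ Γ, w ∉ ball y ρ → ENNReal.ofReal (‖w - y‖ - ρ) ≤
        (μH[1] : Measure ℂ) (connectedComponentIn Z w) := by
      intro w hw hwU
      obtain ⟨z, hz1, hz2⟩ := lf_bump hΓ hc isOpen_ball hw hwU hy hyU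
      have hz3 : ‖z - y‖ ≤ ρ := by
        have := closure_ball_subset_closedBall hz2
        rwa [mem_closedBall, dist_eq_norm] at this
      have h4 := lf_len_ge (isPreconnected_connectedComponentIn (x := w) (F := Z)) y hz1
        (mem_connectedComponentIn ⟨hw, hwU⟩) ‖w - y‖ le_rfl
      refine le_trans ?_ (h4.trans (measure_mono inter_subset_left))
      exact ENNReal.ofReal_le_ofReal (by linarith)
    have e1 := hreach p hp hpU
    have e2 := hreach q hq hqU
    calc ENNReal.ofReal (min (‖p - y‖ + ‖q - y‖ - 2 * ρ) ‖p - q‖)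
        ≤ ENNReal.ofReal ((‖p - y‖ - ρ) + (‖q - y‖ - ρ)) :=
          ENNReal.ofReal_le_ofReal (by refine (min_le_left _ _).trans (by linarith))
      _ ≤ ENNReal.ofReal (‖p - y‖ - ρ) + ENNReal.ofReal (‖q - y‖ - ρ) := ENNReal.ofReal_add_le
      _ ≤ (μH[1] : Measure ℂ) P + (μH[1] : Measure ℂ) Q := add_le_add e1 e2
      _ = (μH[1] : Measure ℂ) (P ∪ Q) :=
          (measure_union hdisj (chord_compClosed hZc q).measurableSet).symm
      _ ≤ (μH[1] : Measure ℂ) Z :=
          measure_mono (union_subset (connectedComponentIn_subset _ _)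
            (connectedComponentIn_subset _ _))

/-- **Chord lemma.**  A continuum through `p` and `q` of length at most `|p - q| + δ` lies in the
ellipse `|p - y| + |y - q| ≤ |p - q| + 2 δ`. -/
theorem lf_chord {Γ : Set ℂ} (hΓ : IsCompact Γ) (hc : IsPreconnected Γ) {p q y : ℂ} (hp : p ∈ Γ)
    (hq : q ∈ Γ) (hy : y ∈ Γ) {δ : ℝ} (hδ : 0 ≤ δ)
    (hlen : (μH[1] : Measure ℂ) Γ ≤ ENNReal.ofReal (‖p - q‖ + δ)) :
    ‖p - y‖ + ‖q - y‖ ≤ ‖p - q‖ + 2 * δ := by
  by_contra hcon
  push Not at hcon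
  have hp1 : δ < ‖p - y‖ := by
    by_contra h
    push Not at h
    have : ‖q - y‖ ≤ ‖p - q‖ + ‖p - y‖ := by
      have : q - y = -(p - q) + (p - y) := by ring
      rw [this]
      refine (norm_add_le _ _).trans ?_
      rw [norm_neg]
    linarith
  have hq1 : δ < ‖q - y‖ := by
    by_contra h
    push Not at h
    have : ‖p - y‖ ≤ ‖p - q‖ + ‖q - y‖ := by
      have : p - y = (p - q) + (q - y) := by ring
      rw [this]
      exact norm_add_le _ _
    linarith
  -- choose `ρ`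
  set a := ‖p - y‖ + ‖q - y‖ - (‖p - q‖ + 2 * δ) with ha
  have ha0 : 0 < a := by rw [ha]; linarith
  obtain ⟨ρ, hρ1, hρ2, hρ3, hρ4⟩ : ∃ ρ, δ < ρ ∧ ρ ≤ ‖p - y‖ ∧ ρ ≤ ‖q - y‖ ∧ ρ ≤ δ + a / 2 := by
    refine ⟨min (min ‖p - y‖ ‖q - y‖) (δ + a / 2), ?_, ?_, ?_, ?_⟩
    · rw [lt_min_iff, lt_min_iff]; exact ⟨⟨hp1, hq1⟩, by linarith⟩
    · exact (min_le_left _ _).trans (min_le_left _ _)
    · exact (min_le_left _ _).trans (min_le_right _ _)
    · exact min_le_right _ _
  have hρ0 : 0 < ρ := by linarith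
  have h1 := lf_three hΓ hc hp hq hy hρ0 hρ2 hρ3
  have h2 : ENNReal.ofReal ρ ≤ (μH[1] : Measure ℂ) (Γ ∩ ball y ρ) := by
    have := lf_len_ge hc y hy hp ρ hρ2
    rwa [sub_self, norm_zero, sub_zero] at this
  have hmin0 : 0 ≤ min (‖p - y‖ + ‖q - y‖ - 2 * ρ) ‖p - q‖ := by
    refine le_min ?_ (norm_nonneg _)
    linarith
  have h3 : ENNReal.ofReal (min (‖p - y‖ + ‖q - y‖ - 2 * ρ) ‖p - q‖ + ρ) ≤
      ENNReal.ofReal (‖p - q‖ + δ) := by
    rw [ENNReal.ofReal_add hmin0 hρ0.le]
    exact (add_le_add le_rfl h2).trans (h1.trans hlen)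
  have h4 := (ENNReal.ofReal_le_ofReal_iff (by positivity)).1 h3
  rcases min_cases (‖p - y‖ + ‖q - y‖ - 2 * ρ) ‖p - q‖ with ⟨h5, _⟩ | ⟨h5, _⟩
  · rw [h5] at h4
    have : ρ < δ + a := by linarith
    linarith
  · rw [h5] at h4; linarith

/-- height above the chord -/
theorem lf_height {p q y : ℂ} {d δ : ℝ} (hd : ‖p - q‖ = d) (hd0 : 0 < d)
    (h : ‖p - y‖ + ‖q - y‖ ≤ d + 2 * δ) :
    (((y - p) * conj ((q - p) / d)).im) ^ 2 ≤ δ * (d + δ) := by
  set e : ℂ := (q - p) / d with he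
  have hen : ‖e‖ = 1 := by
    rw [he, norm_div, norm_sub_rev, hd, Complex.norm_real, Real.norm_eq_abs, abs_of_pos hd0,
      div_self hd0.ne']
  have hec : ‖conj e‖ = 1 := by rw [RCLike.norm_conj, hen]
  have hqp : q - p = d * e := by
    have : (d : ℂ) ≠ 0 := by exact_mod_cast hd0.ne'
    rw [he]; field_simp
  have hee : e * conj e = 1 := by
    rw [Complex.mul_conj, Complex.normSq_eq_norm_sq, hen]; simp
  set z : ℂ := (y - p) * conj e with hz
  -- `w` is the reflection trick: `‖z‖ + ‖conj (d - z)‖ ≥ ‖(d, 2 h)‖`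
  have h1 : ‖p - y‖ = ‖z‖ := by
    rw [hz, norm_mul, hec, mul_one, norm_sub_rev]
  have h2 : ‖q - y‖ = ‖(d : ℂ) - conj z‖ := by
    have h3 : q - y = ((d : ℂ) - z) * e := by
      rw [hz, sub_mul, mul_assoc, mul_comm (conj e), hee, mul_one, ← hqp]; ring
    rw [h3, norm_mul, hen, mul_one]
    rw [← RCLike.norm_conj ((d : ℂ) - z)]
    simp
  have h3 : ‖(d : ℂ) + 2 * (z.im) * Complex.I‖ ≤ d + 2 * δ := by
    have : (d : ℂ) + 2 * (z.im) * Complex.I = z + ((d : ℂ) - conj z) := by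
      apply Complex.ext <;> simp; ring
    rw [this]
    refine (norm_add_le _ _).trans ?_
    rw [← h1, ← h2]; exact h
  have h4 : ‖(d : ℂ) + 2 * (z.im) * Complex.I‖ ^ 2 = d ^ 2 + 4 * z.im ^ 2 := by
    rw [Complex.sq_norm, Complex.normSq_apply]
    simp
    ring
  have h5 : d ^ 2 + 4 * z.im ^ 2 ≤ (d + 2 * δ) ^ 2 := by
    rw [← h4]
    exact pow_le_pow_left₀ (norm_nonneg _) h3 2
  nlinarith

/-- **Flatness from the chord comparison.**  `Γ ⊆ K` is a continuum containing `x`, two points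
`p, q` at distance `s` from `x` and `K ∩ B_r(x)`, and its length is at most `|p - q| + δ`. -/
theorem lf_flat_of_chord {K Γ : Set ℂ} (hΓ : IsCompact Γ) (hc : IsPreconnected Γ) (hΓK : Γ ⊆ K)
    {x p q : ℂ} {r s δ : ℝ} (hx : x ∈ Γ) (hp : p ∈ Γ) (hq : q ∈ Γ) (hps : ‖p - x‖ = s)
    (hqs : ‖q - x‖ = s) (hr : 0 < r) (hrs : r ≤ s / 2) (hδ : 0 ≤ δ) (hδs : 4 * δ ≤ s)
    (hKr : K ∩ closedBall x r ⊆ Γ)
    (hlen : (μH[1] : Measure ℂ) Γ ≤ ENNReal.ofReal (‖p - q‖ + δ)) :
    FlatAt K x r (2 * Real.sqrt (δ * (2 * s + δ)) / r) := by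
  have hs0 : 0 < s := by linarith
  set d := ‖p - q‖ with hd
  have hd2 : d ≤ 2 * s := by
    have : p - q = (p - x) - (q - x) := by ring
    rw [hd, this]
    refine (norm_sub_le _ _).trans ?_
    rw [hps, hqs]; linarith
  have hxe := lf_chord hΓ hc hp hq hx hδ hlen
  rw [hps, hqs, ← hd] at hxe
  have hd0 : 0 < d := by linarith
  set e : ℂ := (q - p) / d with he
  have hen : ‖e‖ = 1 := by
    rw [he, norm_div, norm_sub_rev, ← hd, Complex.norm_real, Real.norm_eq_abs, abs_of_pos hd0,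
      div_self hd0.ne']
  have hqp : q - p = d * e := by
    have : (d : ℂ) ≠ 0 := by exact_mod_cast hd0.ne'
    rw [he]; field_simp
  have hee : e * conj e = 1 := by
    rw [Complex.mul_conj, Complex.normSq_eq_norm_sq, hen]; simp
  have hee' : conj e * e = 1 := by rw [mul_comm]; exact hee
  set H := Real.sqrt (δ * (2 * s + δ)) with hH
  have hH0 : 0 ≤ H := Real.sqrt_nonneg _
  have hh : ∀ y ∈ Γ, |((y - p) * conj e).im| ≤ H := by
    intro y hy
    have h1 := lf_chord hΓ hc hp hq hy hδ hlen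
    have h2 := lf_height hd.symm hd0 h1
    rw [hH]
    apply Real.abs_le_sqrt
    refine h2.trans ?_
    have : δ * d ≤ δ * (2 * s) := mul_le_mul_of_nonneg_left hd2 hδ
    nlinarith
  have hh2 : ∀ y ∈ Γ, |((y - x) * conj e).im| ≤ 2 * H := by
    intro y hy
    have : ((y - x) * conj e).im = ((y - p) * conj e).im - ((x - p) * conj e).im := by
      rw [← Complex.sub_im]; congr 1; ring
    rw [this]
    refine (abs_sub _ _).trans ?_
    have := hh y hy
    have := hh x hx
    linarith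
  -- coordinates of `p` and `q`
  have hpc : ((p - x) * conj e).re ≤ -(s - 2 * δ) ∧ s - 2 * δ ≤ ((q - x) * conj e).re := by
    have h1 : ((q - x) * conj e).re - ((p - x) * conj e).re = d := by
      rw [← Complex.sub_re]
      have : (q - x) * conj e - (p - x) * conj e = (d : ℂ) := by
        have : (q - x) * conj e - (p - x) * conj e = (q - p) * conj e := by ring
        rw [this, hqp, mul_assoc, hee, mul_one]
      rw [this]; simp
    have h2 : |((q - x) * conj e).re| ≤ s := by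
      refine (Complex.abs_re_le_norm _).trans ?_
      rw [norm_mul, RCLike.norm_conj, hen, mul_one, hqs]
    have h3 : |((p - x) * conj e).re| ≤ s := by
      refine (Complex.abs_re_le_norm _).trans ?_
      rw [norm_mul, RCLike.norm_conj, hen, mul_one, hps]
    rw [abs_le] at h2 h3
    constructor <;> linarith [h2.1, h2.2, h3.1, h3.2]
  refine ⟨e, hen, ?_, ?_⟩
  · intro y hy hyr
    rw [div_mul_cancel₀ _ hr.ne']
    exact hh2 y (hKr ⟨hy, by rw [mem_closedBall, dist_eq_norm]; exact hyr⟩)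
  · intro t ht
    rw [div_mul_cancel₀ _ hr.ne']
    have himg : IsPreconnected ((fun z : ℂ => ((z - x) * conj e).re) '' Γ) :=
      hc.image _ (by fun_prop)
    obtain ⟨y, hy, hyt⟩ := himg.ordConnected.out ⟨p, hp, rfl⟩ ⟨q, hq, rfl⟩
      (show t ∈ Icc ((p - x) * conj e).re ((q - x) * conj e).re by
        rw [abs_le] at ht
        constructor <;> linarith [hpc.1, hpc.2, ht.1, ht.2])
    refine ⟨y, hΓK hy, ?_⟩
    have hyt' : ((y - x) * conj e).re = t := hyt
    have h1 : y - (x + (t : ℂ) * e) = (((((y - x) * conj e).im : ℝ) : ℂ) * Complex.I) * e := by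
      have h2 : (y - x) * conj e = (t : ℂ) + (((y - x) * conj e).im : ℂ) * Complex.I := by
        apply Complex.ext
        · simp only [Complex.add_re, Complex.ofReal_re, Complex.mul_re, Complex.I_re, mul_zero,
            Complex.ofReal_im, Complex.I_im, mul_one, sub_self, add_zero]
          exact hyt'
        · simp
      have h3 : y - x = ((y - x) * conj e) * e := by rw [mul_assoc, hee', mul_one]
      have h4 : y - (x + (t : ℂ) * e) = (y - x) - (t : ℂ) * e := by ring
      rw [h4]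
      conv_lhs => rw [h3, h2]
      ring
    rw [h1, norm_mul, norm_mul, hen, mul_one, Complex.norm_I, mul_one, Complex.norm_real,
      Real.norm_eq_abs]
    exact hh2 y hy

end Pool.Agent.MP099f24
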